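import Pool.Agent.Lib.MP_33b3f9_ag.MG.CB.Pure

/-!
The class bound without matrices: the classes.
-/

set_option autoImplicit false
set_option linter.unusedSectionVars false

noncomputable section

namespace MG.CB

open NumberField M4 M4.CM Module Polynomial
open Pool.Agent.M4.Mx hiding sg

variable {F E₀ E : Type} [Field F] [NumberField F] [Field E₀] [NumberField E₀] [Field E]
  [NumberField E] [Algebra F E] {i₀ : F →+* E₀} {cj : E₀ →+* E₀} {ι₁ : F →+* Qb} {y : Qb} {p : ℕ}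

open Classical in
/-- The primes of the field of the face. -/
def Pt.A (x : Pt F E₀) (w₀ : E) : Pl E :=
  ⟨x.M, fun l _ => (ov E (x.ι l)).filter fun φ => φ w₀ = x.u l⟩

theorem Pt.mem_A (x : Pt F E₀) (w₀ : E) {l : ℕ} [Fact l.Prime] (φ : E →+* Om l) :
    φ ∈ (x.A w₀).T l ↔ φ.comp (algebraMap F E) = x.ι l ∧ φ w₀ = x.u l := by
  classical
  exact Finset.mem_filter.trans (and_congr_left' mem_ov)

theorem Pt.wt_A (x : Pt F E₀) (w₀ : E) {l : ℕ} [Fact l.Prime] (φ : E →+* Om l) :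
    (x.A w₀).wt φ = x.wa (φ.comp (algebraMap F E)) (φ w₀) := by
  classical
  exact if_congr (and_congr_right' (x.mem_A w₀ φ)) rfl rfl

variable {x x' : Pt F E₀} {w₀ : E}

theorem Pt.Ok.A (hx : x.Ok i₀ cj ι₁ y p) (hw : Gen F w₀) : (x.A w₀).Ok 1 := by
  refine ⟨hx.B.1, fun l _ hl => ⟨Finset.card_le_one.2 fun φ h φ' h' => ?_, fun φ h z => ?_⟩⟩
  · rw [Pt.mem_A] at h h'
    exact hw _ _ _ (h.1.trans h'.1.symm) (h.2.trans h'.2.symm)
  · rw [Pt.mem_A] at h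
    obtain ⟨h1, h2, -⟩ := hx.rat l hl
    refine (mem_Qp_iff _).2 fun θ => RingHom.congr_fun
      (hw _ ((θ : Om l →+* Om l).comp φ) φ (RingHom.ext fun t => ?_) ?_) z
    · rw [← h.1] at h1
      exact (mem_Qp_iff _).1 (h1 t) θ
    · exact (mem_Qp_iff _).1 (h.2 ▸ h2) θ

theorem Pt.Ok.ex (hx : x.Ok i₀ cj ι₁ y p) {φ₁ φ₂ : E →+* Qb} (a1 : φ₁.comp (algebraMap F E) = ι₁)
    (a2 : φ₁ w₀ = y) (b1 : φ₂.comp (algebraMap F E) = ι₁) (b2 : φ₂ w₀ = -y) {l : ℕ} [Fact l.Prime]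
    (hl : l ∣ x.M) : ∃ φ : E →+* Om l, φ.comp (algebraMap F E) = x.ι l ∧ φ w₀ = x.u l := by
  obtain ⟨-, -, j, h1, h2⟩ := hx.rat l hl
  rcases sq_eq_sq_iff_eq_or_eq_neg.1 h2 with h | h
  · exact ⟨j.comp φ₁, by rw [RingHom.comp_assoc, a1, h1], by rw [RingHom.comp_apply, a2, h]⟩
  · exact ⟨j.comp φ₂, by rw [RingHom.comp_assoc, b1, h1],
      by rw [RingHom.comp_apply, b2, map_neg, h, neg_neg]⟩

theorem pw_le {a T : ℝ} (h0 : 0 ≤ a) (hT : 1 ≤ T) {k n n' : ℕ} (h : a ≤ T ^ k) (hn : n ≤ n') :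
    a ^ n ≤ T ^ (k * n') :=
  (pow_le_pow_left₀ h0 h n).trans (by
    rw [← pow_mul]
    exact pow_le_pow_right₀ hT (Nat.mul_le_mul_left k hn))

theorem classes [IsTotallyReal F] (hc : cj.comp i₀ = i₀) (hd : finrank ℚ E₀ = 2 * finrank ℚ F) :
    ∃ C : ℕ, ∀ (p : ℕ) [Fact p.Prime] (P : Polynomial F), GC p P → ∀ (ι₁ : F →+* Qb) (s₁ : Qb)
      (w₁ : Fin 3 → Qb), Cu p (P.map ι₁) s₁ w₁ → ∀ (i : Fin 3) (q : ℕ), q ≠ 0 →
      ∃ (h : ℕ) (cl : Pt F E₀ → Fin h) (Γ : Pt F E₀ → Polynomial E₀), h ≤ (q * p) ^ C ∧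
        ∀ x x' : Pt F E₀, x.Ok i₀ cj ι₁ (w₁ i) p → x'.Ok i₀ cj ι₁ (w₁ i) p → cl x = cl x' →
          (∃ Γ', P.map i₀ ∣ Γ x' * Γ' - 1) ∧
            ∃ γ b d, P.map i₀ ∣ Γ x' * γ - Γ x ∧ Rel i₀ cj p P q x x' γ b d := by
  obtain ⟨B, hB1, hB⟩ := exists_face F
  obtain ⟨B₀, hB₀, κ₀, _, ω₀, k1, k2, k3⟩ := exists_small E₀
  set e := finrank ℚ F with he
  obtain ⟨c, hc2⟩ := pow_unbounded_of_one_lt (max (6 * e * B) (2 * e * B₀)) (one_lt_two (α := ℝ))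
  set k := (c + 6 * e) * (6 * e) + c * (2 * e) + 2 with hk
  set a := 1 + 2 * (56 * e) + k with ha
  refine ⟨a * (6 * e) + (c + 6 * e) * (6 * e * (6 * e + 2)) +
    (a * (2 * e) + c * (2 * e * (2 * e + 2))) + a, fun p _ P G ι₁ s₁ w₁ hcu i q hq => ?_⟩
  have hp : p ≠ 0 := (Fact.out : p.Prime).ne_zero
  have hp2 : (2 : ℝ) ≤ p := by exact_mod_cast (Fact.out : p.Prime).two_le
  have hp1 : (1 : ℝ) ≤ p := one_le_two.trans hp2
  have hq1 : (1 : ℝ) ≤ q := by exact_mod_cast Nat.pos_of_ne_zero hq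
  have hpT : (p : ℝ) ≤ q * p := le_mul_of_one_le_left (by positivity) hq1
  have hT : (1 : ℝ) ≤ q * p := hp1.trans hpT
  obtain ⟨E, _, _, _, φ₁, w₀, a1, a2, hF, κ₁, _, ω₁, l1, l2, l3⟩ := hB p P hp G ι₁ s₁ w₁ hcu i
  obtain ⟨φ₂, b1, b2⟩ := exists_neg hp G hcu a1 a2
  obtain ⟨N, hN, hN1, hN2⟩ := G.exists_N
  have hm : q * N * p ^ k ≠ 0 := by positivity
  have : NeZero (q * N * p ^ k) := ⟨hm⟩
  obtain ⟨hA, clA, gA, A1, A2, A3⟩ := ray_pl l1 ω₁ l2 l3 hm 1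
  obtain ⟨hB', clB, gB, B1, B2, B3⟩ := ray_pl k1 ω₀ k2 k3 hm (e - 1)
  have : Module.Finite F E := Module.Finite.of_restrictScalars_finite ℚ F E
  have hn : finrank ℚ E ≤ 6 * e := by
    rw [← finrank_mul_finrank ℚ F E, mul_comm]
    exact Nat.mul_le_mul_right _ (hF.rank_le G)
  have hn1 : (1 : ℝ) ≤ finrank ℚ E := by exact_mod_cast finrank_pos (R := ℚ) (M := E)
  have hn0 : (1 : ℝ) ≤ finrank ℚ E₀ := by exact_mod_cast finrank_pos (R := ℚ) (M := E₀)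
  have h2c : (2 : ℝ) ^ c ≤ p ^ c := pow_le_pow_left₀ zero_le_two hp2 c
  have n1 : finrank ℚ E * (B * (p : ℝ) ^ finrank ℚ E) ≤ (p : ℝ) ^ (c + 6 * e) := by
    rw [pow_add, ← mul_assoc]
    refine mul_le_mul (le_trans ?_ (((le_max_left _ _).trans hc2.le).trans h2c))
      (pow_le_pow_right₀ hp1 hn) (by positivity) (by positivity)
    exact mul_le_mul_of_nonneg_right (by exact_mod_cast hn) (by positivity)
  have n2 : finrank ℚ E₀ * B₀ ≤ (p : ℝ) ^ c := by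
    refine le_trans (le_of_eq ?_) (((le_max_right _ _).trans hc2.le).trans h2c)
    rw [hd]
    push_cast
    rfl
  have n3 : ((q * N * p ^ k : ℕ) : ℝ) ≤ (q * p : ℝ) ^ a := by
    have h1 : (N : ℝ) ≤ (2 * p : ℝ) ^ (56 * e) := by exact_mod_cast hN1
    have h2 : (2 * p : ℝ) ≤ (q * p) ^ 2 := by nlinarith
    push_cast
    rw [ha, pow_add (q * p : ℝ), pow_add (q * p : ℝ), pow_one]
    exact mul_le_mul (mul_le_mul (le_mul_of_one_le_right (by positivity) hp1)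
      (h1.trans (pw_le (by positivity) hT h2 le_rfl)) (by positivity) (by positivity))
      (pow_le_pow_left₀ (by positivity) hpT k) (by positivity) (by positivity)
  have n4 : (finrank ℚ E * (B * (p : ℝ) ^ finrank ℚ E)) ^ finrank ℚ E *
      (finrank ℚ E₀ * B₀) ^ finrank ℚ E₀ ≤ (p : ℝ) ^ k / 4 := by
    refine (mul_le_mul (pw_le (by positivity) hp1 n1 hn) (pw_le (by positivity) hp1 n2 hd.le)
      (by positivity) (by positivity)).trans ?_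
    rw [← pow_add, hk, pow_add _ _ 2, mul_div_assoc]
    exact le_mul_of_one_le_right (by positivity) (by nlinarith)
  choose V hV using fun (a : E) (b : E₀) => exists_val G i₀ w₀ a b
  have hE : ∀ x : Pt F E₀, x.Ok i₀ cj ι₁ (w₁ i) p →
      (∀ (l : ℕ) [Fact l.Prime] (ψ : E₀ →+* Om l),
        ‖ψ (eta i₀ cj (gA (x.A w₀) : E) (gB x.B : E₀) x.M)‖ ≤ 1) ∧
      ∀ σ : E₀ →+* ℂ, ‖σ (eta i₀ cj (gA (x.A w₀) : E) (gB x.B : E₀) x.M)‖ ≤ (p : ℝ) ^ k / 4 := by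
    intro x hx
    obtain ⟨-, c1, c2⟩ := A2 _ (hx.A hF.gen)
    obtain ⟨-, d1, d2⟩ := B2 _ hx.B
    refine ⟨fun l _ ψ => eta_int hx.B.1 (RingOfIntegers.isIntegral_coe _)
      (RingOfIntegers.isIntegral_coe _) ψ fun hl => ?_, fun σ => (eta_house hx.B.1.ne_zero
        (one_le_pow₀ (one_le_mul_of_one_le_of_one_le hn1
          (one_le_mul_of_one_le_of_one_le hB1 (one_le_pow₀ hp1))))
        (one_le_pow₀ (one_le_mul_of_one_le_of_one_le hn0 hB₀)) hd c2 d2 σ).trans n4⟩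
    refine (hx.cov l hl ψ).imp (fun h => ?_) (Or.imp (fun h => ?_) fun h => ?_)
    · obtain ⟨φ, h1, h2⟩ := hx.ex a1 a2 b1 b2 hl
      exact ⟨φ, h1.trans h.symm, (c1 l φ).trans_eq (if_pos ⟨hl, (x.mem_A w₀ φ).2 ⟨h1, h2⟩⟩)⟩
    · exact (d1 l ψ).trans_eq (if_pos ⟨hl, h⟩)
    · exact (d1 l (ψ.comp cj)).trans_eq (if_pos ⟨hl, h⟩)
  refine ⟨hA * hB' * (q * N * p ^ k), fun x => finProdFinEquiv (finProdFinEquiv
    (clA (x.A w₀), clB x.B), Fin.ofNat _ x.M), fun x => V (gA (x.A w₀)) (gB x.B), ?_,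
    fun x x' hx hx' hcl => ?_⟩
  · have h1 := A1.trans (mul_le_mul (pw_le (by positivity) hT n3 hn)
      (pw_le (by positivity) hT (n1.trans (pow_le_pow_left₀ (by positivity) hpT _))
        (Nat.mul_le_mul hn (Nat.add_le_add_right hn 2))) (by positivity) (by positivity))
    have h2 := B1.trans (mul_le_mul (pw_le (by positivity) hT n3 hd.le)
      (pw_le (by positivity) hT (n2.trans (pow_le_pow_left₀ (by positivity) hpT _))
        (Nat.mul_le_mul hd.le (Nat.add_le_add_right hd.le 2))) (by positivity) (by positivity))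
    have h3 := mul_le_mul (mul_le_mul h1 h2 (by positivity) (by positivity)) n3 (by positivity)
      (by positivity)
    rw [← pow_add, ← pow_add, ← pow_add, ← pow_add] at h3
    exact_mod_cast h3
  have e1 := Prod.ext_iff.1 (finProdFinEquiv.injective hcl)
  have e2 := Prod.ext_iff.1 (finProdFinEquiv.injective e1.1)
  have e3 : x.M ≡ x'.M [MOD q * N * p ^ k] := congrArg Fin.val e1.2
  obtain ⟨c1, y, c2⟩ := A3 _ _ (hx.A hF.gen) (hx'.A hF.gen) e2.1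
  obtain ⟨d1, y', d2⟩ := B3 _ _ hx.B hx'.B e2.2
  have g1 : (gA (x'.A w₀) : E) ≠ 0 := by simpa using (A2 _ (hx'.A hF.gen)).1
  have g2 : (gB x'.B : E₀) ≠ 0 := by simpa using (B2 _ hx'.B).1
  refine ⟨⟨_, (hV _ _).mul G (hV (gA (x'.A w₀) : E)⁻¹ (gB x'.B : E₀)⁻¹) ?_⟩,
    V (gA (x.A w₀) / gA (x'.A w₀)) (gB x.B / gB x'.B), gB x.B / gB x'.B,
    fun l _ => Dv w₀ (gA (x.A w₀) / gA (x'.A w₀) : E), (hV _ _).mul G (hV _ _) ?_,
    e3.of_dvd (Dvd.intro _ (mul_assoc _ _ _).symm),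
    (hV _ _).int G hF.gen hx'.B.1.ne_zero hq hN c2 d2 hN2, fun l _ => (hV _ _).2 _,
    fun l _ ι u => ?_, d1, fun l _ θ ι u => Dv_map _ _ θ ι u, fun R hR => ?_⟩
  · rw [mul_inv_cancel₀ g1, mul_inv_cancel₀ g2]
    exact val_one
  · rw [mul_div_cancel₀ _ g1, mul_div_cancel₀ _ g2]
    exact hV _ _
  · by_cases h1 : ∃ φ : E →+* Om l, φ.comp (algebraMap F E) = ι ∧ φ w₀ = u
    · obtain ⟨φ, rfl, rfl⟩ := h1
      rw [Dv_eq hF.gen, ← Pt.wt_A, ← Pt.wt_A]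
      exact c1 l φ
    · have h2 : ∀ z : Pt F E₀, z.Ok i₀ cj ι₁ (w₁ i) p → z.wa ι u = 1 := fun z hz => by
        refine if_neg ?_
        rintro ⟨h2, rfl, rfl⟩
        exact h1 (hz.ex a1 a2 b1 b2 h2)
      rw [Dv_one _ fun φ h2 h3 => h1 ⟨φ, h2, h3⟩, h2 x hx, h2 x' hx', norm_one, one_mul]
  · have h1 := eta_eq (i₀ := i₀) (cj := cj) g1 g2 hx.np hx'.np (Dvd.intro_left _ rfl) e3 c2 d2
      (fun l _ ψ => ⟨(hE x hx).1 l ψ, (hE x' hx').1 l ψ⟩) fun σ => ⟨(hE x hx).2 σ, (hE x' hx').2 σ⟩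
    rw [← h1, C_mul, ← mul_sub]
    exact ((hV _ _).sim G hp hF hc hR).mul_left _

end MG.CB
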