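import Pool.Agent.Lib.MP_33b3f9_ag.M4.CmCubeB
import Pool.Agent.Lib.MP_33b3f9_ag.M4.CmTrans

/-!
Polynomials whose roots form a cube; rigidity of the cube.
-/

set_option autoImplicit false
set_option linter.unusedSectionVars false

noncomputable section

namespace MG.CB

open Matrix Polynomial NumberField M4 M4.CM
open Pool.Agent.M4.Mx hiding sg

variable {Ω Ω' : Type} [Field Ω] [Field Ω']

/-- A vertex of the cube. -/
def vx (s : Ω) (w : Fin 3 → Ω) (ε : κ) : Ω := s / 8 * ∏ i, (1 + sg Ω (ε i) * w i)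

/-- The roots of `Q` are the vertices of the cube `(s, w)`. -/
structure Cu (p : ℕ) (Q : Polynomial Ω) (s : Ω) (w : Fin 3 → Ω) : Prop where
  eq : Q = ∏ ε : κ, (X - C (vx s w ε))
  nrm : s ^ 2 * ∏ i, (1 - w i ^ 2) = 64 * p
  inj : Function.Injective fun ε => vx s w ε ^ 2

theorem sg_zero : sg Ω 0 = -1 := rfl

theorem sg_one : sg Ω 1 = 1 := rfl

theorem sg_map (j : Ω →+* Ω') (a : Fin 2) : j (sg Ω a) = sg Ω' a := by
  unfold sg
  split_ifs <;> simp

theorem sg_sq (a : Fin 2) : sg Ω a ^ 2 = 1 := by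
  unfold sg
  split_ifs <;> simp

theorem vx_map (j : Ω →+* Ω') (s : Ω) (w : Fin 3 → Ω) (ε : κ) :
    j (vx s w ε) = vx (j s) (fun i => j (w i)) ε := by
  simp only [vx, map_mul, map_prod, map_div₀, map_ofNat, map_add, map_one, sg_map]

variable {p : ℕ} {Q : Polynomial Ω} {s s' : Ω} {w w' : Fin 3 → Ω}

theorem cu_map_iff (j : Ω →+* Ω') : Cu p (Q.map j) (j s) (fun i => j (w i)) ↔ Cu p Q s w := by
  have e1 : ∏ ε : κ, (X - C (vx (j s) (fun i => j (w i)) ε)) =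
      (∏ ε : κ, (X - C (vx s w ε))).map j := by
    simp only [Polynomial.map_prod, Polynomial.map_sub, map_X, map_C, vx_map]
  have e2 : j s ^ 2 * ∏ i, (1 - j (w i) ^ 2) = j (s ^ 2 * ∏ i, (1 - w i ^ 2)) := by
    simp only [map_mul, map_prod, map_pow, map_sub, map_one]
  have e3 : (64 * p : Ω') = j (64 * p) := by simp only [map_mul, map_ofNat, map_natCast]
  have e4 : (fun ε => vx (j s) (fun i => j (w i)) ε ^ 2) = j ∘ fun ε => vx s w ε ^ 2 := by
    funext ε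
    simp only [Function.comp, map_pow, vx_map]
  constructor
  · rintro ⟨h1, h2, h3⟩
    rw [e1] at h1
    rw [e2, e3] at h2
    rw [e4] at h3
    exact ⟨Polynomial.map_injective j j.injective h1, j.injective h2, h3.of_comp⟩
  · rintro ⟨h1, h2, h3⟩
    exact ⟨by rw [e1, ← h1], by rw [e2, e3, h2], by rw [e4]; exact j.injective.comp h3⟩

theorem Cu.map (h : Cu p Q s w) (j : Ω →+* Ω') : Cu p (Q.map j) (j s) fun i => j (w i) :=
  (cu_map_iff j).2 h

theorem Cu.inj' (h : Cu p Q s w) : Function.Injective (vx s w) := fun _ _ e =>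
  h.inj (congrArg (· ^ 2) e)

theorem Cu.monic (h : Cu p Q s w) : Q.Monic :=
  h.eq ▸ monic_prod_of_monic _ _ fun _ _ => monic_X_sub_C _

theorem Cu.root_iff (h : Cu p Q s w) (z : Ω) : Q.eval z = 0 ↔ ∃ ε, z = vx s w ε := by
  simp [h.eq, eval_prod, Finset.prod_eq_zero_iff, sub_eq_zero]

theorem Cu.root (h : Cu p Q s w) (ε : κ) : Q.eval (vx s w ε) = 0 := (h.root_iff _).2 ⟨ε, rfl⟩

theorem Cu.perm (h : Cu p Q s w) (h' : Cu p Q s' w') :
    ∃ π : κ ≃ κ, ∀ ε, vx s' w' (π ε) = vx s w ε := by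
  choose π hπ using fun ε => (h'.root_iff _).1 (h.root ε)
  have hi : Function.Injective π := fun a b e => h.inj' (by rw [hπ, hπ, e])
  exact ⟨Equiv.ofBijective π (Finite.injective_iff_bijective.1 hi), fun ε => (hπ ε).symm⟩

theorem sum_vx (s : Ω) (w : Fin 3 → Ω) (k : ℕ) :
    ∑ ε, vx s w ε ^ k = (s / 8) ^ k * ∏ i, ((1 - w i) ^ k + (1 + w i) ^ k) := by
  have e : ∏ i, ((1 - w i) ^ k + (1 + w i) ^ k) = ∏ i, ∑ a : Fin 2, (1 + sg Ω a * w i) ^ k :=
    Finset.prod_congr rfl fun i _ => by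
      rw [Fin.sum_univ_two, sg_zero, sg_one, one_mul, neg_one_mul, sub_eq_add_neg]
  rw [e, Finset.prod_univ_sum, Fintype.piFinset_univ, Finset.mul_sum]
  simp only [vx, mul_pow, Finset.prod_pow]

variable [CharZero Ω]

theorem sum_vx_one (s : Ω) (w : Fin 3 → Ω) : ∑ ε, vx s w ε = s := by
  have h := sum_vx s w 1
  simp only [pow_one, Fin.prod_univ_three] at h
  rw [h]
  ring

theorem Cu.s_ne (h : Cu p Q s w) : s ≠ 0 := by
  rintro rfl
  have := h.inj' (a₁ := 0) (a₂ := 1) (by simp [vx])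
  exact absurd (congrFun this 0) (by simp)

theorem Cu.mu (h : Cu p Q s w) :
    Function.Injective fun ε : κ => (∏ i, (1 + sg Ω (ε i) * w i)) ^ 2 := fun a b e =>
  h.inj (by simp only [vx, mul_pow] at e ⊢; rw [e])

theorem Cu.w_ne (h : Cu p Q s w) (i : Fin 3) : w i ≠ 0 := fun h0 =>
  CmCubeB_one (μ := fun i a => 1 + sg Ω a * w i) h.mu i (by simp [h0])

theorem Cu.sq_inj (h : Cu p Q s w) : Function.Injective fun i => w i ^ 2 := by
  intro i k e
  by_contra hne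
  rcases sq_eq_sq_iff_eq_or_eq_neg.1 e with e | e
  · refine CmCubeB_two (μ := fun i a => 1 + sg Ω a * w i) h.mu hne 1 0 ?_
    simp only [sg_zero, sg_one, e]
    ring
  · refine CmCubeB_two (μ := fun i a => 1 + sg Ω a * w i) h.mu hne 0 1 ?_
    simp only [sg_zero, sg_one, e]
    ring

/-- The six faces are distinct. -/
theorem Cu.face_inj (h : Cu p Q s w) :
    Function.Injective fun q : Fin 3 × Fin 2 => sg Ω q.2 * w q.1 := by
  rintro ⟨i, a⟩ ⟨k, b⟩ e
  simp only at e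
  have h1 : i = k := h.sq_inj (by
    have := congrArg (· ^ 2) e
    simpa only [mul_pow, sg_sq, one_mul] using this)
  subst h1
  have h2 := mul_right_cancel₀ (h.w_ne i) e
  have h3 : (-1 : Ω) ≠ 1 := by norm_num
  fin_cases a <;> fin_cases b
  · rfl
  · exact absurd h2 h3
  · exact absurd h2.symm h3
  · rfl

theorem Cu.s_eq (h : Cu p Q s w) (h' : Cu p Q s' w') : s = s' := by
  obtain ⟨π, hπ⟩ := h.perm h'
  rw [← sum_vx_one s w, ← sum_vx_one s' w', ← π.sum_comp (vx s' w')]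
  exact Finset.sum_congr rfl fun ε _ => (hπ ε).symm

theorem Cu.sq_mem (h : Cu p Q s w) (h' : Cu p Q s' w') (i : Fin 3) : ∃ k, w' k ^ 2 = w i ^ 2 := by
  obtain rfl := h.s_eq h'
  obtain ⟨π, hπ⟩ := h.perm h'
  have h0 : s / 8 ≠ 0 := div_ne_zero h.s_ne (by norm_num)
  have key : ∀ k : ℕ, ∏ i, ((1 - w i) ^ k + (1 + w i) ^ k) =
      ∏ i, ((1 - w' i) ^ k + (1 + w' i) ^ k) := fun k => by
    refine mul_left_cancel₀ (pow_ne_zero k h0) ?_
    rw [← sum_vx, ← sum_vx, ← π.sum_comp fun ε => vx s w' ε ^ k]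
    exact Finset.sum_congr rfl fun ε _ => by rw [hπ]
  have k1 := mul_left_cancel₀ (pow_ne_zero 2 h.s_ne) (h.nrm.trans h'.nrm.symm)
  have k2 := key 2
  have k3 := key 3
  have k4 : ∀ y : Ω, ∏ k, (w' k ^ 2 - y) = ∏ k, (w k ^ 2 - y) := by
    intro y
    simp only [Fin.prod_univ_three] at k1 k2 k3 ⊢
    have e2 : w 0 ^ 2 * w 1 ^ 2 + w 0 ^ 2 * w 2 ^ 2 + w 1 ^ 2 * w 2 ^ 2 =
        w' 0 ^ 2 * w' 1 ^ 2 + w' 0 ^ 2 * w' 2 ^ 2 + w' 1 ^ 2 * w' 2 ^ 2 := by
      linear_combination (1 / 2 : Ω) * k1 + (1 / 16 : Ω) * k2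
    have e3 : w 0 ^ 2 * w 1 ^ 2 * w 2 ^ 2 = w' 0 ^ 2 * w' 1 ^ 2 * w' 2 ^ 2 := by
      linear_combination (1 / 192 : Ω) * k3 - (1 / 64 : Ω) * k2 - (1 / 4 : Ω) * e2
    have e1 : w 0 ^ 2 + w 1 ^ 2 + w 2 ^ 2 = w' 0 ^ 2 + w' 1 ^ 2 + w' 2 ^ 2 := by
      linear_combination (1 / 8 : Ω) * k2 - e2 - e3
    linear_combination y * e2 - e3 - y ^ 2 * e1
  have k5 := k4 (w i ^ 2)
  rw [Finset.prod_eq_zero (f := fun k => w k ^ 2 - w i ^ 2) (Finset.mem_univ i) (sub_self _),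
    Finset.prod_eq_zero_iff] at k5
  obtain ⟨k, -, hk⟩ := k5
  exact ⟨k, sub_eq_zero.1 hk⟩

omit [CharZero Ω] in
theorem exists_sg {x y : Ω} (h : x ^ 2 = y ^ 2) (a : Fin 2) : ∃ b, sg Ω b * x = sg Ω a * y := by
  have h1 : x ^ 2 = (sg Ω a * y) ^ 2 := by rw [mul_pow, sg_sq, one_mul, h]
  rcases sq_eq_sq_iff_eq_or_eq_neg.1 h1 with e | e
  · exact ⟨1, by rw [sg_one, one_mul, e]⟩
  · exact ⟨0, by rw [sg_zero, e, neg_one_mul, neg_neg]⟩

theorem Cu.face_mem (h : Cu p Q s w) (h' : Cu p Q s' w') (i : Fin 3) (a : Fin 2) :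
    ∃ k b, sg Ω b * w' k = sg Ω a * w i := by
  obtain ⟨k, hk⟩ := h.sq_mem h' i
  exact ⟨k, exists_sg hk a⟩

/-- The faces through a vertex depend only on the polynomial and the vertex. -/
theorem Cu.rigid (h : Cu p Q s w) (h' : Cu p Q s' w') {ε ε' : κ} (e : vx s w ε = vx s' w' ε')
    {M : Type} [CommMonoid M] (D : Ω → M) :
    ∏ i, D (sg Ω (ε i) * w i) = ∏ i, D (sg Ω (ε' i) * w' i) := by
  choose τ hτ using h.sq_mem h'
  have hi : Function.Injective τ := fun a b e => h.sq_inj (by simp only [← hτ, e])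
  let t : Fin 3 ≃ Fin 3 := Equiv.ofBijective τ (Finite.injective_iff_bijective.1 hi)
  choose b hb using fun i => exists_sg (hτ i) (ε i)
  have h1 : ∀ {N : Type} [CommMonoid N] (G : Ω → N),
      ∏ i, G (sg Ω (ε i) * w i) = ∏ i, G (sg Ω (b (t.symm i)) * w' i) := by
    intro N _ G
    rw [← t.prod_comp fun i => G (sg Ω (b (t.symm i)) * w' i)]
    exact Finset.prod_congr rfl fun i _ => by rw [t.symm_apply_apply, ← hb]; rfl
  have h2 : ε' = fun i => b (t.symm i) := by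
    refine h'.inj' ?_
    rw [← e, vx, vx, h.s_eq h', h1 fun x => 1 + x]
  rw [h2]
  exact h1 D

theorem vx_update (s : Ω) (w : Fin 3 → Ω) (ε : κ) (i : Fin 3) (a : Fin 2) :
    vx s w (Function.update ε i a) =
      (1 + sg Ω a * w i) * (s / 8 * ∏ k ∈ Finset.univ.erase i, (1 + sg Ω (ε k) * w k)) := by
  rw [vx, ← Finset.mul_prod_erase _ _ (Finset.mem_univ i), Function.update_self, mul_left_comm]
  congr 2
  exact Finset.prod_congr rfl fun k hk => by rw [Function.update_of_ne (Finset.ne_of_mem_erase hk)]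

/-- A cube over any field comes from a cube over the algebraic numbers. -/
theorem Cu.desc (j : Qb →+* Ω) {Q₀ : Polynomial Qb} (h : Cu p (Q₀.map j) s w) :
    ∃ s₀ w₀, Cu p Q₀ s₀ w₀ ∧ j s₀ = s ∧ ∀ i, j (w₀ i) = w i := by
  have h1 : ∀ ε, vx s w ε ∈ j.fieldRange := fun ε => by
    have h0 : Q₀.map j ≠ 0 := h.monic.ne_zero
    have h2 := (mem_roots h0).2 (h.root ε)
    rw [(IsAlgClosed.splits Q₀).roots_map j, Multiset.mem_map] at h2
    obtain ⟨a, -, ha⟩ := h2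
    exact ⟨a, ha⟩
  have h2 : s ∈ j.fieldRange := by
    rw [← sum_vx_one s w]
    exact sum_mem fun ε _ => h1 ε
  have h3 : ∀ i, w i ∈ j.fieldRange := fun i => by
    have h4 : vx s w (Function.update 0 i 1) + vx s w (Function.update 0 i 0) ≠ 0 := fun h0 => by
      have h5 := h.inj (a₁ := Function.update 0 i 1) (a₂ := Function.update 0 i 0)
        (by simp only [eq_neg_of_add_eq_zero_left h0, neg_sq])
      simpa using congrFun h5 i
    have h5 : w i = (vx s w (Function.update 0 i 1) - vx s w (Function.update 0 i 0)) /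
        (vx s w (Function.update 0 i 1) + vx s w (Function.update 0 i 0)) := by
      rw [eq_div_iff h4, vx_update, vx_update, sg_zero, sg_one]
      ring
    rw [h5]
    exact div_mem (sub_mem (h1 _) (h1 _)) (add_mem (h1 _) (h1 _))
  obtain ⟨s₀, rfl⟩ := h2
  choose w₀ hw using h3
  obtain rfl : w = fun i => j (w₀ i) := funext fun i => (hw i).symm
  exact ⟨s₀, w₀, (cu_map_iff j).1 h, rfl, fun _ => rfl⟩

/-- The cube of a tensor product. -/
theorem cu_of_T [IsAlgClosed Ω] (f : Fr ν Ω) (h : Fin 3 → M2 Ω) (hd : ∏ i, (h i).det = p)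
    (h2 : Sp2 (f.T h).charpoly) : ∃ w, Cu p (f.T h).charpoly (∏ i, (h i).trace) w ∧
      ∀ i, w i ^ 2 * (h i).trace ^ 2 = (h i).trace ^ 2 - 4 * (h i).det := by
  have ht := cube_trace f h h2
  have h1 : ∀ i, ∃ y : Ω, y ^ 2 * (h i).trace ^ 2 = (h i).trace ^ 2 - 4 * (h i).det := fun i => by
    obtain ⟨y, hy⟩ := IsAlgClosed.exists_pow_nat_eq
      (((h i).trace ^ 2 - 4 * (h i).det) / (h i).trace ^ 2) (n := 2) two_pos
    exact ⟨y, by rw [hy, div_mul_cancel₀ _ (pow_ne_zero 2 (ht i))]⟩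
  choose w hw using h1
  have h3 := charpoly_T f h (fun i a => (h i).trace / 2 * (1 + sg Ω a * w i))
    (fun i => by rw [sg_zero, sg_one]; ring)
    (fun i => by rw [sg_zero, sg_one]; linear_combination (-1 / 4 : Ω) * hw i)
  have h4 : ∀ ε : κ, ∏ i, (h i).trace / 2 * (1 + sg Ω (ε i) * w i) =
      vx (∏ i, (h i).trace) w ε := fun ε => by
    simp only [vx, Fin.prod_univ_three]
    ring
  simp only [h4] at h3
  refine ⟨w, ⟨h3, ?_, (sp2_iff _).1 (h3 ▸ h2)⟩, hw⟩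
  rw [← hd, ← Finset.prod_pow, ← Finset.prod_mul_distrib,
    Finset.prod_congr rfl fun i _ => show (h i).trace ^ 2 * (1 - w i ^ 2) = 4 * (h i).det by
      linear_combination (-1 : Ω) * hw i]
  simp only [Fin.prod_univ_three]
  ring

end MG.CB
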