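import Pool.Agent.Lib.MP_33b3f9_ag.M4.NTIdc

/-!
Ray classes by the box principle: short elements of ideals and few classes.
-/

set_option autoImplicit false

namespace MG.CB

open Finset NumberField Module

variable {E : Type} [Field E] [NumberField E]

theorem exists_inj {α : Type} [Finite α] {k : ℕ} (h : Nat.card α ≤ k) :
    ∃ f : α → Fin k, Function.Injective f :=
  ⟨Fin.castLE h ∘ Finite.equivFin α, (Fin.castLE_injective h).comp (Finite.equivFin α).injective⟩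

/-- A short nonzero element of an ideal. -/
theorem box {ι : Type} [Fintype ι] (hι : Fintype.card ι = finrank ℚ E) (ω : ι → 𝓞 E)
    (hω : LinearIndependent ℤ ω) {H : ℝ} (hH : ∀ (σ : E →+* ℂ) i, ‖σ (ω i : E)‖ ≤ H)
    {A : Ideal (𝓞 E)} (hA : A ≠ ⊥) :
    ∃ g ∈ A, g ≠ 0 ∧ ∀ σ : E →+* ℂ,
      ‖σ (g : E)‖ ^ finrank ℚ E ≤ (finrank ℚ E * H) ^ finrank ℚ E * Ideal.absNorm A := by
  classical
  set n := finrank ℚ E with hn
  have hn0 : n ≠ 0 := finrank_pos.ne'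
  set k := Nat.nthRoot n (Ideal.absNorm A) with hk
  have hk1 : k ^ n ≤ Ideal.absNorm A := Nat.pow_nthRoot_le (Or.inl hn0)
  have hk2 : Ideal.absNorm A < (k + 1) ^ n := Nat.lt_pow_nthRoot_add_one hn0 _
  have hfin : Finite (𝓞 E ⧸ A) := Ideal.finiteQuotientOfFreeOfNeBot A hA
  have := Fintype.ofFinite (𝓞 E ⧸ A)
  let v : (ι → Fin (k + 1)) → 𝓞 E := fun c => ∑ i, ((c i : ℕ) : ℤ) • ω i
  obtain ⟨c, c', hne, he⟩ := Fintype.exists_ne_map_eq_of_card_lt
    (fun c => Ideal.Quotient.mk A (v c)) (by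
      rw [Fintype.card_fun, Fintype.card_fin, hι, ← Nat.card_eq_fintype_card,
        ← Submodule.cardQuot_apply, ← Ideal.absNorm_apply]
      exact hk2)
  have hv : v c - v c' = ∑ i, (((c i : ℕ) : ℤ) - ((c' i : ℕ) : ℤ)) • ω i := by
    simp only [v, sub_smul, sum_sub_distrib]
  refine ⟨v c - v c', Ideal.Quotient.eq.mp he, fun h0 => hne (funext fun i => ?_), fun σ => ?_⟩
  · have h1 := Fintype.linearIndependent_iff.mp hω _ (hv ▸ h0) i
    exact Fin.ext (by omega)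
  · have hH0 : 0 ≤ H := by
      obtain ⟨i⟩ : Nonempty ι := Fintype.card_pos_iff.mp (hι ▸ Nat.pos_of_ne_zero hn0)
      exact (norm_nonneg _).trans (hH σ i)
    have h1 : ‖σ ((v c - v c' : 𝓞 E) : E)‖ ≤ n * H * k := by
      rw [hv, RingOfIntegers.coe_eq_algebraMap, map_sum, map_sum]
      refine (norm_sum_le _ _).trans ((sum_le_card_nsmul _ _ (H * k) fun i _ => ?_).trans ?_)
      · rw [map_zsmul, map_zsmul, zsmul_eq_mul, norm_mul, mul_comm, Complex.norm_intCast]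
        refine mul_le_mul (hH σ i) ?_ (abs_nonneg _) hH0
        have h2 := (c i).is_lt
        have h3 := (c' i).is_lt
        have h4 : |((c i : ℕ) : ℤ) - ((c' i : ℕ) : ℤ)| ≤ (k : ℤ) := abs_le.mpr ⟨by omega, by omega⟩
        exact_mod_cast h4
      · rw [card_univ, hι, nsmul_eq_mul, mul_assoc]
    refine (pow_le_pow_left₀ (norm_nonneg _) h1 n).trans ?_
    rw [mul_pow]
    exact mul_le_mul_of_nonneg_left (by exact_mod_cast hk1) (by positivity)

/-- The number of nonzero ideals of bounded norm. -/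
theorem card_small (E : Type) [Field E] [NumberField E] (X : ℕ) :
    Finite {C : Ideal (𝓞 E) // C ≠ ⊥ ∧ Ideal.absNorm C ≤ X} ∧
      Nat.card {C : Ideal (𝓞 E) // C ≠ ⊥ ∧ Ideal.absNorm C ≤ X} ≤ X ^ (finrank ℚ E + 1) := by
  classical
  have hf : {C : Ideal (𝓞 E) | C ≠ ⊥ ∧ Ideal.absNorm C ≤ X}.Finite :=
    (Ideal.finite_setOfPred_absNorm_le (S := 𝓞 E) X).subset fun C hC => hC.2
  refine ⟨hf, ?_⟩
  have e : Nat.card {C : Ideal (𝓞 E) // C ≠ ⊥ ∧ Ideal.absNorm C ≤ X} = hf.toFinset.card :=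
    Nat.subtype_card _ fun C => by rw [Set.Finite.mem_toFinset]; rfl
  rw [e, pow_succ]
  refine (card_le_mul_card_image_of_maps_to (f := Ideal.absNorm) (t := Icc 1 X) (fun C hC => ?_)
    (X ^ finrank ℚ E) fun k hk => ?_).trans (by simp)
  · have h := (Set.Finite.mem_toFinset hf).mp hC
    exact mem_Icc.mpr ⟨Nat.pos_of_ne_zero fun h0 => h.1 (Ideal.absNorm_eq_zero_iff.mp h0), h.2⟩
  · obtain ⟨h1, h2⟩ := mem_Icc.mp hk
    have hk0 : k ≠ 0 := by omega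
    refine le_trans ?_ ((M4.NT.idc E hk0).trans (Nat.pow_le_pow_left
      ((Nat.card_divisors_le_self k).trans h2) _))
    have : Finite {I : Ideal (𝓞 E) // Ideal.absNorm I = k} :=
      Ideal.finite_setOfPred_absNorm_eq (S := 𝓞 E) k
    rw [← Nat.card_eq_finsetCard]
    exact Nat.card_le_card_of_injective
      (fun C => (⟨C.1, (mem_filter.mp C.2).2⟩ : {I : Ideal (𝓞 E) // Ideal.absNorm I = k}))
      fun C C' h => Subtype.ext (Subtype.mk.inj h)

/-- Ray classes: every nonzero ideal `A` has a short element `g A`; there are few classes, and in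
one class `g A / g A'` generates `A / A'` and is `1` modulo `m`. -/
theorem ray {ι : Type} [Fintype ι] (hι : Fintype.card ι = finrank ℚ E) (ω : ι → 𝓞 E)
    (hω : LinearIndependent ℤ ω) {H : ℝ} (hH : ∀ (σ : E →+* ℂ) i, ‖σ (ω i : E)‖ ≤ H)
    {m : ℕ} (hm : m ≠ 0) :
    ∃ (h : ℕ) (cl : Ideal (𝓞 E) → Fin h) (g : Ideal (𝓞 E) → 𝓞 E),
      (h : ℝ) ≤ (m : ℝ) ^ finrank ℚ E * (finrank ℚ E * H) ^ (finrank ℚ E * (finrank ℚ E + 2)) ∧
      (∀ A, A ≠ ⊥ → g A ∈ A ∧ g A ≠ 0 ∧ ∀ σ : E →+* ℂ,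
        ‖σ (g A : E)‖ ^ finrank ℚ E ≤ (finrank ℚ E * H) ^ finrank ℚ E * Ideal.absNorm A) ∧
      ∀ A A', A ≠ ⊥ → A' ≠ ⊥ → cl A = cl A' → ∀ a' ∈ A',
        (∃ a ∈ A, g A * a' = g A' * a) ∧ ∃ y, (g A - g A') * a' = m * g A' * y := by
  classical
  set n := finrank ℚ E with hn
  have hn0 : n ≠ 0 := finrank_pos.ne'
  have hH0 : 0 ≤ H := by
    obtain ⟨i⟩ : Nonempty ι := Fintype.card_pos_iff.mp (hι ▸ Nat.pos_of_ne_zero hn0)
    obtain ⟨σ⟩ : Nonempty (E →+* ℂ) := inferInstance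
    exact (norm_nonneg _).trans (hH σ i)
  set X := ⌊(n * H) ^ n⌋₊ with hX
  have hX1 : (X : ℝ) ≤ (n * H) ^ n := Nat.floor_le (by positivity)
  have h1 : ∀ A : {A : Ideal (𝓞 E) // A ≠ ⊥}, ∃ (g : 𝓞 E)
      (C : {C : Ideal (𝓞 E) // C ≠ ⊥ ∧ Ideal.absNorm C ≤ X}), (g ∈ A.1 ∧ g ≠ 0 ∧ ∀ σ : E →+* ℂ,
        ‖σ (g : E)‖ ^ n ≤ (n * H) ^ n * Ideal.absNorm A.1) ∧ Ideal.span {g} = A.1 * C.1 := by
    intro A
    obtain ⟨g, hg1, hg2, hg3⟩ := box hι ω hω hH A.2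
    obtain ⟨C, hC⟩ := Ideal.dvd_span_singleton.mpr hg1
    have hC0 : C ≠ ⊥ := by
      rintro rfl
      exact hg2 (by simpa using hC)
    refine ⟨g, ⟨C, hC0, Nat.le_floor ?_⟩, ⟨hg1, hg2, hg3⟩, hC⟩
    have hA0 : (0 : ℝ) < Ideal.absNorm A.1 := by
      exact_mod_cast Nat.pos_of_ne_zero fun h0 => A.2 (Ideal.absNorm_eq_zero_iff.mp h0)
    have h2 := congrArg Ideal.absNorm hC
    rw [map_mul, Ideal.absNorm_span_singleton] at h2
    have h3 : (((Algebra.norm ℤ g).natAbs : ℕ) : ℝ) ^ n ≤ ((n * H) ^ n * Ideal.absNorm A.1) ^ n := by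
      rw [M4.NT.abs_norm_eq, ← prod_pow]
      conv_rhs => rw [hn, ← Embeddings.card E ℂ, ← card_univ, ← prod_const]
      exact prod_le_prod (fun _ _ => by positivity) fun σ _ => by
        simpa only [card_univ, Embeddings.card] using hg3 σ
    have h4 := le_of_pow_le_pow_left₀ hn0 (by positivity) h3
    rw [h2, Nat.cast_mul, mul_comm] at h4
    exact le_of_mul_le_mul_right h4 hA0
  choose g C hg hC using h1
  obtain ⟨hf, hc⟩ := card_small E X
  obtain ⟨idx, hidx⟩ := exists_inj hc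
  have h2 : ∀ C : {C : Ideal (𝓞 E) // C ≠ ⊥ ∧ Ideal.absNorm C ≤ X},
      ∃ f : 𝓞 E ⧸ (Ideal.span {(m : 𝓞 E)} * C.1) → Fin (m ^ n * X), Function.Injective f := by
    intro C
    have hm0 : Ideal.span {(m : 𝓞 E)} ≠ ⊥ := by simpa using hm
    have := Ideal.finiteQuotientOfFreeOfNeBot _ (mul_ne_zero hm0 C.2.1)
    refine exists_inj ?_
    rw [← Submodule.cardQuot_apply, ← Ideal.absNorm_apply, map_mul, Ideal.absNorm_span_natCast,
      RingOfIntegers.rank]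
    exact Nat.mul_le_mul_left _ C.2.2
  choose res hres using h2
  let pr : Ideal (𝓞 E) → {A : Ideal (𝓞 E) // A ≠ ⊥} := fun A =>
    if h : A = ⊥ then ⟨⊤, top_ne_bot⟩ else ⟨A, h⟩
  have hpr : ∀ A (h : A ≠ ⊥), pr A = ⟨A, h⟩ := fun A h => dif_neg h
  refine ⟨X ^ (n + 1) * (m ^ n * X), fun A => finProdFinEquiv (idx (C (pr A)),
    res (C (pr A)) (Ideal.Quotient.mk _ (g (pr A)))), fun A => g (pr A), ?_, fun A hA => ?_,
    fun A A' hA hA' he a' ha' => ?_⟩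
  · have e : ((X ^ (n + 1) * (m ^ n * X) : ℕ) : ℝ) = (m : ℝ) ^ n * (X : ℝ) ^ (n + 2) := by
      push_cast
      ring
    rw [e, pow_mul]
    exact mul_le_mul_of_nonneg_left (pow_le_pow_left₀ (by positivity) hX1 _) (by positivity)
  · simp only [hpr A hA]
    exact hg ⟨A, hA⟩
  · have h3 := finProdFinEquiv.injective he
    have h4 := hidx (congrArg Prod.fst h3)
    have h5 := congrArg Prod.snd h3
    have h6 : Ideal.span {g (pr A)} = A * (C (pr A)).1 := by rw [hC, hpr A hA]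
    have h7 : Ideal.span {g (pr A')} = A' * (C (pr A')).1 := by rw [hC, hpr A' hA']
    simp only at h4 h5 ⊢
    generalize C (pr A) = C1 at h4 h5 h6
    subst h4
    have h8 := Ideal.Quotient.eq.mp (hres _ h5)
    constructor
    · have h9 : g (pr A) * a' ∈ Ideal.span {g (pr A')} * A := by
        rw [h7, mul_comm A', mul_assoc, mul_comm A', ← mul_assoc, mul_comm _ A, ← h6]
        exact Ideal.mul_mem_mul (Ideal.mem_span_singleton_self _) ha'
      obtain ⟨a, ha, h10⟩ := Ideal.mem_span_singleton_mul.mp h9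
      exact ⟨a, ha, h10.symm⟩
    · have h9 := Ideal.mul_mem_mul h8 ha'
      rw [mul_assoc, mul_comm _ A', ← h7, Ideal.span_singleton_mul_span_singleton,
        Ideal.mem_span_singleton] at h9
      exact h9

omit [NumberField E] in
/-- The valuation of the quotient of two generators in one class. -/
theorem ray_val {Ω : Type} [NormedField Ω] (ψ : E →+* Ω) {A A' : Ideal (𝓞 E)} {g g' : 𝓞 E}
    (h : ∀ a' ∈ A', ∃ a ∈ A, g * a' = g' * a) (h' : ∀ a ∈ A, ∃ a' ∈ A', g' * a = g * a')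
    {w w' : ℝ} (hw : ∀ z ∈ A, ‖ψ (z : E)‖ ≤ w) (hw1 : ∃ z ∈ A, ‖ψ (z : E)‖ = w)
    (hw' : ∀ z ∈ A', ‖ψ (z : E)‖ ≤ w') (hw1' : ∃ z ∈ A', ‖ψ (z : E)‖ = w') :
    ‖ψ (g : E)‖ * w' = ‖ψ (g' : E)‖ * w := by
  have key : ∀ {B B' : Ideal (𝓞 E)} {x x' : 𝓞 E} {u u' : ℝ}, (∀ b' ∈ B', ∃ b ∈ B, x * b' = x' * b) →
      (∀ z ∈ B, ‖ψ (z : E)‖ ≤ u) → (∃ z ∈ B', ‖ψ (z : E)‖ = u') →
      ‖ψ (x : E)‖ * u' ≤ ‖ψ (x' : E)‖ * u := by
    rintro B B' x x' u u' h1 h2 ⟨z, hz, rfl⟩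
    obtain ⟨b, hb, h3⟩ := h1 z hz
    have h4 : (x : E) * z = x' * b := by exact_mod_cast congrArg (fun t : 𝓞 E => (t : E)) h3
    rw [← norm_mul, ← map_mul, h4, map_mul, norm_mul]
    exact mul_le_mul_of_nonneg_left (h2 b hb) (norm_nonneg _)
  exact le_antisymm (key h hw hw1') (key h' hw' hw1)

omit [NumberField E] in
/-- The quotient of two generators in one class is `1 + m y / M` for every integer `M` of `A'`. -/
theorem ray_cong {g g' y : 𝓞 E} {m M : ℕ} [CharZero E] (hg : g' ≠ 0) (hM : M ≠ 0)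
    (h : (g - g') * M = m * g' * y) : (g : E) / g' = 1 + m * y / M := by
  have h1 : ((g : E) - g') * M = m * g' * y := by
    exact_mod_cast congrArg (fun t : 𝓞 E => (t : E)) h
  have h2 : (g' : E) ≠ 0 := fun h0 => hg (RingOfIntegers.coe_eq_zero_iff.mp h0)
  have h3 : (M : E) ≠ 0 := Nat.cast_ne_zero.mpr hM
  field_simp
  linear_combination h1

end MG.CB
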