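import Pool.Agent.Lib.MP_33b3f9_ag.M4.CmVal
import Pool.Agent.Lib.MP_33b3f9_ag.MG.CB.Ray

/-!
Ideals that are products of primes of degree one, and their ray classes.
-/

set_option autoImplicit false
set_option linter.unusedSectionVars false

noncomputable section

namespace MG.CB

open NumberField M4 M4.CM Module

variable {E : Type} [Field E] [NumberField E]

/-- A rational embedding is the only embedding over its prime. -/
theorem sep_place {l : ℕ} [Fact l.Prime] {φ ψ : E →+* Om l} (h : ∀ x, φ x ∈ NT.Qp l)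
    (hne : ψ ≠ φ) : ∃ y : 𝓞 E, ‖φ y‖ < 1 ∧ ‖ψ y‖ = 1 := by
  by_contra hc
  push Not at hc
  have h1 : pr φ (int_le φ) = pr ψ (int_le ψ) :=
    ((pr_prime φ).isMaximal (cmVal_ne φ)).eq_of_le (pr_prime ψ).ne_top fun y hy =>
      lt_of_le_of_ne (int_le ψ y) (hc y hy)
  obtain ⟨ρ, a1, a2, a3⟩ := cmVal_key φ
  obtain ⟨ρ', b1, b2, b3⟩ := cmVal_key ψ
  have hl : (l : 𝓞 E) ≠ 0 := Nat.cast_ne_zero.2 (Fact.out : l.Prime).ne_zero
  have h2 : ρ = ρ' := by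
    have c1 := a3 _ hl
    have c2 := b3 _ hl
    rw [RingOfIntegers.coe_eq_algebraMap, map_natCast, map_natCast] at c1 c2
    rw [← h1] at c2
    refine (pow_left_inj₀ a1.le b1.le fun h0 => ?_).1 (c1.symm.trans c2)
    rw [h0, pow_zero, norm_l, inv_eq_one] at c1
    exact (Fact.out : l.Prime).ne_one (by exact_mod_cast c1)
  have h3 : ∀ a : 𝓞 E, ‖ψ a‖ = ‖φ a‖ := fun a => by
    by_cases ha : a = 0
    · simp [ha]
    · rw [a3 a ha, b3 a ha, h1, h2]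
  refine hne (IsLocalization.ringHom_ext (nonZeroDivisors (𝓞 E)) (RingHom.ext fun z => ?_))
  obtain ⟨x, hx⟩ := exists_toOm (h z) (int_le φ z)
  refine eq_of_norm_sub_le_zero (le_of_forall_pos_le_add fun ε hε => ?_)
  obtain ⟨n, hn⟩ := (PadicInt.denseRange_intCast (p := l)).exists_dist_lt x hε
  have h4 : ‖φ z - n‖ ≤ ε := by
    rw [← hx, ← map_intCast (toOm l), ← map_sub, norm_toOm, ← dist_eq_norm]
    exact hn.le
  have h5 := h3 (z - n)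
  simp only [RingOfIntegers.coe_eq_algebraMap, map_sub, map_intCast] at h4 h5
  have h6 := cmnorm_add (h5.le.trans h4) ((norm_sub_rev _ _).le.trans h4)
  rw [zero_add]
  simpa using h6

/-- A family of embeddings over the prime divisors of `M`. -/
structure Pl (E : Type) [Field E] where
  /-- the level -/
  M : ℕ
  /-- the embeddings -/
  T : ∀ (l : ℕ) [Fact l.Prime], Finset (E →+* Om l)

/-- The product of the primes of the family. -/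
def Pl.idl (x : Pl E) : Ideal (𝓞 E) where
  carrier := {z | ∀ (l : ℕ) [Fact l.Prime], l ∣ x.M → ∀ φ ∈ x.T l, ‖φ z‖ < 1}
  add_mem' := fun ha hb l _ h φ hφ =>
    (pr φ (int_le φ)).add_mem (ha l h φ hφ) (hb l h φ hφ)
  zero_mem' := fun _ _ _ φ _ => (pr φ (int_le φ)).zero_mem
  smul_mem' := fun c _ hz l _ h φ hφ => (pr φ (int_le φ)).mul_mem_left c (hz l h φ hφ)

open Classical in
/-- The norm of the ideal at an embedding. -/
def Pl.wt (x : Pl E) {l : ℕ} [Fact l.Prime] (ψ : E →+* Om l) : ℝ :=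
  if l ∣ x.M ∧ ψ ∈ x.T l then (l : ℝ)⁻¹ else 1

/-- At most `r` rational embeddings over each prime. -/
def Pl.Ok (x : Pl E) (r : ℕ) : Prop :=
  Squarefree x.M ∧ ∀ (l : ℕ) [Fact l.Prime], l ∣ x.M →
    (x.T l).card ≤ r ∧ ∀ φ ∈ x.T l, ∀ y, φ y ∈ NT.Qp l

theorem nat_lt {l n : ℕ} [Fact l.Prime] (h : l ∣ n) (φ : E →+* Om l) :
    ‖φ ((n : 𝓞 E) : E)‖ < 1 := by
  rw [RingOfIntegers.coe_eq_algebraMap, map_natCast, map_natCast, ← Int.cast_natCast]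
  exact norm_int_lt_one (Int.natCast_dvd_natCast.2 h)

theorem Pl.M_mem (x : Pl E) : (x.M : 𝓞 E) ∈ x.idl := fun _ _ h φ _ => nat_lt h φ

variable {x : Pl E} {r : ℕ}

theorem Pl.idl_ne (hx : x.Ok r) : x.idl ≠ ⊥ := fun h =>
  hx.1.ne_zero (by simpa [h] using x.M_mem)

theorem Pl.wt_le (hx : x.Ok r) {l : ℕ} [Fact l.Prime] (ψ : E →+* Om l) {z : 𝓞 E}
    (hz : z ∈ x.idl) : ‖ψ z‖ ≤ x.wt ψ := by
  unfold Pl.wt
  split_ifs with h
  · exact le_inv_of_lt ((hx.2 l h.1).2 ψ h.2 z) (hz l h.1 ψ h.2)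
  · exact int_le ψ z

theorem Pl.wt_att (hx : x.Ok r) {l : ℕ} [Fact l.Prime] (ψ : E →+* Om l) :
    ∃ z ∈ x.idl, ‖ψ z‖ = x.wt ψ := by
  have e : ∀ n : ℕ, ψ ((n : 𝓞 E) : E) = n := fun n => by
    rw [RingOfIntegers.coe_eq_algebraMap, map_natCast, map_natCast]
  unfold Pl.wt
  by_cases h : l ∣ x.M
  swap
  · exact ⟨_, x.M_mem, by rw [if_neg fun h1 => h h1.1, e, norm_nat_eq_one h]⟩
  by_cases h' : ψ ∈ x.T l
  · exact ⟨_, x.M_mem, by rw [if_pos ⟨h, h'⟩, e, norm_sqfree hx.1 h]⟩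
  obtain ⟨c, hc⟩ := h
  have hc1 : ¬ l ∣ c := fun h1 =>
    (Fact.out : l.Prime).prime.not_isUnit (hx.1 l (hc ▸ mul_dvd_mul_left l h1))
  choose y hy1 hy2 using fun φ : x.T l => sep_place ((hx.2 l ⟨c, hc⟩).2 φ.1 φ.2)
    (ψ := ψ) fun h1 => h' (h1 ▸ φ.2)
  refine ⟨c * ∏ φ, y φ, fun l' _ h1 φ hφ => ?_, ?_⟩
  · by_cases h2 : l' = l
    · subst h2
      have h3 : y ⟨φ, hφ⟩ ∈ pr φ (int_le φ) := hy1 ⟨φ, hφ⟩
      have h4 : y ⟨φ, hφ⟩ ∣ ∏ φ, y φ := Finset.dvd_prod_of_mem _ (Finset.mem_univ _)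
      exact (pr φ (int_le φ)).mul_mem_left _ (Ideal.mem_of_dvd _ h4 h3)
    · refine (pr φ (int_le φ)).mul_mem_right _ (nat_lt ?_ φ)
      refine (((Fact.out : l'.Prime).dvd_mul).1 (hc ▸ h1)).resolve_left fun h3 => h2 ?_
      exact (Nat.prime_dvd_prime_iff_eq Fact.out Fact.out).1 h3
  · rw [if_neg fun h1 => h' h1.2, RingOfIntegers.coe_eq_algebraMap, map_mul, map_mul, map_natCast,
      map_natCast, norm_mul, norm_nat_eq_one hc1, one_mul, map_prod, map_prod, norm_prod]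
    exact Finset.prod_eq_one fun φ _ => hy2 φ

theorem Pl.norm_le (hx : x.Ok r) : Ideal.absNorm x.idl ≤ x.M ^ r := by
  let I : ℕ → Ideal (𝓞 E) := fun l =>
    if h : l.Prime then (haveI := Fact.mk h; ∏ φ ∈ x.T l, pr φ (int_le φ)) else ⊤
  have hI : ∀ (l : ℕ) [Fact l.Prime], I l = ∏ φ ∈ x.T l, pr φ (int_le φ) := fun l h =>
    dif_pos h.out
  have h1 : ∏ l ∈ x.M.primeFactors, I l ≤ x.idl := fun z hz l _ h φ hφ => by
    have h2 : pr φ (int_le φ) ∣ ∏ l ∈ x.M.primeFactors, I l :=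
      (hI l ▸ Finset.dvd_prod_of_mem _ hφ : pr φ (int_le φ) ∣ I l).trans
        (Finset.dvd_prod_of_mem I (Nat.mem_primeFactors.2 ⟨Fact.out, h, hx.1.ne_zero⟩))
    exact Ideal.le_of_dvd h2 hz
  have h2 : ∀ l ∈ x.M.primeFactors, Ideal.absNorm (I l) ∣ l ^ r := fun l hl => by
    have := Fact.mk (Nat.prime_of_mem_primeFactors hl)
    obtain ⟨h3, h4⟩ := hx.2 l (Nat.dvd_of_mem_primeFactors hl)
    rw [hI, map_prod, Finset.prod_congr rfl fun φ hφ => absNorm_pr φ (h4 φ hφ), Finset.prod_const]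
    exact pow_dvd_pow l h3
  refine Nat.le_of_dvd (pow_pos (Nat.pos_of_ne_zero hx.1.ne_zero) r)
    ((Ideal.absNorm_dvd_absNorm_of_le h1).trans ?_)
  rw [map_prod]
  conv_rhs => rw [← Nat.prod_primeFactors_of_squarefree hx.1, ← Finset.prod_pow]
  exact Finset.prod_dvd_prod_of_dvd _ _ h2

/-- Ray classes of families of places. -/
theorem ray_pl {ι : Type} [Fintype ι] (hι : Fintype.card ι = finrank ℚ E) (ω : ι → 𝓞 E)
    (hω : LinearIndependent ℤ ω) {H : ℝ} (hH : ∀ (σ : E →+* ℂ) i, ‖σ (ω i : E)‖ ≤ H)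
    {m : ℕ} (hm : m ≠ 0) (r : ℕ) :
    ∃ (h : ℕ) (cl : Pl E → Fin h) (g : Pl E → 𝓞 E),
      (h : ℝ) ≤ (m : ℝ) ^ finrank ℚ E * (finrank ℚ E * H) ^ (finrank ℚ E * (finrank ℚ E + 2)) ∧
      (∀ x : Pl E, x.Ok r → g x ≠ 0 ∧
        (∀ (l : ℕ) [Fact l.Prime] (ψ : E →+* Om l), ‖ψ (g x)‖ ≤ x.wt ψ) ∧ ∀ σ : E →+* ℂ,
          ‖σ (g x : E)‖ ^ finrank ℚ E ≤ (finrank ℚ E * H) ^ finrank ℚ E * (x.M : ℝ) ^ r) ∧
      ∀ x x' : Pl E, x.Ok r → x'.Ok r → cl x = cl x' →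
        (∀ (l : ℕ) [Fact l.Prime] (ψ : E →+* Om l), ‖ψ (g x / g x')‖ * x'.wt ψ = x.wt ψ) ∧
        ∃ y : 𝓞 E, (g x : E) / g x' = 1 + m * y / x'.M := by
  obtain ⟨h, cl, g, h1, h2, h3⟩ := ray hι ω hω hH hm
  have hH0 : 0 ≤ H := by
    obtain ⟨i⟩ : Nonempty ι := Fintype.card_pos_iff.mp (hι ▸ finrank_pos)
    obtain ⟨σ⟩ : Nonempty (E →+* ℂ) := inferInstance
    exact (norm_nonneg _).trans (hH σ i)
  refine ⟨h, fun x => cl x.idl, fun x => g x.idl, h1, fun x hx => ?_, fun x x' hx hx' e => ?_⟩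
  · obtain ⟨a1, a2, a3⟩ := h2 _ (Pl.idl_ne hx)
    refine ⟨a2, fun l _ ψ => Pl.wt_le hx ψ a1, fun σ => (a3 σ).trans ?_⟩
    exact mul_le_mul_of_nonneg_left (by exact_mod_cast Pl.norm_le hx) (by positivity)
  · have a1 := h3 _ _ (Pl.idl_ne hx) (Pl.idl_ne hx') e
    have a2 := h3 _ _ (Pl.idl_ne hx') (Pl.idl_ne hx) e.symm
    have a3 := (h2 _ (Pl.idl_ne hx')).2.1
    refine ⟨fun l _ ψ => ?_, ?_⟩
    · have a4 := ray_val ψ (fun a ha => (a1 a ha).1) (fun a ha => (a2 a ha).1)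
        (fun z hz => Pl.wt_le hx ψ hz) (Pl.wt_att hx ψ) (fun z hz => Pl.wt_le hx' ψ hz)
        (Pl.wt_att hx' ψ)
      have a5 : ‖ψ (g x'.idl)‖ ≠ 0 := by simpa using a3
      rw [map_div₀, norm_div, div_mul_eq_mul_div, a4, mul_div_cancel_left₀ _ a5]
    · obtain ⟨y, hy⟩ := (a1 _ x'.M_mem).2
      exact ⟨y, ray_cong a3 hx'.1.ne_zero hy⟩

end MG.CB
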