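import Pool.Agent.Lib.MP_33b3f9_ag.MG.CB.NM
import Pool.Agent.Lib.MP_33b3f9_ag.MG.CB.Idl

/-!
The field of a face; the multiplier of the generators.
-/

set_option autoImplicit false
set_option linter.unusedSectionVars false

noncomputable section

namespace MG.CB

open NumberField M4 M4.CM Module Polynomial
open Pool.Agent.M4.Mx hiding sg

variable {F : Type} [Field F] [NumberField F]

theorem face_y {Ω : Type} [Field Ω] [IsAlgClosed Ω] [CharZero Ω] {p : ℕ} (hp : p ≠ 0)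
    {Q : Polynomial Ω} {s : Ω} {w : Fin 3 → Ω} (h : Cu p Q s w) (i : Fin 3) :
    ∃ ε ε', vx s w ε * vx s w ε' + p ≠ 0 ∧
      w i = (vx s w ε * vx s w ε' - p) / (vx s w ε * vx s w ε' + p) := by
  have h1 := vx_rev h (Function.update 1 i 0)
  have h2 : (fun k => (Function.update (1 : κ) i 0 k).rev) = Function.update (0 : κ) i 1 := by
    funext k
    by_cases hk : k = i
    · subst hk
      simp
    · simp [Function.update_of_ne hk]
  rw [h2] at h1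
  have h3 : vx s w (Function.update 1 i 1) * vx s w (Function.update 0 i 1) * (1 - w i) =
      p * (1 + w i) := by
    rw [← h1, vx_update s w 1, vx_update s w 1, sg_zero, sg_one]
    ring
  have h4 : vx s w (Function.update 1 i 1) * vx s w (Function.update 0 i 1) + p ≠ 0 := fun h0 => by
    have h5 : (p : Ω) * 2 = 0 := by linear_combination (1 - w i) * h0 - h3
    exact hp (by simpa using h5)
  exact ⟨_, _, h4, by rw [eq_div_iff h4]; linear_combination (-1 : Ω) * h3⟩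

theorem exists_face (F : Type) [Field F] [NumberField F] : ∃ B : ℝ, 1 ≤ B ∧
    ∀ (p : ℕ) (P : Polynomial F), p ≠ 0 → GC p P → ∀ (ι₁ : F →+* Qb) (s₁ : Qb) (w₁ : Fin 3 → Qb),
      Cu p (P.map ι₁) s₁ w₁ → ∀ i,
      ∃ (E : Type) (_ : Field E) (_ : NumberField E) (_ : Algebra F E) (φ₁ : E →+* Qb) (w₀ : E),
        φ₁.comp (algebraMap F E) = ι₁ ∧ φ₁ w₀ = w₁ i ∧ FD p P w₀ ∧
          Small E (B * (p : ℝ) ^ finrank ℚ E) := by
  obtain ⟨B, h1, h2⟩ := exists_E F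
  refine ⟨B, h1, fun p P hp G ι₁ s₁ w₁ h i => ?_⟩
  obtain ⟨ε, ε', h3, h4⟩ := face_y hp h i
  obtain ⟨E, _, _, _, φ₁, y, a1, a2, a3, a4⟩ := h2 ι₁ (vx s₁ w₁ ε * vx s₁ w₁ ε') p
    (by exact_mod_cast Nat.pos_of_ne_zero hp)
    ((G.root_int (h.root ε)).mul (G.root_int (h.root ε'))) fun j => by
      have h5 := cu_push h j
      refine le_of_sq_le_sq (le_of_eq ?_) (Nat.cast_nonneg p)
      rw [map_mul, vx_map, vx_map, norm_mul, mul_pow, G.weil _ _ (h5.root ε),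
        G.weil _ _ (h5.root ε'), sq]
  have a5 : y + p ≠ 0 := fun h0 => h3 (by rw [← a2, ← map_natCast φ₁, ← map_add, h0, map_zero])
  have a6 : φ₁ ((y - p) / (y + p)) = w₁ i := by
    rw [map_div₀, map_sub, map_add, map_natCast, a2, ← h4]
  refine ⟨E, inferInstance, inferInstance, inferInstance, φ₁, (y - p) / (y + p), a1, a6,
    ⟨fun Ω _ φ φ' e1 e2 => a3 Ω φ φ' e1 ?_, fun Ω _ _ _ φ s w hc => ?_⟩, a4⟩
  · have b1 := (map_ne_zero φ).2 a5
    have b2 := (map_ne_zero φ').2 a5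
    have b3 := (map_ne_zero φ).2 (show (2 * p : E) ≠ 0 by simpa using hp)
    rw [map_div₀, map_div₀, div_eq_div_iff b1 b2] at e2
    simp only [map_sub, map_add, map_natCast, map_mul, map_ofNat] at e2 b3
    exact mul_left_cancel₀ b3 (by linear_combination e2)
  · obtain ⟨j, rfl⟩ := exists_comp φ₁ φ
    rw [RingHom.comp_assoc, a1] at hc
    obtain ⟨k, b, h5⟩ := (cu_push h j).face_mem hc i 1
    exact ⟨k, b, by rw [h5, sg_one, one_mul, RingHom.comp_apply, a6]⟩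

/-- Every face is conjugate to one of the three global faces. -/
theorem exists_idx {Ω : Type} [Field Ω] [IsAlgClosed Ω] [CharZero Ω] {p : ℕ} {P : Polynomial F}
    {ι₁ : F →+* Qb} {s₁ : Qb} {w₁ : Fin 3 → Qb} (h : Cu p (P.map ι₁) s₁ w₁) {ι : F →+* Ω} {s : Ω}
    {w : Fin 3 → Ω} (hc : Cu p (P.map ι) s w) (f : Fin 3) :
    ∃ (i : Fin 3) (a : Fin 2) (j : Qb →+* Ω), j.comp ι₁ = ι ∧ j (w₁ i) = sg Ω a * w f := by
  obtain ⟨j, rfl⟩ := exists_comp ι₁ ι
  obtain ⟨i, hi⟩ := hc.sq_mem (cu_push h j) f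
  obtain ⟨a, ha⟩ := exists_sg hi.symm 1
  exact ⟨i, a, j, rfl, by rw [ha, sg_one, one_mul]⟩

/-- The opposite face is conjugate. -/
theorem exists_neg [IsTotallyReal F] {p : ℕ} (hp : p ≠ 0) {P : Polynomial F} (G : GC p P)
    {ι₁ : F →+* Qb} {s₁ : Qb} {w₁ : Fin 3 → Qb} (h : Cu p (P.map ι₁) s₁ w₁) {i : Fin 3}
    {E : Type} [Field E] [NumberField E] [Algebra F E] {φ₁ : E →+* Qb} {w₀ : E}
    (h1 : φ₁.comp (algebraMap F E) = ι₁) (h2 : φ₁ w₀ = w₁ i) :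
    ∃ φ₂ : E →+* Qb, φ₂.comp (algebraMap F E) = ι₁ ∧ φ₂ w₀ = -w₁ i := by
  obtain ⟨j, -⟩ := exists_j (Rat.castHom Qb) (Rat.castHom ℂ)
  obtain ⟨φ₂, h3⟩ := (comp_bij (F := E) j).2 ((starRingEnd ℂ).comp (j.comp φ₁))
  have h4 : ∀ x, j (φ₂ x) = starRingEnd ℂ (j (φ₁ x)) := RingHom.congr_fun h3
  refine ⟨φ₂, RingHom.ext fun x => j.injective ?_, j.injective ?_⟩
  · rw [RingHom.comp_apply, h4, ← h1]
    exact RingHom.congr_fun
      (IsTotallyReal.complexEmbedding_isReal (j.comp (φ₁.comp (algebraMap F E)))) x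
  · have h5 := cu_push h j
    obtain ⟨ε, ε', h6, h7⟩ := face_y hp h5 i
    have h0 : ∀ z : ℂ, ‖z‖ ^ 2 = p → z * starRingEnd ℂ z = p := fun z hz => by
      rw [Complex.mul_conj', ← Complex.ofReal_pow, hz, Complex.ofReal_natCast]
    have h8 := h0 _ (G.weil _ _ (h5.root ε))
    have h9 := h0 _ (G.weil _ _ (h5.root ε'))
    have h10 := (map_ne_zero (starRingEnd ℂ)).2 h6
    rw [h4, h2, map_neg, h7, map_div₀, ← neg_div, div_eq_div_iff h10 h6]
    simp only [map_sub, map_add, map_mul, map_natCast]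
    linear_combination 2 * (vx (j s₁) (fun i => j (w₁ i)) ε' *
      starRingEnd ℂ (vx (j s₁) (fun i => j (w₁ i)) ε')) * h8 + 2 * p * h9

theorem eq_zero_of_small {E : Type} [Field E] [NumberField E] {z : E}
    (h1 : ∀ (l : ℕ) [Fact l.Prime] (ψ : E →+* Om l), ‖ψ z‖ ≤ 1)
    (h2 : ∀ σ : E →+* ℂ, ‖σ z‖ ≤ 1 / 2) : z = 0 := by
  let d : 𝓞 E := ⟨z, isIntegral_of_le h1⟩
  have h3 := NT.abs_norm_le (x := d) h2
  have h4 := h3.trans_lt (pow_lt_one₀ (by norm_num) (by norm_num) finrank_pos.ne')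
  have h5 : (Algebra.norm ℤ d).natAbs = 0 := Nat.lt_one_iff.1 (by exact_mod_cast h4)
  have h6 : d = 0 := by simpa using h5
  exact congrArg Subtype.val h6

variable {E E₀ : Type} [Field E] [NumberField E] [Algebra F E] [Field E₀] [NumberField E₀]

theorem norm_house {g : E} {K M : ℝ} (hK : 0 ≤ K) (hM : 0 ≤ M)
    (h : ∀ σ : E →+* ℂ, ‖σ g‖ ^ finrank ℚ E ≤ K * M) (ι : F →+* ℂ) :
    ‖ι (Algebra.norm F g)‖ ^ finrank ℚ F ≤ K * M := by
  have : Module.Finite F E := Module.Finite.of_restrictScalars_finite ℚ F E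
  refine le_of_pow_le_pow_left₀ (finrank_pos (R := F) (M := E)).ne' (mul_nonneg hK hM) ?_
  rw [← pow_mul, finrank_mul_finrank, ← (ov_spec ι).2, norm_prod, ← Finset.prod_pow,
    ← (ov_spec (E := E) ι).1, ← Finset.prod_const]
  exact Finset.prod_le_prod (fun _ _ => by positivity) fun σ _ => h σ

/-- The multiplier of the generators divided by the level. -/
def eta (i₀ : F →+* E₀) (cj : E₀ →+* E₀) (g : E) (b : E₀) (M : ℕ) : E₀ :=
  i₀ (Algebra.norm F g) * (b * cj b) / M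

variable {i₀ : F →+* E₀} {cj : E₀ →+* E₀} {g : E} {b : E₀} {M : ℕ}

theorem eta_house (hM : M ≠ 0) {K K₀ : ℝ} (hK : 1 ≤ K) (hK₀ : 1 ≤ K₀)
    (hd : finrank ℚ E₀ = 2 * finrank ℚ F)
    (h : ∀ σ : E →+* ℂ, ‖σ g‖ ^ finrank ℚ E ≤ K * (M : ℝ) ^ 1)
    (h' : ∀ σ : E₀ →+* ℂ, ‖σ b‖ ^ finrank ℚ E₀ ≤ K₀ * (M : ℝ) ^ (finrank ℚ F - 1))
    (σ : E₀ →+* ℂ) : ‖σ (eta i₀ cj g b M)‖ ≤ K * K₀ := by
  have hM0 : (0 : ℝ) < M := by exact_mod_cast Nat.pos_of_ne_zero hM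
  have h1 := norm_house (F := F) (by positivity) (by positivity) h (σ.comp i₀)
  have h2 := h' σ
  have h3 := h' (σ.comp cj)
  obtain ⟨e, he⟩ := Nat.exists_eq_succ_of_ne_zero (finrank_pos (R := ℚ) (M := F)).ne'
  rw [hd] at h2 h3
  rw [he] at h1 h2 h3
  simp only [Nat.succ_sub_one, RingHom.comp_apply, Nat.succ_eq_add_one, pow_one] at h1 h2 h3
  have h4 : (‖σ b‖ * ‖σ (cj b)‖) ^ (e + 1) ≤ K₀ * (M : ℝ) ^ e := by
    refine le_of_sq_le_sq ?_ (by positivity)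
    rw [← pow_mul, mul_pow, mul_comm (e + 1), sq]
    exact mul_le_mul h2 h3 (by positivity) (by positivity)
  have h5 : ‖σ (eta i₀ cj g b M)‖ ^ (e + 1) ≤ K * K₀ := by
    rw [eta, map_div₀, map_mul, map_mul, norm_div, norm_mul, norm_mul, map_natCast,
      Complex.norm_natCast, div_pow, div_le_iff₀ (by positivity), mul_pow]
    refine (mul_le_mul h1 h4 (by positivity) (by positivity)).trans (le_of_eq ?_)
    ring
  rcases le_total ‖σ (eta i₀ cj g b M)‖ 1 with h6 | h6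
  · exact h6.trans (one_le_mul_of_one_le_of_one_le hK hK₀)
  · exact (le_self_pow₀ h6 e.succ_ne_zero).trans h5

theorem eta_int (hM : Squarefree M) (hg : IsIntegral ℤ g) (hb : IsIntegral ℤ b) {l : ℕ}
    [Fact l.Prime] (ψ : E₀ →+* Om l)
    (h : l ∣ M → (∃ φ : E →+* Om l, φ.comp (algebraMap F E) = ψ.comp i₀ ∧ ‖φ g‖ ≤ (l : ℝ)⁻¹) ∨
      ‖ψ b‖ ≤ (l : ℝ)⁻¹ ∨ ‖ψ (cj b)‖ ≤ (l : ℝ)⁻¹) : ‖ψ (eta i₀ cj g b M)‖ ≤ 1 := by
  classical
  have h1 : ∀ φ : E →+* Om l, ‖φ g‖ ≤ 1 := fun φ => le_of_integral (hg.map φ.toIntAlgHom)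
  have h2 : ‖ψ b‖ ≤ 1 := le_of_integral (hb.map ψ.toIntAlgHom)
  have h3 : ‖ψ (cj b)‖ ≤ 1 := le_of_integral (hb.map (ψ.comp cj).toIntAlgHom)
  have h4 := (ov_spec (E := E) (ψ.comp i₀)).2 g
  have h5 : ‖ψ (i₀ (Algebra.norm F g))‖ ≤ 1 := by
    rw [← RingHom.comp_apply, ← h4]
    exact cmnorm_prod _ fun φ _ => h1 φ
  have h6 := mul_le_one₀ h2 (norm_nonneg _) h3
  rw [eta, map_div₀, map_mul, map_mul, norm_div, norm_mul, norm_mul, map_natCast]
  refine div_le_one_of_le₀ ?_ (norm_nonneg _)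
  by_cases hl : l ∣ M
  swap
  · rw [norm_nat_eq_one hl]
    exact mul_le_one₀ h5 (by positivity) h6
  rw [norm_sqfree hM hl]
  rcases h hl with ⟨φ, a1, a2⟩ | a | a
  · refine (mul_le_of_le_one_right (norm_nonneg _) h6).trans (le_trans ?_ a2)
    rw [← RingHom.comp_apply, ← h4, ← Finset.mul_prod_erase _ _ (mem_ov.2 a1), norm_mul]
    exact mul_le_of_le_one_right (norm_nonneg _) (cmnorm_prod _ fun φ _ => h1 φ)
  · exact (mul_le_of_le_one_left (by positivity) h5).trans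
      ((mul_le_of_le_one_right (norm_nonneg _) h3).trans a)
  · exact (mul_le_of_le_one_left (by positivity) h5).trans
      ((mul_le_of_le_one_left (norm_nonneg _) h2).trans a)

theorem prod_sub_le {l : ℕ} [Fact l.Prime] {α : Type} (T : Finset α) {x y : α → Om l} {η : ℝ}
    (h0 : 0 ≤ η) (hx : ∀ i ∈ T, ‖x i‖ ≤ 1) (hy : ∀ i ∈ T, ‖y i‖ ≤ 1)
    (h : ∀ i ∈ T, ‖x i - y i‖ ≤ η) : ‖∏ i ∈ T, x i - ∏ i ∈ T, y i‖ ≤ η := by
  classical
  induction T using Finset.induction_on with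
  | empty => simpa using h0
  | insert a T ha ih =>
    have h1 := Finset.mem_insert_self a T
    have h2 := ih (fun i hi => hx i (Finset.mem_insert_of_mem hi))
      (fun i hi => hy i (Finset.mem_insert_of_mem hi)) fun i hi => h i (Finset.mem_insert_of_mem hi)
    have h3 := cmnorm_prod T fun i hi => hx i (Finset.mem_insert_of_mem hi)
    rw [Finset.prod_insert ha, Finset.prod_insert ha, show x a * ∏ i ∈ T, x i - y a * ∏ i ∈ T, y i =
      (x a - y a) * ∏ i ∈ T, x i + y a * (∏ i ∈ T, x i - ∏ i ∈ T, y i) by ring]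
    refine cmnorm_add ?_ ?_ <;> rw [norm_mul]
    · exact (mul_le_of_le_one_right (norm_nonneg _) h3).trans (h a h1)
    · exact (mul_le_of_le_one_left (norm_nonneg _) (hy a h1)).trans h2

theorem cong_le {l : ℕ} [Fact l.Prime] {a : E} {y : 𝓞 E} {m M : ℕ} (hM : M ≠ 0)
    (h : a = 1 + m * y / M) (φ : E →+* Om l) : ‖M * φ a - M‖ ≤ ‖(m : Om l)‖ := by
  have h1 : (M : Om l) ≠ 0 := Nat.cast_ne_zero.2 hM
  have h2 : M * φ a - M = m * φ y := by
    rw [h, map_add, map_one, map_div₀, map_mul, map_natCast, map_natCast]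
    field_simp
    ring
  rw [h2, norm_mul]
  exact mul_le_of_le_one_right (norm_nonneg _) (int_le φ y)

end MG.CB
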