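import Pool.Agent.Lib.MP_33b3f9_ag.M4.CmOp
import Pool.Agent.Lib.MP_33b3f9_ag.MG.CB.Cube
import Pool.Agent.Lib.MP_33b3f9_ag.MG.IDefA

/-!
The eigenprojectors of a pure tensor.
-/

set_option autoImplicit false
set_option linter.unusedSectionVars false

noncomputable section

namespace MG.CB

open Matrix M4 M4.CM
open Pool.Agent.M4.Mx hiding sg

variable {Ω : Type} [Field Ω] [CharZero Ω]

/-- The data of eigenvalues in three slots. -/
structure Eg (h : Fin 3 → M2 Ω) (w : Fin 3 → Ω) : Prop where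
  tr : ∀ i, (h i).trace ≠ 0
  ne : ∀ i, w i ≠ 0
  sq : ∀ i, w i ^ 2 * (h i).trace ^ 2 = (h i).trace ^ 2 - 4 * (h i).det

/-- The projectors in the three slots. -/
def pj (h : Fin 3 → M2 Ω) (w : Fin 3 → Ω) (ε : κ) : Fin 3 → M2 Ω :=
  fun i => Ej (h i) (sg Ω (ε i) * w i)

section one

variable (f : Fr ω Ω) {h : Fin 3 → M2 Ω} {w : Fin 3 → Ω}

theorem pj_sum : ∑ ε : κ, f.T (pj h w ε) = 1 := by
  unfold pj
  rw [← CmOp_T_sum f fun i j => Ej (h i) (sg Ω j * w i), ← f.T_one]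
  exact congrArg _ (funext fun i => Ej_sum)

theorem Eg.lin_mul (H : Eg h w) (a b : Fin 3 → Ω) (ε : κ) :
    (f.T fun i => a i • (1 : M2 Ω) + b i • Zm (h i)) * f.T (pj h w ε) =
      (∏ i, (a i + b i * (sg Ω (ε i) * w i))) • f.T (pj h w ε) := by
  rw [f.T_mul, ← f.T_smul]
  refine congrArg _ (funext fun i => ?_)
  rw [Pi.mul_apply, lin_eq (H.ne i), pj, CmOp_comb_Ej (H.tr i) (H.ne i) (H.sq i)]

theorem Eg.lin (H : Eg h w) (a b : Fin 3 → Ω) :
    (f.T fun i => a i • (1 : M2 Ω) + b i • Zm (h i)) =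
      ∑ ε, (∏ i, (a i + b i * (sg Ω (ε i) * w i))) • f.T (pj h w ε) := by
  rw [← mul_one (f.T _), ← pj_sum f (h := h) (w := w), Finset.mul_sum]
  exact Finset.sum_congr rfl fun ε _ => H.lin_mul f a b ε

theorem Eg.aeval (H : Eg h w) (γ : Polynomial Ω) : Polynomial.aeval (f.T h) γ =
    ∑ ε, γ.eval (vx (∏ i, (h i).trace) w ε) • f.T (pj h w ε) := by
  have hh : h = fun i => ((h i).trace / 2) • (1 : M2 Ω) + ((h i).trace / 2) • Zm (h i) := by
    funext i
    have := H.tr i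
    rw [Zm]
    match_scalars <;> field_simp <;> ring
  rw [← mul_one (Polynomial.aeval (f.T h) γ), ← pj_sum f (h := h) (w := w), Finset.mul_sum]
  refine Finset.sum_congr rfl fun ε _ => ?_
  have h1 := H.lin_mul f (fun i => (h i).trace / 2) (fun i => (h i).trace / 2) ε
  rw [← hh] at h1
  rw [CmOp_aeval_mul h1]
  congr 2
  simp only [vx, Fin.prod_univ_three]
  ring

theorem Eg.idem (H : Eg h w) (ε : κ) (i : Fin 3) : pj h w ε i * pj h w ε i = pj h w ε i := by
  rw [pj, Ej_mul (H.tr i) (H.ne i) (H.sq i), if_pos rfl]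

theorem sg_rev (a : Fin 2) : sg Ω a.rev = -sg Ω a := by
  fin_cases a <;> simp [sg]

theorem Eg.adj (H : Eg h w) (ε : κ) (i : Fin 3) :
    adjugate (pj h w (fun k => (ε k).rev) i) = pj h w ε i := by
  have h1 := H.tr i
  have h2 : (h i).trace = h i 0 0 + h i 1 1 := trace_fin_two _
  simp only [pj, sg_rev, neg_mul, Ej, Zm, inv_neg]
  generalize (sg Ω (ε i) * w i)⁻¹ = u
  ext p q
  fin_cases p <;> fin_cases q <;> simp [adjugate_fin_two] <;> field_simp <;>
    linear_combination (2 * u) * h2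

end one

variable [Dim] {e : ℕ} {a b : MZ}

theorem T_adj {R : Type} [CommRing R] (G : Fm e a b R) (s : Fin e) (k : Fin 3 → M2 R) :
    ((G.f s).T k)ᵀ * J (Fin 4) R = J (Fin 4) R * (G.f s).T fun i => adjugate (k i) := by
  have h : ∀ i x (Y : M8 R), ((G.f s).u i x)ᵀ * (J (Fin 4) R * Y) =
      J (Fin 4) R * ((G.f s).u i (adjugate x) * Y) := fun i x Y => by
    rw [← Matrix.mul_assoc, G.adj, Matrix.mul_assoc]
  rw [Fr.T_eq, transpose_mul, transpose_mul, Matrix.mul_assoc, Matrix.mul_assoc, G.adj, h, h]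
  simp only [Fr.u_apply, Fr.T_mul]
  congr 2
  funext r
  fin_cases r <;> simp

/-- Index set of the eigenspaces. -/
abbrev Eta (e : ℕ) : Type := Fin e × Fin 2 × κ

/-- The dual eigenspace. -/
def Eta.star (η : Eta e) : Eta e := (η.1, η.2.1.rev, fun k => (η.2.2 k).rev)

variable (G : Fm e a b Ω) (h : Fin e → Fin 3 → M2 Ω) (w : Fin e → Fin 3 → Ω)

/-- The eigenprojectors. -/
def EE (η : Eta e) : Matrix ν ν Ω :=
  G.z.em2 (Pi.single η.1 (Pi.single η.2.1 ((G.f η.1).T (pj (h η.1) (w η.1) η.2.2))))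

theorem em2_sum (v : Eta e → Ω) :
    (G.z.em2 fun s c => ∑ ε, v (s, c, ε) • (G.f s).T (pj (h s) (w s) ε)) =
      ∑ η, v η • EE G h w η := by
  simp only [EE, ← map_smul, ← map_sum]
  refine congrArg _ (funext fun s => funext fun c => ?_)
  simp only [Fintype.sum_prod_type, Finset.sum_apply, Pi.smul_apply]
  rw [Finset.sum_eq_single s (fun t _ ht => by simp [Pi.single_eq_of_ne ht.symm]) (by simp),
    Finset.sum_eq_single c (fun t _ ht => by simp [Pi.single_eq_of_ne ht.symm]) (by simp)]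
  simp

theorem T2_EE {k : Fin e → Fin 2 → Fin 3 → M2 Ω} {η : Eta e}
    (hk : k η.1 η.2.1 * pj (h η.1) (w η.1) η.2.2 = pj (h η.1) (w η.1) η.2.2) :
    G.T2 k * EE G h w η = EE G h w η := by
  rw [Fm.T2, EE, ← map_mul]
  refine congrArg _ (funext fun s => funext fun c => ?_)
  by_cases hs : s = η.1
  · subst hs
    by_cases hc : c = η.2.1
    · subst hc
      simp [Fr.T_mul, hk]
    · simp [Pi.single_eq_of_ne hc]
  · simp [Pi.single_eq_of_ne hs]

variable {h w}

theorem EE_idem (H : ∀ s, Eg (h s) (w s)) (η : Eta e) :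
    EE G h w η * EE G h w η = EE G h w η := by
  rw [EE, ← map_mul, ← Pi.single_mul, ← Pi.single_mul, Fr.T_mul]
  exact congrArg (fun k => G.z.em2 (Pi.single η.1 (Pi.single η.2.1 ((G.f η.1).T k))))
    (funext ((H η.1).idem η.2.2))

theorem EE_adj (H : ∀ s, Eg (h s) (w s)) (η : Eta e) :
    (EE G h w η.star)ᵀ * J ι Ω = J ι Ω * EE G h w η := by
  rw [← Matrix.mul_one (_ * J ι Ω), ← map_one G.z.em2, EE, EE, MorD.form_iff2]
  intro s c
  by_cases hs : s = η.1
  · subst hs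
    by_cases hc : c = η.2.1
    · subst hc
      simp only [Eta.star, Pi.single_eq_same, Pi.one_apply, Matrix.mul_one, T_adj, (H _).adj]
    · simp [Eta.star, Pi.single_eq_of_ne hc, Pi.single_eq_of_ne (Fin.rev_injective.ne hc)]
  · simp [Eta.star, Pi.single_eq_of_ne hs]

theorem EE_mul_adj (H : ∀ s, Eg (h s) (w s)) (η : Eta e) (g : MZ) :
    EE G h w η * zM Ω (adj g) = -(J ι Ω * (zM Ω g * EE G h w η.star)ᵀ * J ι Ω) := by
  have h1 : J ι Ω * (EE G h w η.star)ᵀ = EE G h w η * J ι Ω := by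
    have h2 := congrArg (fun Y => J ι Ω * Y * J ι Ω) (EE_adj G H η)
    simp only [Matrix.mul_assoc, J_squared, Matrix.mul_neg, Matrix.mul_one] at h2
    rw [← Matrix.mul_assoc, J_squared, Matrix.neg_mul, Matrix.one_mul] at h2
    exact neg_injective h2
  have h3 : zM Ω (adj g) = -(J ι Ω * (zM Ω g)ᵀ * J ι Ω) := by
    rw [adj, ← map_J ι (Int.castRingHom Ω)]
    exact (map_neg (Int.castRingHom Ω).mapMatrix _).trans (congrArg _ (by
      rw [map_mul, map_mul]
      rfl))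
  rw [h3, transpose_mul, ← Matrix.mul_assoc, h1]
  simp only [Matrix.mul_neg, Matrix.mul_assoc]

/-- The value of a polynomial over the field at a pure tensor. -/
theorem eval₂_T {E : Type} [Field E] {φ : E →+* Matrix ν ν Ω} {j : Fin e × Fin 2 → E →+* Ω}
    (hφ : ∀ x, φ x = G.z.em2 fun s c => j (s, c) x • (1 : M8 Ω)) (γ : Polynomial E) :
    γ.eval₂ φ (G.T h) =
      G.z.em2 fun s c => Polynomial.aeval ((G.f s).T (h s)) (γ.map (j (s, c))) := by
  induction γ using Polynomial.induction_on' with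
  | add p q hp hq =>
    rw [Polynomial.eval₂_add, hp, hq, ← map_add]
    exact congrArg _ (funext fun s => funext fun c => by simp)
  | monomial k x =>
    rw [Polynomial.eval₂_monomial, hφ, Fm.T_eq, Fm.T2, ← map_pow, ← map_mul]
    refine congrArg _ (funext fun s => funext fun c => ?_)
    simp [Polynomial.aeval_monomial, Algebra.smul_def]

theorem eval₂_EE (H : ∀ s, Eg (h s) (w s)) {E : Type} [Field E] {φ : E →+* Matrix ν ν Ω}
    {j : Fin e × Fin 2 → E →+* Ω} (hφ : ∀ x, φ x = G.z.em2 fun s c => j (s, c) x • (1 : M8 Ω))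
    (γ : Polynomial E) : γ.eval₂ φ (G.T h) = ∑ η : Eta e, (γ.map (j (η.1, η.2.1))).eval
      (vx (∏ i, (h η.1 i).trace) (w η.1) η.2.2) • EE G h w η := by
  rw [eval₂_T G hφ, ← em2_sum]
  simp only [(H _).aeval]

theorem T2_EE_sum (H : ∀ s, Eg (h s) (w s)) (x y : Fin e → Fin 2 → Fin 3 → Ω) :
    (G.T2 fun s c i => x s c i • (1 : M2 Ω) + y s c i • Zm (h s i)) = ∑ η : Eta e,
      (∏ i, (x η.1 η.2.1 i + y η.1 η.2.1 i * (sg Ω (η.2.2 i) * w η.1 i))) • EE G h w η := by
  rw [← em2_sum, Fm.T2]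
  simp only [(H _).lin]

end MG.CB
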