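import Pool.Agent.Lib.MP_33b3f9_ag.M4.CmFace
import Pool.Agent.Lib.MP_33b3f9_ag.MG.CB.MxA

/-!
Norms of the eigenprojectors; similitudes that kill a slot.
-/

set_option autoImplicit false
set_option linter.unusedSectionVars false

noncomputable section

namespace MG.CB

open Matrix M4 M4.CM
open Pool.Agent.M4.Mx hiding sg Om toOm

variable {l : ℕ} [Fact l.Prime]

theorem le_bd {m o : Type} [DecidableEq o] {x : o → Matrix m m (Om l)} {t : ℝ} (ht : 0 ≤ t)
    (hx : ∀ s, Le (x s) t) : Le (blockDiagonal x) t := fun i j => by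
  rw [blockDiagonal_apply]
  split_ifs
  · exact hx _ _ _
  · simpa using ht

theorem le_single {m o : Type} [DecidableEq o] {x : Matrix m m (Om l)} (hx : Le x 1) (s t : o) :
    Le ((Pi.single s x : o → Matrix m m (Om l)) t) 1 := by
  rw [Pi.single_apply]
  split_ifs
  · exact hx
  · exact fun _ _ => by simp

theorem norm_sg (a : Fin 2) : ‖sg (Om l) a‖ = 1 := by
  unfold sg
  split_ifs <;> simp

theorem le_Ej (hl : l ≠ 2) {x : M2 (Om l)} (hx : Le x 1) (h1 : ‖x.trace‖ = 1) {u : Om l}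
    (h2 : ‖u‖ = 1) : Le (Ej x u) 1 := by
  have h3 : Le (Zm x) 1 :=
    ((hx.smul _).mono (by rw [norm_div, norm_two hl, h1]; norm_num)).sub Le.one
  refine ((Le.one.add ((h3.smul _).mono ?_)).smul _).mono ?_
  · rw [norm_inv, h2]
    norm_num
  · rw [norm_div, norm_two hl]
    norm_num

theorem left_eig {k : Type} [Field k] {x : M2 k} {w : Fin 2 → k} (hw : w ≠ 0)
    (h : wd w (x *ᵥ w) = 0) : ![-w 1, w 0] ≠ 0 ∧ ∃ c : k, ![-w 1, w 0] ᵥ* x = c • ![-w 1, w 0] := by
  simp only [wd, mulVec, dotProduct, Fin.sum_univ_two] at h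
  refine ⟨fun h0 => hw (funext fun i => ?_), ?_⟩
  · have h1 := congrFun h0 0
    have h2 := congrFun h0 1
    fin_cases i <;> simp_all
  · by_cases h0 : w 0 = 0
    · have h1 : w 1 ≠ 0 := fun h1 => hw (funext fun i => by fin_cases i <;> assumption)
      have h2 : x 0 1 = 0 := by simpa [h0, h1] using h
      refine ⟨x 0 0, funext fun i => ?_⟩
      fin_cases i <;> simp [vecMul, dotProduct, h0, h2, mul_comm]
    · refine ⟨(w 0 * x 1 1 - w 1 * x 0 1) / w 0, funext fun i => ?_⟩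
      fin_cases i <;> simp [vecMul, dotProduct] <;> field_simp
      · linear_combination h
      · ring

variable [Dim] {e : ℕ} {a b : MZ}

theorem le_em2 (z : Mor e a b ℤ_[l]) {x : Fin e → Fin 2 → M8 (Om l)} (hx : ∀ s c, Le (x s c) 1) :
    Le ((z.map (toOm l)).em2 x) 1 :=
  ((le_toOm z.S).mul_one (le_bd zero_le_one fun s => le_bd zero_le_one (hx s))).mul_one
    (le_toOm z.S')

theorem le_EE (hl : l ≠ 2) (Z : Fm e a b ℤ_[l]) {h : Fin e → Fin 3 → M2 (Om l)}
    {w : Fin e → Fin 3 → Om l} (h0 : ∀ s i, Le (h s i) 1) (h1 : ∀ s i, ‖(h s i).trace‖ = 1)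
    (h2 : ∀ s i, ‖w s i‖ = 1) (η : Eta e) : Le (EE (Z.map (toOm l)) h w η) 1 := by
  refine le_em2 Z.z.toMor fun s c => ?_
  rw [Pi.single_apply]
  split_ifs
  · exact le_single (Le.T (f := (Z.f η.1).map (toOm l)) (le_toOm (Z.f η.1).P)
      (le_toOm (Z.f η.1).Q) fun i =>
        le_Ej hl (h0 _ i) (h1 _ i) (by rw [norm_mul, norm_sg, h2, one_mul])) _ _
  · exact fun _ _ => by simp

theorem co_T2 {R : Type} [CommRing R] (G : Fm e a b R) (k : Fin e → Fin 2 → Fin 3 → M2 R)
    (v : ν → R) (s : Fin e) (c : Fin 2) :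
    G.co (G.T2 k *ᵥ v) s c = Pool.Agent.M4.tp (k s c) *ᵥ G.co v s c := by
  rw [Fm.co, Fm.co, mulVec_mulVec _ _ (G.f s).Q, ← cmface_QT, ← mulVec_mulVec _ (G.f s).Q,
    mulVec_mulVec, Fm.T2, Mor.em2_apply, Mor.bm_apply, ← Matrix.mul_assoc, ← Matrix.mul_assoc,
    G.z.inv', Matrix.one_mul, ← mulVec_mulVec]
  refine congrArg _ (funext fun i => ?_)
  generalize G.z.S' *ᵥ v = y
  simp [mulVec, dotProduct, Fintype.sum_prod_type, blockDiagonal_apply]

/-- The idempotent of a slot. -/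
def ks {R : Type} [CommRing R] (q : Fin e × Fin 3) (y : M2 R) : Fin e → Fin 2 → Fin 3 → M2 R :=
  fun s c => if s = q.1 then Function.update 1 q.2 y else if c = 0 then 1 else 0

theorem ks_map {R R' : Type} [CommRing R] [CommRing R'] (φ : R →+* R') (q : Fin e × Fin 3)
    (y : M2 R) : (fun s c i => (ks q y s c i).map φ) = ks q (y.map φ) := by
  funext s c i
  unfold ks
  split_ifs
  · by_cases hi : i = q.2
    · subst hi
      simp
    · simp [Function.update_of_ne hi]
  · simp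
  · simp

theorem kil (Z : Fm e a b ℤ_[l]) {q : Fin e × Fin 3} {w : Fin 2 → ZMod l} {g : MZ}
    (hk : Ker g l = slot (Z.map PadicInt.toZMod) q w) {y : M2 ℤ_[l]}
    (hy : ![-w 1, w 0] ᵥ* y.map PadicInt.toZMod = 0) :
    Le (zM (Om l) g * (Z.map (toOm l)).T2 (ks q (y.map (toOm l)))) (l : ℝ)⁻¹ := by
  have hmap : ∀ {S : Type} [CommRing S] (φ : ℤ_[l] →+* S),
      (zM ℤ_[l] g * Z.T2 (ks q y)).map φ = zM S g * (Z.map φ).T2 (ks q (y.map φ)) := by
    intro S _ φ
    rw [Matrix.map_mul, zM_map, Fm.map_T2, ks_map]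
  rw [← hmap]
  intro i j
  refine le_inv_of_lt (toOm_mem _) ((toZMod_eq_zero_iff _).1 ?_)
  choose x hx using fun t => ZMod.intCast_surjective
    (((Z.map PadicInt.toZMod).T2 (ks q (y.map PadicInt.toZMod)) *ᵥ Pi.single j 1) t)
  have hx' := funext hx
  have h1 : x ∈ Ker g l := by
    rw [hk]
    refine ⟨fun c k => ?_, fun s hs => ?_⟩
    · rw [hx', co_T2, ks, if_pos rfl]
      have h2 := congrFun hy 0
      have h3 := congrFun hy 1
      simp only [vecMul, dotProduct, Fin.sum_univ_two, cons_val_zero, cons_val_one,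
        Pi.zero_apply] at h2 h3
      simp only [wd, cmface_mulVec, Function.update_self, Function.update_idem, Fin.sum_univ_two]
      generalize (Z.map PadicInt.toZMod).co (Pi.single j 1) q.1 c = u
      linear_combination u (Function.update k q.2 0) * h2 + u (Function.update k q.2 1) * h3
    · rw [hx', co_T2, ks, if_neg hs, if_neg one_ne_zero]
      ext k
      simp [mulVec, dotProduct, tp_apply]
  have h2 : (((g *ᵥ x) i : ℤ) : ZMod l) = (zM (ZMod l) g *ᵥ fun t => (x t : ZMod l)) i := by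
    simp only [mulVec, dotProduct, map_apply, Int.cast_sum, Int.cast_mul]
  rw [hx', mulVec_mulVec, ← hmap, mulVec_single_one,
    (ZMod.intCast_zmod_eq_zero_iff_dvd _ l).2 (h1 i)] at h2
  exact h2.symm

theorem le_J : Le (J ι (Om l)) 1 := by
  rw [← map_J ι (Int.castRingHom (Om l))]
  exact le_int _

/-- The lattice lemma. -/
theorem le_W {G : Fm e a b (Om l)} {h : Fin e → Fin 3 → M2 (Om l)} {w : Fin e → Fin 3 → Om l}
    (H : ∀ s, Eg (h s) (w s)) {g g' : MZ} {M : Om l} {t t' : Eta e → ℝ} {v : Eta e → Om l}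
    (h0 : ∀ η, 0 ≤ t η) (h0' : ∀ η, 0 ≤ t' η) (h1 : ∀ η, Le (zM (Om l) g * EE G h w η) (t η))
    (h1' : ∀ η, Le (zM (Om l) g' * EE G h w η) (t' η)) (h2 : ∀ η, ‖v η‖ * t' η = t η)
    (h3 : ∀ η, t η * t η.star ≤ ‖M‖) :
    Le (M⁻¹ • (zM (Om l) g' * (∑ η, v η • EE G h w η) * zM (Om l) (adj g))) 1 := by
  rw [Finset.mul_sum, Finset.sum_mul, Finset.smul_sum]
  refine Le.sum _ zero_le_one fun η _ => ?_
  have h4 : Le (EE G h w η * zM (Om l) (adj g)) (t η.star) := by
    rw [EE_mul_adj G H]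
    intro i j
    have h5 : Le (zM (Om l) g * EE G h w η.star)ᵀ (t η.star) := fun i j => h1 η.star j i
    rw [neg_apply, norm_neg]
    exact ((le_J.mul h5 zero_le_one (h0 _)).mul le_J (by simpa using h0 _) zero_le_one).mono
      (by simp) i j
  rw [← EE_idem G H η, mul_smul_comm, smul_mul_assoc, ← mul_assoc, mul_assoc]
  refine ((((h1' η).mul h4 (h0' _) (h0 _)).smul _).smul _).mono ?_
  rw [← mul_assoc ‖v η‖, h2, norm_inv]
  exact inv_mul_le_one_of_le₀ (h3 η) (norm_nonneg _)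

end MG.CB
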