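import Pool.Agent.Lib.MP_33b3f9_ag.MG.CB.Fix
import Pool.Agent.Lib.MP_33b3f9_ag.MG.CB.MxB
import Pool.Agent.Lib.MP_33b3f9_ag.MG.IDefs
import Pool.Agent.Lib.MP_33b3f9_ag.MG.Tr

/-!
Values of polynomials at the Frobenius: products, adjoints, integrality.
-/

set_option autoImplicit false
set_option linter.unusedSectionVars false

noncomputable section

namespace MG.CB

open Matrix M4 M4.CM

variable [Dim] {e : ℕ} {a b : MZ} {m n : ℕ} (D : PD e a b m n) {K : IntermediateField ℚ ℂ}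
  {r : Rep K} {l : ℕ} [Fact l.Prime] {σ : ℂ ≃ₐ[K] ℂ}

/-- The inclusion in the algebraic closure. -/
abbrev al (l : ℕ) [Fact l.Prime] : ℚ_[l] →+* Om l := algebraMap ℚ_[l] (Om l)

theorem phi_z : D.φl l D.z = zM ℚ_[l] a := by
  change (D.φ D.z).map (Rat.castHom ℚ_[l]) = _
  rw [D.φz, zM_map]

theorem phi_rat (q : ℚ) : D.φl l q = (q : ℚ_[l]) • 1 := by
  rw [← Rat.smul_one_eq_cast, map_rat_smul, map_one, Rat.cast_smul_eq_qsmul]

theorem phi_nat (q : ℕ) : D.φl l q = (q : ℚ_[l]) • 1 := by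
  rw [← Rat.cast_natCast, phi_rat, Rat.cast_natCast]

theorem phi_comm (hc : COMM a b r) (x : D.E) : Commute (D.φl l x) (rq r l σ) := by
  induction x using ind D with
  | h0 q => rw [phi_rat]; exact (Commute.one_left _).smul_left _
  | h1 =>
    rw [phi_z, ← zM_map PadicInt.Coe.ringHom]
    exact (hc l σ).1.map PadicInt.Coe.ringHom.mapMatrix
  | h2 x y hx hy => rw [map_add]; exact hx.add_left hy
  | h3 x y hx hy => rw [map_mul]; exact hx.mul_left hy

theorem phi_adj (x : D.E) : (D.φl l x)ᵀ * J ι ℚ_[l] = J ι ℚ_[l] * D.φl l (D.bar x) := by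
  induction x using ind D with
  | h0 q => simp [phi_rat]
  | h1 =>
    have h1 : zM ℚ_[l] a * D.φl l (D.bar D.z) = (m : ℚ_[l]) • 1 := by
      rw [← phi_z D, ← map_mul, mul_comm, D.mul, phi_nat]
    have h2 := congrArg (· * D.φl l (D.bar D.z)) (D.pel.rel ℚ_[l]).1
    simp only [Matrix.mul_assoc, h1, Matrix.mul_smul, Matrix.smul_mul, Matrix.mul_one] at h2
    rw [phi_z]
    exact smul_right_injective _ (Nat.cast_ne_zero.2 D.pel.m0.ne') h2
  | h2 x y hx hy => simp only [map_add, transpose_add, Matrix.add_mul, Matrix.mul_add, hx, hy]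
  | h3 x y hx hy =>
    rw [map_mul, transpose_mul, Matrix.mul_assoc, hx, ← Matrix.mul_assoc, hy, mul_comm x, map_mul,
      map_mul, Matrix.mul_assoc]

/-- Evaluation at the Frobenius. -/
def evH (hc : COMM a b r) (l : ℕ) [Fact l.Prime] (σ : ℂ ≃ₐ[K] ℂ) :
    Polynomial D.E →+* Matrix ν ν ℚ_[l] :=
  Polynomial.eval₂RingHom' (D.φl l) (rq r l σ) (phi_comm D hc)

variable (hc : COMM a b r)

theorem evH_apply (γ : Polynomial D.E) : evH D hc l σ γ = D.ev r l σ γ := rfl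

theorem evH_C (x : D.E) : evH D hc l σ (Polynomial.C x) = D.φl l x := Polynomial.eval₂_C _ _

theorem evH_X : evH D hc l σ Polynomial.X = rq r l σ := Polynomial.eval₂_X _ _

variable {D hc} {p : ℕ} {P R A B : Polynomial D.E}

theorem evH_eq (h0 : D.ev r l σ P = 0) (h : P ∣ A - B) : evH D hc l σ A = evH D hc l σ B := by
  obtain ⟨c, h⟩ := h
  rw [← sub_eq_zero, ← map_sub, h, map_mul, evH_apply, h0, zero_mul]

theorem exists_R (hp : p ≠ 0) (hW : Weil D r p σ P) :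
    ∃ R, P ∣ Polynomial.X * R - Polynomial.C (p : D.E) := by
  obtain ⟨j⟩ : Nonempty (D.E →+* ℂ) := inferInstance
  have h0 : P.coeff 0 ≠ 0 := fun h => hp (by
    have h1 := hW.weil j 0 (by rw [Polynomial.eval₂_at_zero, h, map_zero])
    rw [norm_zero, zero_pow two_ne_zero] at h1
    exact_mod_cast h1.symm)
  refine ⟨-Polynomial.C (p / P.coeff 0) * P.divX, -Polynomial.C (p / P.coeff 0), ?_⟩
  have h1 : Polynomial.C (p : D.E) = Polynomial.C (p / P.coeff 0) * Polynomial.C (P.coeff 0) := by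
    rw [← map_mul, div_mul_cancel₀ _ h0]
  linear_combination -Polynomial.C (p / P.coeff 0) * P.X_mul_divX_add - h1

theorem evH_adj (hp : p ≠ 0) (h0 : D.ev r l σ P = 0)
    (hs : (rq r l σ)ᵀ * J ι ℚ_[l] * rq r l σ = (p : ℚ_[l]) • J ι ℚ_[l])
    (hR : P ∣ Polynomial.X * R - Polynomial.C (p : D.E)) (γ : Polynomial D.E) :
    (evH D hc l σ γ)ᵀ * J ι ℚ_[l] = J ι ℚ_[l] * evH D hc l σ ((γ.map (cF D)).comp R) := by
  have h1 := evH_eq (hc := hc) h0 hR
  rw [map_mul, evH_X, evH_C, phi_nat] at h1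
  have h2 := congrArg (· * evH D hc l σ R) hs
  simp only [Matrix.mul_assoc, h1, Matrix.mul_smul, Matrix.smul_mul, Matrix.mul_one] at h2
  have h3 := smul_right_injective _ (Nat.cast_ne_zero.2 hp) h2
  induction γ using Polynomial.induction_on with
  | C x => rw [Polynomial.map_C, Polynomial.C_comp, evH_C, evH_C, phi_adj]; rfl
  | add x y hx hy =>
    simp only [Polynomial.map_add, Polynomial.add_comp, map_add, transpose_add, Matrix.add_mul,
      Matrix.mul_add, hx, hy]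
  | monomial k x ih =>
    rw [pow_succ, ← mul_assoc, map_mul, transpose_mul, Matrix.mul_assoc, ih, evH_X,
      ← Matrix.mul_assoc, h3, Matrix.mul_assoc, ← map_mul, Polynomial.map_mul _ (q := Polynomial.X),
      Polynomial.mul_comp, Polynomial.map_X, Polynomial.X_comp, mul_comm R]

theorem evH_sim (hp : p ≠ 0) (h0 : D.ev r l σ P = 0)
    (hs : (rq r l σ)ᵀ * J ι ℚ_[l] * rq r l σ = (p : ℚ_[l]) • J ι ℚ_[l])
    (hR : P ∣ Polynomial.X * R - Polynomial.C (p : D.E)) {γ : Polynomial D.E} {M M' : ℕ}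
    (h : P ∣ Polynomial.C (M' : D.E) * ((γ.map (cF D)).comp R * γ) - Polynomial.C (M : D.E)) :
    (M' : ℚ_[l]) • ((evH D hc l σ γ)ᵀ * J ι ℚ_[l] * evH D hc l σ γ) = (M : ℚ_[l]) • J ι ℚ_[l] := by
  have h1 := evH_eq (hc := hc) h0 h
  rw [map_mul, evH_C, evH_C, phi_nat, phi_nat, Matrix.smul_mul, Matrix.one_mul] at h1
  rw [evH_adj hp h0 hs hR, Matrix.mul_assoc, ← map_mul, ← Matrix.mul_smul, h1, Matrix.mul_smul,
    Matrix.mul_one]

theorem le_zM (g : MZ) : Le (zM (Om l) g) 1 := le_int g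

theorem le_phi {y : D.E} (hy : y ∈ Algebra.adjoin ℤ {D.z}) : Le ((D.φl l y).map (al l)) 1 := by
  induction hy using Algebra.adjoin_induction with
  | mem x hx => rw [hx, phi_z, zM_map]; exact le_zM a
  | algebraMap q =>
    rw [eq_intCast, map_intCast, ← RingHom.mapMatrix_apply, map_intCast,
      ← map_intCast ((Int.castRingHom (Om l)).mapMatrix (m := ν))]
    exact le_int _
  | add x y _ _ hx hy => rw [map_add, ← RingHom.mapMatrix_apply, map_add]; exact hx.add hy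
  | mul x y _ _ hx hy => rw [map_mul, Matrix.map_mul]; exact hx.mul_one hy

theorem map_smul_al (c : ℚ_[l]) (A : Matrix ν ν ℚ_[l]) :
    (c • A).map (al l) = al l c • A.map (al l) := by
  ext i j
  simp

theorem le_ev {δ : Polynomial D.E} (h : ∀ k, δ.coeff k ∈ Algebra.adjoin ℤ {D.z}) :
    Le ((D.ev r l σ δ).map (al l)) 1 := by
  rw [PD.ev, Polynomial.eval₂_eq_sum, Polynomial.sum, ← RingHom.mapMatrix_apply, map_sum]
  refine Le.sum _ zero_le_one fun k _ => ?_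
  rw [map_mul, map_pow]
  exact (le_phi (h k)).mul_one (Le.pow (le_toOm (r l σ : Matrix ν ν ℤ_[l])) k)

variable {g g' : MZ} {M M' : ℕ}

theorem iso_mul_adj (hg : Iso g M) (R : Type) [CommRing R] :
    zM R g * zM R (adj g) = (M : R) • 1 ∧ zM R (adj g) * zM R g = (M : R) • 1 ∧
      (zM R g)ᵀ * J ι R * zM R g = (M : R) • J ι R := by
  refine ⟨?_, ?_, ?_⟩
  · rw [← zM_mul, mul_adj (Nat.pos_of_ne_zero hg.1.1.ne_zero) hg.2.2, zM_smul, zM_one,
      Int.cast_natCast]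
  · rw [← zM_mul, adj_mul hg.2.2, zM_smul, zM_one, Int.cast_natCast]
  · rw [← zM_tr, ← zM_J, ← zM_mul, ← zM_mul, sim_nat.1 hg.2.2, zM_smul, Int.cast_natCast]

theorem le_lev (hg : Lev g) : Le (zM (Om l) g - 1) ‖(32 : Om l)‖ := fun i j => by
  obtain ⟨c, hc⟩ := hg i j
  have h : (zM (Om l) g - 1) i j = (((g - 1) i j : ℤ) : Om l) := by
    simp [one_apply]
  rw [h, hc, Int.cast_mul, norm_mul]
  exact mul_le_of_le_one_right (norm_nonneg _) (norm_int_le c)

theorem le_away (hg : Iso g M) (hg' : Iso g' M') (hl : ¬ l ∣ M) {A : Matrix ν ν (Om l)}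
    (hA : Le (A - 1) ‖(32 : Om l)‖) :
    Le ((M : Om l)⁻¹ • (zM (Om l) g' * A * zM (Om l) (adj g)) - 1) ‖(32 : Om l)‖ := by
  have h0 : (M : Om l) ≠ 0 := Nat.cast_ne_zero.2 hg.1.1.ne_zero
  have h1 : (M : Om l)⁻¹ • (zM (Om l) g' * A * zM (Om l) (adj g)) - 1 = (M : Om l)⁻¹ •
      ((zM (Om l) g' * (A - 1) + (zM (Om l) g' - 1) - (zM (Om l) g - 1)) * zM (Om l) (adj g)) := by
    rw [show zM (Om l) g' * (A - 1) + (zM (Om l) g' - 1) - (zM (Om l) g - 1) =
      zM (Om l) g' * A - zM (Om l) g by noncomm_ring, Matrix.sub_mul, (iso_mul_adj hg _).1,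
      smul_sub, smul_smul, inv_mul_cancel₀ h0, one_smul]
  rw [h1]
  refine (((((((le_zM g').mul hA zero_le_one (norm_nonneg _)).mono (one_mul _).le).add
    (le_lev hg'.2.1)).sub (le_lev hg.2.1)).mul (le_zM _) (norm_nonneg _) zero_le_one).smul
      _).mono ?_
  rw [norm_inv, norm_nat_eq_one hl]
  simp

theorem exists_W (hg : Iso g M) (hg' : Iso g' M') {γ : Matrix ν ν ℚ_[l]}
    (hs : (M' : ℚ_[l]) • (γᵀ * J ι ℚ_[l] * γ) = (M : ℚ_[l]) • J ι ℚ_[l])
    (hW : Le ((M : Om l)⁻¹ • (zM (Om l) g' * γ.map (al l) * zM (Om l) (adj g)) - 1)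
      ‖(32 : Om l)‖) : ∃ W : Matrix ν ν ℤ_[l],
      zM ℚ_[l] g' * γ = W.map ((↑) : ℤ_[l] → ℚ_[l]) * zM ℚ_[l] g ∧
      Wᵀ * J ι ℤ_[l] * W = J ι ℤ_[l] ∧ ∀ i j, (32 : ℤ_[l]) ∣ (W - 1) i j := by
  have h0 : (M : ℚ_[l]) ≠ 0 := Nat.cast_ne_zero.2 hg.1.1.ne_zero
  obtain ⟨V, hV⟩ : ∃ V, V = (M : ℚ_[l])⁻¹ • (zM ℚ_[l] g' * γ * zM ℚ_[l] (adj g)) := ⟨_, rfl⟩
  have h1 : (V - 1).map (al l) =
      (M : Om l)⁻¹ • (zM (Om l) g' * γ.map (al l) * zM (Om l) (adj g)) - 1 := by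
    rw [← RingHom.mapMatrix_apply, map_sub, map_one, RingHom.mapMatrix_apply, hV, map_smul_al,
      Matrix.map_mul, Matrix.map_mul, zM_map, zM_map, map_inv₀, map_natCast]
  have h2 : ∀ i j, ∃ y : ℤ_[l], (V - 1) i j = 32 * y := fun i j => by
    have h3 := hW i j
    rw [← h1, map_apply, ← map_ofNat (al l), PadicAlgCl.norm_extends, PadicAlgCl.norm_extends] at h3
    exact ⟨⟨(V - 1) i j / 32, by rw [norm_div]; exact div_le_one_of_le₀ h3 (norm_nonneg _)⟩,
      (mul_div_cancel₀ _ (by norm_num)).symm⟩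
  choose Y hY using h2
  have h3 : (1 + (32 : ℤ_[l]) • of Y).map PadicInt.Coe.ringHom = V := by
    rw [← RingHom.mapMatrix_apply, map_add, map_one, ← eq_sub_iff_add_eq']
    ext i j
    rw [hY]
    rfl
  have h4 : V * zM ℚ_[l] g = zM ℚ_[l] g' * γ := by
    rw [hV, Matrix.smul_mul, Matrix.mul_assoc, (iso_mul_adj hg _).2.1, Matrix.mul_smul, smul_smul,
      inv_mul_cancel₀ h0, one_smul, Matrix.mul_one]
  have h5 : (zM ℚ_[l] g)ᵀ * (Vᵀ * J ι ℚ_[l] * V - J ι ℚ_[l]) * zM ℚ_[l] g = 0 := by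
    have h6 : (zM ℚ_[l] g)ᵀ * (Vᵀ * J ι ℚ_[l] * V) * zM ℚ_[l] g =
        γᵀ * ((zM ℚ_[l] g')ᵀ * J ι ℚ_[l] * zM ℚ_[l] g') * γ := by
      calc _ = (V * zM ℚ_[l] g)ᵀ * J ι ℚ_[l] * (V * zM ℚ_[l] g) := by
            simp only [transpose_mul, Matrix.mul_assoc]
        _ = _ := by simp only [h4, transpose_mul, Matrix.mul_assoc]
    rw [Matrix.mul_sub, Matrix.sub_mul, h6, (iso_mul_adj hg _).2.2, (iso_mul_adj hg' _).2.2,
      Matrix.mul_smul, Matrix.smul_mul, hs, sub_self]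
  have h6 := congrArg (fun X => (zM ℚ_[l] (adj g))ᵀ * X * zM ℚ_[l] (adj g)) h5
  simp only [Matrix.mul_assoc, (iso_mul_adj hg _).1] at h6
  rw [← Matrix.mul_assoc, ← transpose_mul, (iso_mul_adj hg _).1] at h6
  simp only [transpose_smul, transpose_one, Matrix.smul_mul, Matrix.mul_smul, Matrix.one_mul,
    Matrix.mul_one, Matrix.zero_mul, Matrix.mul_zero, smul_eq_zero, h0, false_or,
    sub_eq_zero] at h6
  refine ⟨1 + (32 : ℤ_[l]) • of Y, h4.symm.trans (congrArg (· * _) h3.symm),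
    Matrix.map_injective (f := PadicInt.Coe.ringHom) Subtype.val_injective ?_, fun i j => ?_⟩
  · simp only [Matrix.map_mul, transpose_map, h3, map_J, Matrix.mul_assoc, h6]
  · rw [add_sub_cancel_left]
    exact Dvd.intro _ rfl

end MG.CB
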