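import Pool.Agent.Lib.MP_33b3f9_ag.MG.CB.Cls
import Pool.Agent.Lib.MP_33b3f9_ag.MG.IDefA

/-!
The totally real subfield of the CM field.
-/

set_option autoImplicit false
set_option linter.unusedSectionVars false

noncomputable section

namespace MG.CB

open NumberField M4 M4.CM Module Polynomial

variable [Dim] {e : ℕ} {a b : MZ} {m n : ℕ} (D : PD e a b m n)

/-- The totally real subfield. -/
abbrev FF : Type := maximalRealSubfield D.E

/-- The inclusion of the totally real subfield. -/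
abbrev iF : FF D →+* D.E := algebraMap (FF D) D.E

/-- Complex conjugation. -/
abbrev cF : D.E →+* D.E := D.bar

theorem mem_FF {x : D.E} : x ∈ maximalRealSubfield D.E ↔ D.bar x = x := by
  obtain ⟨j⟩ : Nonempty (D.E →+* ℂ) := inferInstance
  exact ⟨fun h => j.injective ((D.conj j x).trans (h j)),
    fun h φ => (D.conj φ x).symm.trans (congrArg φ h)⟩

theorem cF_iF : (cF D).comp (iF D) = iF D := RingHom.ext fun x => (mem_FF D).1 x.2

theorem bar_bar (x : D.E) : D.bar (D.bar x) = x := by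
  obtain ⟨j⟩ : Nonempty (D.E →+* ℂ) := inferInstance
  exact j.injective (by rw [D.conj, D.conj, Complex.conj_conj])

theorem ind {Q : D.E → Prop} (h0 : ∀ q : ℚ, Q q) (h1 : Q D.z) (h2 : ∀ x y, Q x → Q y → Q (x + y))
    (h3 : ∀ x y, Q x → Q y → Q (x * y)) (x : D.E) : Q x := by
  have hx : x ∈ Algebra.adjoin ℚ {D.z} := D.gen ▸ Algebra.mem_top
  induction hx using Algebra.adjoin_induction with
  | mem x hx => exact hx ▸ h1
  | algebraMap q => exact h0 q
  | add x y _ _ hx hy => exact h2 x y hx hy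
  | mul x y _ _ hx hy => exact h3 x y hx hy

variable {Ω : Type} [Field Ω] [CharZero Ω]

theorem ext_z {ψ ψ' : D.E →+* Ω} (h : ψ D.z = ψ' D.z) : ψ = ψ' :=
  RingHom.ext (ind D (fun q => by rw [map_ratCast, map_ratCast]) h
    (fun x y hx hy => by rw [map_add, map_add, hx, hy])
    fun x y hx hy => by rw [map_mul, map_mul, hx, hy])

theorem fibre {ψ ψ' : D.E →+* Ω} (h : ψ'.comp (iF D) = ψ.comp (iF D)) :
    ψ' = ψ ∨ ψ' = ψ.comp (cF D) := by
  have h1 : ψ' (D.z + D.bar D.z) = ψ (D.z + D.bar D.z) := RingHom.congr_fun h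
    ⟨D.z + D.bar D.z, (mem_FF D).2 (by rw [map_add, bar_bar, add_comm])⟩
  have h2 := congrArg ψ D.mul
  have h3 := congrArg ψ' D.mul
  rw [map_add, map_add] at h1
  rw [map_mul, map_natCast] at h2 h3
  have h4 : (ψ' D.z - ψ D.z) * (ψ' D.z - ψ (D.bar D.z)) = 0 := by
    linear_combination ψ' D.z * h1 + h2 - h3
  exact (mul_eq_zero.1 h4).imp (fun h => ext_z D (sub_eq_zero.1 h))
    fun h => ext_z D (sub_eq_zero.1 h)

theorem bar_ne : D.bar D.z ≠ D.z := fun h => by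
  obtain ⟨j⟩ : Nonempty (D.E →+* ℂ) := inferInstance
  have h1 : aeval D.z (minpoly ℚ (zM ℚ a)) = 0 := by
    have : Nontrivial (Matrix ν ν ℚ) := inferInstance
    refine D.φ.injective ?_
    rw [map_zero, ← minpoly.aeval ℚ (zM ℚ a), ← D.φz]
    exact (aeval_algHom_apply D.φ.toRatAlgHom _ _).symm
  have h2 := aeval_algHom_apply j.toRatAlgHom D.z (minpoly ℚ (zM ℚ a))
  rw [h1, map_zero] at h2
  exact (D.pel.root _ h2).2 (Complex.conj_eq_iff_im.1 ((D.conj j _).symm.trans (congrArg j h)))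

theorem rank_two : finrank (FF D) D.E = 2 := by
  classical
  obtain ⟨ψ⟩ : Nonempty (D.E →+* ℂ) := inferInstance
  rw [← (ov_spec (E := D.E) (ψ.comp (iF D))).1,
    ← Finset.card_pair (a := ψ) (b := ψ.comp (cF D))
      fun h => bar_ne D (ψ.injective (RingHom.congr_fun h D.z).symm)]
  congr 1
  ext φ
  rw [mem_ov, Finset.mem_insert, Finset.mem_singleton]
  refine ⟨fibre D, ?_⟩
  rintro (rfl | rfl)
  · rfl
  · rw [RingHom.comp_assoc, cF_iF]

theorem rank_E : finrank ℚ D.E = 2 * finrank ℚ (FF D) := by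
  rw [← finrank_mul_finrank ℚ (FF D) D.E, rank_two, mul_comm]

theorem rank_F : finrank ℚ (FF D) = e :=
  Nat.eq_of_mul_eq_mul_left two_pos ((rank_E D).symm.trans D.rank)

theorem exists_P₀ {P : Polynomial D.E} (h : P.map (cF D) = P) :
    ∃ P₀ : Polynomial (FF D), P₀.map (iF D) = P :=
  (mem_lifts P).1 ((lifts_iff_coeff_lifts P).2 fun k =>
    ⟨⟨P.coeff k, (mem_FF D).2 ((coeff_map (cF D) k).symm.trans (congrArg (coeff · k) h))⟩, rfl⟩)

theorem exists_n0 : ∃ n₀ : ℕ, n₀ ≠ 0 ∧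
    ∀ x : D.E, IsIntegral ℤ x → (n₀ : D.E) * x ∈ Algebra.adjoin ℤ {D.z} := by
  let B := PowerBasis.ofAdjoinEqTop (D.int.tower_top (A := ℚ)) D.gen
  have h1 : IsIntegral ℤ B.gen := D.int
  obtain ⟨d, hd⟩ := IsIntegrallyClosed.isIntegral_iff.1
    (Algebra.discr_isIntegral ℚ (R := ℤ) (b := B.basis) fun i => by
      rw [B.basis_eq_pow]
      exact h1.pow _)
  have h2 : d ≠ 0 := fun h => Algebra.discr_not_zero_of_basis ℚ B.basis (by rw [← hd, h, map_zero])
  refine ⟨d.natAbs ^ 2, pow_ne_zero 2 (Int.natAbs_ne_zero.2 h2), fun x hx => ?_⟩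
  have h3 := Algebra.discr_mul_isIntegral_mem_adjoin ℚ h1 hx
  rw [← hd, Algebra.smul_def, ← IsScalarTower.algebraMap_apply, eq_intCast] at h3
  rw [← Int.cast_natCast, Nat.cast_pow, Int.natAbs_sq, sq, Int.cast_mul, mul_assoc]
  exact mul_mem (intCast_mem _ d) h3

theorem exists_ext [IsAlgClosed Ω] (ι : FF D →+* Ω) : ∃ ψ : D.E →+* Ω, ψ.comp (iF D) = ι := by
  obtain ⟨ψ, h⟩ := Finset.card_pos.1 (((ov_spec (E := D.E) ι).1.trans (rank_two D)).symm ▸ two_pos)
  exact ⟨ψ, mem_ov.1 h⟩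

theorem sp2_map [IsAlgClosed Ω] (j : Qb →+* Ω) (Q : Polynomial Qb) : Sp2 (Q.map j) ↔ Sp2 Q := by
  rw [Sp2, Sp2, (IsAlgClosed.splits Q).roots_map j, Multiset.map_map,
    ← Multiset.nodup_map_iff_of_injective j.injective, Multiset.map_map]
  simp only [Function.comp_def, map_pow]

theorem sp2_all [IsAlgClosed Ω] {P : Polynomial D.E} (h : ∀ j : D.E →+* ℂ, Sp2 (P.map j))
    (ψ : D.E →+* Ω) : Sp2 (P.map ψ) := by
  obtain ⟨ψ₁⟩ : Nonempty (D.E →+* Qb) := inferInstance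
  obtain ⟨j, rfl⟩ := exists_comp ψ₁ ψ
  obtain ⟨j', -⟩ := exists_j (Rat.castHom Qb) (Rat.castHom ℂ)
  rw [← Polynomial.map_map, sp2_map, ← sp2_map j', Polynomial.map_map]
  exact h _

end MG.CB
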