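import Pool.Agent.Lib.MP_33b3f9_ag.M4.CmTrans

/-!
Simple extensions of a number field: integral bases of small house, embeddings, descent.
-/

set_option autoImplicit false
set_option linter.unusedSectionVars false

noncomputable section

namespace MG.CB

open NumberField M4 M4.CM Module Polynomial

variable {F : Type} [Field F] [NumberField F]

theorem exists_house {E ι : Type} [Field E] [NumberField E] [Fintype ι] (b : ι → E) :
    ∃ B : ℝ, 1 ≤ B ∧ ∀ (σ : E →+* ℂ) i, ‖σ (b i)‖ ≤ B := by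
  obtain ⟨B, hB⟩ := (Set.finite_range fun q : (E →+* ℂ) × ι => ‖q.1 (b q.2)‖).bddAbove
  exact ⟨max B 1, le_max_right _ _, fun σ i => (hB ⟨(σ, i), rfl⟩).trans (le_max_left _ _)⟩

/-- Integral elements that form a basis over the rational numbers, with conjugates at most `H`. -/
def Small (E : Type) [Field E] [NumberField E] (H : ℝ) : Prop :=
  ∃ (ι : Type) (_ : Fintype ι) (ω : ι → 𝓞 E), Fintype.card ι = finrank ℚ E ∧
    LinearIndependent ℤ ω ∧ ∀ (σ : E →+* ℂ) i, ‖σ (ω i : E)‖ ≤ H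

theorem exists_small (E : Type) [Field E] [NumberField E] : ∃ H, 1 ≤ H ∧ Small E H := by
  obtain ⟨B, h1, h2⟩ := exists_house fun i => ((RingOfIntegers.basis E i : 𝓞 E) : E)
  exact ⟨B, h1, _, inferInstance, RingOfIntegers.basis E,
    by rw [← finrank_eq_card_chooseBasisIndex, RingOfIntegers.rank],
    (RingOfIntegers.basis E).linearIndependent, h2⟩

theorem small_of_pb (F : Type) [Field F] [NumberField F] : ∃ B : ℝ, 1 ≤ B ∧
    ∀ (E : Type) [Field E] [NumberField E] [Algebra F E] (pb : PowerBasis F E) (H : ℝ), 1 ≤ H →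
      IsIntegral ℤ pb.gen → (∀ σ : E →+* ℂ, ‖σ pb.gen‖ ≤ H) → Small E (B * H ^ finrank ℚ E) := by
  obtain ⟨B, h1, h2⟩ := exists_house (integralBasis F)
  refine ⟨B, h1, fun E _ _ _ pb H hH hi hb => ?_⟩
  let c := (integralBasis F).smulTower pb.basis
  have hc : ∀ q, c q = algebraMap F E (integralBasis F q.1) * pb.gen ^ (q.2 : ℕ) := fun q => by
    rw [Basis.smulTower_apply, pb.basis_eq_pow, Algebra.smul_def]
  have hint : ∀ q, IsIntegral ℤ (c q) := fun q => by
    rw [hc, integralBasis_apply]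
    exact ((RingOfIntegers.isIntegral_coe _).map (algebraMap F E).toIntAlgHom).mul (hi.pow _)
  refine ⟨_, inferInstance, fun q => ⟨c q, hint q⟩, (finrank_eq_card_basis c).symm, ?_,
    fun σ q => ?_⟩
  · exact LinearIndependent.of_comp (IsScalarTower.toAlgHom ℤ (𝓞 E) E).toLinearMap
      (c.linearIndependent.restrict_scalars' ℤ)
  · change ‖σ (c q)‖ ≤ _
    rw [hc, map_mul, map_pow, norm_mul, norm_pow]
    refine mul_le_mul (h2 (σ.comp (algebraMap F E)) q.1) ?_ (by positivity) (by positivity)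
    refine (pow_le_pow_left₀ (norm_nonneg _) (hb σ) _).trans (pow_le_pow_right₀ hH ?_)
    rw [← finrank_mul_finrank ℚ F E, pb.finrank]
    exact q.2.is_lt.le.trans (Nat.le_mul_of_pos_left _ finrank_pos)

/-- `y` generates `E` over `F`. -/
def Gen (F : Type) [Field F] {E : Type} [Field E] [Algebra F E] (y : E) : Prop :=
  ∀ (Ω : Type) [Field Ω] (φ φ' : E →+* Ω), φ.comp (algebraMap F E) = φ'.comp (algebraMap F E) →
    φ y = φ' y → φ = φ'

theorem exists_E (F : Type) [Field F] [NumberField F] : ∃ B : ℝ, 1 ≤ B ∧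
    ∀ (ι₁ : F →+* Qb) (y : Qb) (H : ℝ), 1 ≤ H → IsIntegral ℤ y → (∀ j : Qb →+* ℂ, ‖j y‖ ≤ H) →
      ∃ (E : Type) (_ : Field E) (_ : NumberField E) (_ : Algebra F E) (φ₁ : E →+* Qb) (y₀ : E),
        φ₁.comp (algebraMap F E) = ι₁ ∧ φ₁ y₀ = y ∧ Gen F y₀ ∧ Small E (B * H ^ finrank ℚ E) := by
  obtain ⟨B, h1, h2⟩ := small_of_pb F
  refine ⟨B, h1, fun ι₁ y H hH hi hb => ?_⟩
  let _ := ι₁.toAlgebra
  have hy : IsIntegral F y := hi.tower_top
  have := IntermediateField.adjoin.finiteDimensional hy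
  have hN : NumberField (IntermediateField.adjoin F {y}) := NumberField.of_module_finite F _
  let pb := IntermediateField.adjoin.powerBasis hy
  let φ₁ : IntermediateField.adjoin F {y} →+* Qb := (IntermediateField.adjoin F {y}).val.toRingHom
  have hg : φ₁ pb.gen = y := rfl
  refine ⟨_, inferInstance, hN, inferInstance, φ₁, pb.gen, rfl, hg, fun Ω _ φ φ' e1 e2 => ?_,
    h2 _ pb H hH ?_ fun σ => ?_⟩
  · let _ := (φ.comp (algebraMap F _)).toAlgebra
    have h3 := pb.algHom_ext (S' := Ω) (f := ⟨φ, fun _ => rfl⟩)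
      (g := ⟨φ', fun r => (RingHom.congr_fun e1 r).symm⟩) e2
    exact RingHom.ext fun x => AlgHom.congr_fun h3 x
  · exact (isIntegral_algHom_iff φ₁.toIntAlgHom φ₁.injective).1 hi
  · obtain ⟨j, hj⟩ := exists_j φ₁ σ
    rw [← hj, hg]
    exact hb j

section fibre

variable {E Ω : Type} [Field E] [NumberField E] [Algebra F E] [Field Ω] [IsAlgClosed Ω] [CharZero Ω]

open Classical in
/-- The embeddings over `ι`. -/
def ov (E : Type) [Field E] [NumberField E] [Algebra F E] (ι : F →+* Ω) : Finset (E →+* Ω) :=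
  Finset.univ.filter fun φ => φ.comp (algebraMap F E) = ι

theorem mem_ov {ι : F →+* Ω} {φ : E →+* Ω} : φ ∈ ov E ι ↔ φ.comp (algebraMap F E) = ι := by
  simp [ov]

theorem ov_spec (ι : F →+* Ω) :
    (ov E ι).card = finrank F E ∧ ∀ x : E, ∏ φ ∈ ov E ι, φ x = ι (Algebra.norm F x) := by
  let _ := ι.toAlgebra
  have : Module.Finite F E := Module.Finite.of_restrictScalars_finite ℚ F E
  have key : ∀ {M : Type} [CommMonoid M] (G : (E →+* Ω) → M),
      ∏ φ ∈ ov E ι, G φ = ∏ σ : E →ₐ[F] Ω, G σ := by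
    intro M _ G
    exact Finset.prod_bij' (fun φ h => ⟨φ, fun r => RingHom.congr_fun (mem_ov.1 h) r⟩)
      (fun σ _ => (σ : E →+* Ω)) (fun _ _ => Finset.mem_univ _)
      (fun σ _ => mem_ov.2 σ.comp_algebraMap) (fun _ _ => rfl) (fun _ _ => rfl) fun _ _ => rfl
  refine ⟨?_, fun x => (key fun φ => φ x).trans (Algebra.norm_eq_prod_embeddings F Ω x).symm⟩
  have h := key fun _ => Multiplicative.ofAdd (1 : ℕ)
  rw [Finset.prod_const, Finset.prod_const, Finset.card_univ, AlgHom.card] at h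
  simpa using congrArg Multiplicative.toAdd h

end fibre

/-- An algebraic number that is fixed by all embeddings over `F` is in `F`. -/
theorem exists_desc (ι₁ : F →+* Qb) {y : Qb} (h : ∀ j : Qb →+* Qb, j.comp ι₁ = ι₁ → j y = y) :
    ∃ x, ι₁ x = y := by
  let _ := ι₁.toAlgebra
  have : IsScalarTower ℚ F Qb := IsScalarTower.of_algebraMap_eq' (RingHom.ext_rat _ _)
  have : Algebra.IsAlgebraic ℚ Qb := AlgebraicClosure.isAlgebraic ℚ
  have : Algebra.IsAlgebraic F Qb := Algebra.IsAlgebraic.tower_top (K := ℚ) F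
  have : IsAlgClosure F Qb := ⟨inferInstance, inferInstance⟩
  have : IsGalois F Qb := inferInstance
  exact (InfiniteGalois.mem_range_algebraMap_iff_fixed y).2 fun f =>
    h f (f : Qb →ₐ[F] Qb).comp_algebraMap

theorem exists_desc_poly (ι₁ : F →+* Qb) {q : Polynomial Qb}
    (h : ∀ j : Qb →+* Qb, j.comp ι₁ = ι₁ → q.map j = q) :
    ∃ γ : Polynomial F, γ.map ι₁ = q :=
  (mem_lifts q).1 ((lifts_iff_coeff_lifts q).2 fun n => exists_desc ι₁ fun j hj => by
    rw [← coeff_map, h j hj])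

theorem exists_comp {Ω : Type} [Field Ω] [IsAlgClosed Ω] (ι₁ : F →+* Qb) (ι : F →+* Ω) :
    ∃ j : Qb →+* Ω, j.comp ι₁ = ι :=
  (exists_j ι₁ ι).imp fun _ h => RingHom.ext h

end MG.CB
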