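import Pool.Agent.Lib.MP_33b3f9_ag.MG.CB.Ev
import Pool.Agent.Lib.MP_33b3f9_ag.MG.MorE

/-!
The local cubes at a good prime.
-/

set_option autoImplicit false
set_option linter.unusedSectionVars false

noncomputable section

namespace MG.CB

open Matrix M4 M4.CM
open Pool.Agent.M4.Mx hiding sg Om toOm

variable [Dim] {e : ℕ} {a b : MZ} {m n : ℕ} {D : PD e a b m n} {l : ℕ} [Fact l.Prime]

/-- The inclusion in the field of fractions. -/
abbrev cq (l : ℕ) [Fact l.Prime] : ℤ_[l] →+* ℚ_[l] := PadicInt.Coe.ringHom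

/-- The eigenvalues of a pure tensor `A` with polynomial `P`. -/
structure Lc (D : PD e a b m n) (Z : Fm e a b ℤ_[l]) (A : Matrix ν ν ℤ_[l]) (p : ℕ)
    (P : Polynomial (FF D)) where
  /-- the factors -/
  h : Fin e → Fin 3 → M2 ℤ_[l]
  /-- the embeddings -/
  j : Fin e × Fin 2 ≃ (D.E →+* Om l)
  /-- the rational embeddings -/
  jq : Fin e × Fin 2 → D.E →+* ℚ_[l]
  /-- the faces -/
  w : Fin e → Fin 3 → Om l
  im : A = Z.T h
  rat : ∀ η, j η = (al l).comp (jq η)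
  rev : ∀ s c, j (s, c.rev) = (j (s, c)).comp (cF D)
  act : ∀ x, (D.φl l x).map (al l) = (Z.map (toOm l)).z.em2 fun s c => j (s, c) x • (1 : M8 (Om l))
  det : ∀ s, ∏ i, (h s i).det = p
  eg : ∀ s, Eg (fun i => (h s i).map (toOm l)) (w s)
  cu : ∀ s c, Cu p (P.map ((j (s, c)).comp (iF D))) (∏ i, ((h s i).map (toOm l)).trace) (w s)

variable {Z : Fm e a b ℤ_[l]} {A : Matrix ν ν ℤ_[l]} {p : ℕ} {P : Polynomial (FF D)}

theorem exists_Lc (hp : p ≠ 0) {h : Fin e → Fin 3 → M2 ℤ_[l]} (hA : A = Z.T h)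
    (hs : (A.map (cq l))ᵀ * J ι ℚ_[l] * A.map (cq l) = (p : ℚ_[l]) • J ι ℚ_[l])
    (hc : ∀ (j : D.E →+* ℚ_[l]) s c, j D.z = (Z.map (cq l)).z.ζ s c →
      ((Z.map (cq l)).z.pr (A.map (cq l)) s).charpoly = (P.map (iF D)).map j)
    (h2 : ∀ j : D.E →+* ℂ, Sp2 ((P.map (iF D)).map j)) : Nonempty (Lc D Z A p P) := by
  obtain ⟨j, a1, a2, a3⟩ := D.emb (Z.map (toOm l)).z
  obtain ⟨jq, b1, -, -⟩ := D.emb (Z.map (cq l)).z
  have h1 : ∀ η, j η = (al l).comp (jq η) := fun η =>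
    ext_z D ((a1 η.1 η.2).trans (congrArg (al l) (b1 η.1 η.2)).symm)
  have h3 : ∀ s c, (((Z.f s).map (toOm l)).T fun i => (h s i).map (toOm l)).charpoly =
      (P.map (iF D)).map (j (s, c)) := fun s c => by
    have h4 := hc _ s c (b1 s c)
    rw [show (Z.map (cq l)).z.pr (A.map (cq l)) s = (Z.z.pr A s).map (cq l) from
      (Z.z.map_pr _ A s).symm, hA, Fm.T, Mor.pr_em, charpoly_map] at h4
    rw [← Fr.map_T, charpoly_map, h1, ← Polynomial.map_map, ← h4, Polynomial.map_map]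
    rfl
  have h4 : (A.map (toOm l))ᵀ * J ι (Om l) * A.map (toOm l) = (p : Om l) • J ι (Om l) := by
    have h5 := congrArg (·.map (al l)) hs
    simp only [Matrix.map_mul, transpose_map, map_J, map_smul_al, map_natCast] at h5
    exact h5
  rw [hA, Fm.map_T, Fm.T, Mor.sim_iff] at h4
  have h5 : ∀ s, Sp2 (((Z.f s).map (toOm l)).T fun i => (h s i).map (toOm l)).charpoly :=
    fun s => h3 s 0 ▸ sp2_all D h2 _
  have h6 := fun s => cube_det _ _ (Nat.cast_ne_zero.2 hp) (h4 s) (h5 s)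
  choose w hw hw' using fun s => cu_of_T _ _ (h6 s) (h5 s)
  refine ⟨⟨h, j, jq, w, hA, h1, fun s c => RingHom.ext (a2 s c), fun x => ?_, fun s => toOm_inj ?_,
    fun s => ⟨cube_trace _ _ (h5 s), (hw s).w_ne, hw' s⟩, fun s c => ?_⟩⟩
  · rw [← a3]
    ext i k
    exact map_ratCast (al l) _
  · rw [map_natCast, ← h6 s, map_prod]
    exact Finset.prod_congr rfl fun i _ => (toOm l).map_det _
  · rw [← Polynomial.map_map, ← h3]
    exact hw s

namespace Lc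

variable (c : Lc D Z A p P)

/-- The factors over the algebraic closure. -/
abbrev hO (s : Fin e) (i : Fin 3) : M2 (Om l) := (c.h s i).map (toOm l)

/-- The eigenprojectors. -/
abbrev E (η : Eta e) : Matrix ν ν (Om l) := EE (Z.map (toOm l)) c.hO c.w η

theorem blk {s s' : Fin e} {x x' : Fin 2}
    (h : (c.j (s, x)).comp (iF D) = (c.j (s', x')).comp (iF D)) : s = s' := by
  rcases fibre D h with h | h
  · exact congrArg Prod.fst (c.j.injective h)
  · exact congrArg Prod.fst (c.j.injective (h.trans (c.rev s' x').symm))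

theorem blk_eq (s : Fin e) (x : Fin 2) :
    (c.j (s, x)).comp (iF D) = (c.j (s, 0)).comp (iF D) := by
  fin_cases x
  · rfl
  · have h := congrArg (·.comp (iF D)) (c.rev s 0)
    simp only [RingHom.comp_assoc, cF_iF] at h
    exact h

theorem mem (η : Fin e × Fin 2) (x : D.E) : c.j η x ∈ NT.Qp l := ⟨c.jq η x, by rw [c.rat]; rfl⟩

theorem tr (s : Fin e) (i : Fin 3) : (c.hO s i).trace = toOm l (c.h s i).trace :=
  (AddMonoidHom.map_trace (toOm l) _).symm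

theorem sq (s : Fin e) (i : Fin 3) : c.w s i ^ 2 * toOm l (c.h s i).trace ^ 2 =
    toOm l ((c.h s i).trace ^ 2 - 4 * (c.h s i).det) := by
  rw [map_sub, map_pow, map_mul, map_ofNat, ← c.tr, (c.eg s).sq i, RingHom.map_det]
  rfl

theorem eval {K : IntermediateField ℚ ℂ} {r : Rep K} {σ : ℂ ≃ₐ[K] ℂ}
    (c : Lc D Z (r l σ : Matrix ν ν ℤ_[l]) p P) (γ : Polynomial D.E) :
    (D.ev r l σ γ).map (al l) = ∑ η : Eta e, (γ.map (c.j (η.1, η.2.1))).eval
      (vx (∏ i, (c.hO η.1 i).trace) (c.w η.1) η.2.2) • c.E η := by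
  rw [← eval₂_EE _ c.eg (φ := (al l).mapMatrix.comp (D.φl l)) c.act, ← Fm.map_T, ← c.im, PD.ev]
  exact Polynomial.hom_eval₂ γ (D.φl l) ((al l).mapMatrix (m := ν)) _

/-- Traces and discriminants are units. -/
def Un : Prop := ∀ s i, ‖(c.h s i).trace‖ = 1 ∧ ‖(c.h s i).trace ^ 2 - 4 * (c.h s i).det‖ = 1

theorem un {Δ : ℤ} (hl : l ≠ p) (hp : p.Prime) (hΔ : ¬ l ∣ Δ.natAbs)
    (h : (Δ : ℤ_[l]) * ∏ s, ∏ i, (c.h s i).det ^ 2 = ∏ s, ∏ i,
      (p : ℤ_[l]) ^ 2 * (c.h s i).trace ^ 2 * ((c.h s i).trace ^ 2 - 4 * (c.h s i).det)) :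
    c.Un := fun s i => by
  have h1 : IsUnit (p : ℤ_[l]) := PadicInt.isUnit_iff.2 (by
    rw [← norm_toOm, map_natCast]
    exact norm_nat_eq_one fun h => hl ((Nat.prime_dvd_prime_iff_eq Fact.out hp).1 h))
  have h2 : IsUnit (Δ : ℤ_[l]) := PadicInt.isUnit_iff.2 (by
    rw [← norm_toOm, map_intCast]
    exact norm_int_eq_one fun h => hΔ (Int.natCast_dvd.1 h))
  simp only [Finset.prod_pow, c.det] at h
  have h3 := (IsUnit.prod_univ_iff.1 (IsUnit.prod_univ_iff.1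
    (h ▸ h2.mul ((IsUnit.prod_univ_iff.2 fun _ => h1).pow 2)) s)) i
  exact ⟨PadicInt.isUnit_iff.1 ((isUnit_pow_iff two_ne_zero).1
    (isUnit_of_mul_isUnit_right (isUnit_of_mul_isUnit_left h3))),
    PadicInt.isUnit_iff.1 (isUnit_of_mul_isUnit_right h3)⟩

variable {c}

theorem Un.le (h : c.Un) (hl : l ≠ 2) (η : Eta e) : Le (c.E η) 1 :=
  le_EE hl Z (fun _ _ => le_toOm _) (fun s i => by rw [c.tr, norm_toOm, (h s i).1]) (fun s i => by
    have h1 := congrArg norm (c.sq s i)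
    rw [norm_mul, norm_pow, norm_pow, norm_toOm, norm_toOm, (h s i).1, (h s i).2, one_pow,
      mul_one] at h1
    exact (pow_eq_one_iff_of_nonneg (norm_nonneg _) two_ne_zero).1 h1) η

theorem Un.kil (h : c.Un) (hl : l ≠ 2) {q : Fin e × Fin 3} {v : Fin 2 → ZMod l} (hv : v ≠ 0)
    {g : MZ} (hk : Ker g l = slot (Z.map PadicInt.toZMod) q v)
    (hs : wd v ((c.h q.1 q.2).map PadicInt.toZMod *ᵥ v) = 0) :
    ∃ u ∈ NT.Qp l, u ^ 2 = c.w q.1 q.2 ^ 2 ∧ ∀ η : Eta e,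
      (η.1 = q.1 ∧ sg (Om l) (η.2.2 q.2) * c.w q.1 q.2 = u) ∨ (η.1 ≠ q.1 ∧ η.2.1 = 0) →
        Le (zM (Om l) g * c.E η) (l : ℝ)⁻¹ := by
  obtain ⟨h1, x, h2⟩ := left_eig hv hs
  obtain ⟨z, y, h3, h4, h5⟩ := exists_proj hl _ (h q.1 q.2).1 (h q.1 q.2).2 h1 h2
  refine ⟨toOm l z, toOm_mem z, mul_right_cancel₀ (pow_ne_zero 2 ((c.eg q.1).tr q.2)) ?_,
    fun η hη => ?_⟩
  · rw [c.tr, c.sq, ← h3, map_mul, map_pow, map_pow]
  · rw [E, ← T2_EE _ _ _ (k := ks q (y.map (toOm l))), ← Matrix.mul_assoc]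
    · exact ((CB.kil Z hk h5).mul (h.le hl η) (by positivity) zero_le_one).mono (mul_one _).le
    · rcases hη with ⟨h6, h7⟩ | ⟨h6, h7⟩
      · rw [ks, if_pos h6, h6, h4, ← h7]
        funext i
        by_cases hi : i = q.2
        · subst hi
          rw [Pi.mul_apply, Function.update_self]
          exact (c.eg q.1).idem η.2.2 q.2
        · rw [Pi.mul_apply, Function.update_of_ne hi, Pi.one_apply, one_mul]
      · rw [ks, if_neg h6, if_pos h7, one_mul]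

end Lc

end MG.CB
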