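import Pool.Agent.Lib.MP_33b3f9_ag.MG.CB.Loc

/-!
The weights of a similitude at a good prime.
-/

set_option autoImplicit false
set_option linter.unusedSectionVars false

noncomputable section

namespace MG.CB

open Matrix M4 M4.CM
open Pool.Agent.M4.Mx hiding sg Om toOm

variable {l : ℕ} [Fact l.Prime]

theorem exists_lin {f : Om l → Om l} (hf : ∀ (θ : Om l ≃ₐ[ℚ_[l]] Om l) u, θ (f u) = f (θ u))
    {w : Om l} (h0 : w ≠ 0) (h2 : w ^ 2 ∈ NT.Qp l) :
    ∃ x y : ℚ_[l], ∀ a, al l x + al l y * (sg (Om l) a * w) = f (sg (Om l) a * w) := by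
  have h3 : ∀ θ : Om l ≃ₐ[ℚ_[l]] Om l, θ w = w ∨ θ w = -w := fun θ =>
    sq_eq_sq_iff_eq_or_eq_neg.1 ((map_pow θ w 2).symm.trans ((mem_Qp_iff _).1 h2 θ))
  obtain ⟨x, hx⟩ := (mem_Qp_iff ((f w + f (-w)) / 2)).2 fun θ => by
    rw [map_div₀, map_add, hf, hf, map_neg, map_ofNat]
    rcases h3 θ with h | h <;> rw [h]
    rw [neg_neg, add_comm]
  obtain ⟨y, hy⟩ := (mem_Qp_iff ((f w - f (-w)) / (2 * w))).2 fun θ => by
    rw [map_div₀, map_sub, hf, hf, map_neg, map_mul, map_ofNat]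
    rcases h3 θ with h | h <;> rw [h]
    rw [neg_neg, mul_neg, ← neg_sub, neg_div_neg_eq]
  refine ⟨x, y, fun a => ?_⟩
  rw [al, hx, hy]
  fin_cases a <;> simp [sg] <;> field_simp <;> ring

theorem Zm_map (h : M2 ℚ_[l]) (x y : ℚ_[l]) : (x • (1 : M2 ℚ_[l]) + y • Zm h).map (al l) =
    al l x • (1 : M2 (Om l)) + al l y • Zm (h.map (al l)) := by
  rw [Zm, Zm, ← AddMonoidHom.map_trace (al l) h]
  ext i j
  simp only [map_apply, Matrix.add_apply, Matrix.smul_apply, Matrix.sub_apply, smul_eq_mul, map_add,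
    map_mul, map_sub, map_div₀, map_ofNat, one_apply, apply_ite (al l), map_one, map_zero]

variable [Dim] {e : ℕ} {a b : MZ} {m n : ℕ} {D : PD e a b m n} {Z : Fm e a b ℤ_[l]}
  {A : Matrix ν ν ℤ_[l]} {p : ℕ} {P : Polynomial (FF D)}

namespace Lc

variable (c : Lc D Z A p P) (x : Pt (FF D) D.E)

/-- The weight of an eigenspace. -/
def wt (η : Eta e) : ℝ := x.B.wt (c.j (η.1, η.2.1)) *
  ∏ i, x.wa ((c.j (η.1, η.2.1)).comp (iF D)) (sg (Om l) (η.2.2 i) * c.w η.1 i)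

/-- The weights bound the similitude `g`. -/
structure Fit (g : MZ) : Prop where
  nn : ∀ η, 0 ≤ c.wt x η
  le : ∀ η, Le (zM (Om l) g * c.E η) (c.wt x η)
  st : ∀ η, c.wt x η * c.wt x η.star ≤ ‖(x.M : Om l)‖

variable {c x} {g g' : MZ}

theorem Un.away (h : c.Un) (hl : l ≠ 2) (hM : ¬ l ∣ x.M) : c.Fit x g := by
  have h1 : ∀ η, c.wt x η = 1 := fun η => by simp [wt, Pl.wt, Pt.wa, Pt.B, hM]
  refine ⟨fun η => ?_, fun η => ?_, fun η => ?_⟩ <;> simp only [h1]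
  · exact zero_le_one
  · exact (le_zM g).mul_one (h.le hl η)
  · rw [norm_nat_eq_one hM, one_mul]

open Classical in
/-- The embeddings of the first sign in the other blocks. -/
def SS (c : Lc D Z A p P) (s : Fin e) : Finset (D.E →+* Om l) :=
  (Finset.univ.erase s).image fun t => c.j (t, 0)

theorem mem_SS {s t : Fin e} {y : Fin 2} : c.j (t, y) ∈ c.SS s ↔ t ≠ s ∧ y = 0 := by
  simp only [SS, Finset.mem_image, Finset.mem_erase, Finset.mem_univ, and_true,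
    c.j.injective.eq_iff, Prod.mk.injEq]
  exact ⟨fun ⟨_, h1, h2, h3⟩ => ⟨h2 ▸ h1, h3.symm⟩, fun h => ⟨t, h.1, rfl, h.2.symm⟩⟩

theorem card_SS (s : Fin e) : (c.SS s).card ≤ e - 1 := by
  classical
  exact Finset.card_image_le.trans (by simp)

theorem Un.fit (h : c.Un) (hl : l ≠ 2) (hM : l ∣ x.M) (hs : Squarefree x.M) {q : Fin e × Fin 3}
    (h1 : x.ι l = (c.j (q.1, 0)).comp (iF D)) (h2 : x.S l = c.SS q.1)
    (h3 : x.u l ^ 2 = c.w q.1 q.2 ^ 2) (h4 : ∀ η : Eta e,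
      (η.1 = q.1 ∧ sg (Om l) (η.2.2 q.2) * c.w q.1 q.2 = x.u l) ∨ (η.1 ≠ q.1 ∧ η.2.1 = 0) →
        Le (zM (Om l) g * c.E η) (l : ℝ)⁻¹) : c.Fit x g := by
  classical
  obtain ⟨t, ht⟩ := exists_sg h3.symm 1
  rw [sg_one, one_mul] at ht
  have h5 : ∀ η : Eta e, c.wt x η = if (η.1 = q.1 ∧ sg (Om l) (η.2.2 q.2) * c.w q.1 q.2 = x.u l) ∨
      (η.1 ≠ q.1 ∧ η.2.1 = 0) then (l : ℝ)⁻¹ else 1 := by
    rintro ⟨s, y, ε⟩
    simp only [wt, Pl.wt, Pt.wa, Pt.B, hM, true_and, h1, h2, mem_SS]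
    by_cases hq : s = q.1
    · subst hq
      rw [Finset.prod_eq_single q.2 (fun i _ hi => if_neg fun h6 => hi (congrArg Prod.fst
        ((c.cu q.1 0).face_inj (a₁ := (i, ε i)) (a₂ := (q.2, t)) (h6.2.trans ht.symm)))) (by simp)]
      simp [c.blk_eq q.1 y]
    · rw [Finset.prod_eq_one fun i _ => if_neg fun h6 => hq (c.blk h6.1)]
      simp [hq]
  have h6 : (l : ℝ)⁻¹ ≤ 1 := inv_le_one_of_one_le₀ (Nat.one_le_cast.2 (Fact.out : l.Prime).one_le)
  have h7 : (0 : ℝ) ≤ (l : ℝ)⁻¹ := by positivity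
  have h8 : ∀ η, 0 ≤ c.wt x η ∧ c.wt x η ≤ 1 := fun η => by
    rw [h5]
    split_ifs
    exacts [⟨h7, h6⟩, ⟨zero_le_one, le_rfl⟩]
  refine ⟨fun η => (h8 η).1, fun η => ?_, fun η => ?_⟩
  · rw [h5]
    split_ifs with h9
    exacts [h4 η h9, (le_zM g).mul_one (h.le hl η)]
  · rw [norm_sqfree hs hM]
    by_cases h9 : (η.1 = q.1 ∧ sg (Om l) (η.2.2 q.2) * c.w q.1 q.2 = x.u l) ∨
        (η.1 ≠ q.1 ∧ η.2.1 = 0)
    · rw [h5 η, if_pos h9]
      exact mul_le_of_le_one_right h7 (h8 _).2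
    · rw [h5 η.star, if_pos]
      · exact mul_le_of_le_one_left h7 (h8 _).2
      · obtain ⟨s, y, ε⟩ := η
        simp only [Eta.star, not_or, not_and] at h9 ⊢
        refine (em (s = q.1)).imp (fun h => ⟨h, ?_⟩) fun h => ⟨h, ?_⟩
        · have := h9.1 h
          rw [← ht] at this ⊢
          generalize ε q.2 = k at this ⊢
          fin_cases k <;> fin_cases t <;> first | rfl | exact absurd rfl this
        · have := h9.2 h
          fin_cases y <;> first | rfl | exact absurd rfl this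

end Lc

variable {K : IntermediateField ℚ ℂ} {r : Rep K} {σ : ℂ ≃ₐ[K] ℂ}
  {c : Lc D Z (r l σ : Matrix ν ν ℤ_[l]) p P} {x x' : Pt (FF D) D.E} {q : ℕ} {γ : Polynomial D.E}
  {y : D.E} {d : ∀ (l : ℕ) [Fact l.Prime], (FF D →+* Om l) → Om l → Om l} {g g' : MZ}

theorem Rel.le_W (H : Rel (iF D) (cF D) p P q x x' γ y d) (h : c.Fit x g) (h' : c.Fit x' g') :
    Le ((x.M : Om l)⁻¹ • (zM (Om l) g' * (D.ev r l σ γ).map (al l) * zM (Om l) (adj g))) 1 := by
  rw [c.eval]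
  refine CB.le_W c.eg h.nn h'.nn h.le h'.le (fun η => ?_) h.st
  rw [H.val l _ _ _ (c.cu η.1 η.2.1), Lc.wt, Lc.wt, norm_mul, norm_prod, mul_mul_mul_comm,
    ← Finset.prod_mul_distrib, H.szb]
  simp only [H.sza]

theorem Rel.T2 (H : Rel (iF D) (cF D) p P q x x' γ y d)
    (c : Lc D Z (r l σ : Matrix ν ν ℤ_[l]) p P) : ∃ k, D.ev r l σ γ = (Z.map (cq l)).T2 k := by
  have h1 : ∀ (s : Fin e) (t : Fin 2) (i : Fin 3), ∃ u v : ℚ_[l], ∀ a,
      al l u + al l v * (sg (Om l) a * c.w s i) = (if i = 0 then c.j (s, t) y else 1) *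
        d l ((c.j (s, t)).comp (iF D)) (sg (Om l) a * c.w s i) := fun s t i => by
    refine exists_lin (f := fun u => (if i = 0 then c.j (s, t) y else 1) *
      d l ((c.j (s, t)).comp (iF D)) u) (fun θ u => ?_) ((c.eg s).ne i) ?_
    · have h2 : ∀ z, θ (c.j (s, t) z) = c.j (s, t) z := fun z => (mem_Qp_iff _).1 (c.mem _ z) θ
      have h3 := H.gal l (θ : Om l →+* Om l) ((c.j (s, t)).comp (iF D)) u
      rw [show (θ : Om l →+* Om l).comp ((c.j (s, t)).comp (iF D)) = (c.j (s, t)).comp (iF D) from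
        RingHom.ext fun z => h2 _] at h3
      rw [map_mul, apply_ite θ, h2, map_one]
      exact congrArg _ h3
    · have h2 := (c.eg s).tr i
      rw [c.tr] at h2
      rw [eq_div_of_mul_eq (pow_ne_zero 2 h2) (c.sq s i)]
      exact (algebraMap ℚ_[l] (Om l)).fieldRange.div_mem (toOm_mem _)
        ((algebraMap ℚ_[l] (Om l)).fieldRange.pow_mem (toOm_mem _) 2)
  choose u v huv using h1
  refine ⟨fun s t i => u s t i • (1 : M2 ℚ_[l]) + v s t i • Zm ((c.h s i).map (cq l)),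
    Matrix.map_injective (al l).injective ?_⟩
  change _ = ((Z.map (cq l)).T2 _).map (al l)
  rw [Fm.map_T2]
  simp only [Zm_map]
  refine (c.eval γ).trans (Eq.trans ?_ (T2_EE_sum (Z.map (toOm l)) c.eg _ _).symm)
  refine Finset.sum_congr rfl fun η _ => ?_
  rw [H.val l _ _ _ (c.cu η.1 η.2.1)]
  simp only [huv, Finset.prod_mul_distrib, Finset.prod_ite_eq', Finset.mem_univ, if_true]

end MG.CB
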