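import Pool.Agent.Lib.MP_33b3f9_ag.M4.NTInert
import Pool.Agent.Lib.MP_33b3f9_ag.MG.CB.Pts

/-!
The class bound.
-/

set_option autoImplicit false
set_option linter.unusedSectionVars false

noncomputable section

namespace MG.CB

open Matrix M4 M4.CM
open Pool.Agent.M4.Mx hiding sg Om toOm

variable {L : Type} [Field L] {l₁ : ℕ}

theorem exists_extend {T : ∀ (l : ℕ) [Fact l.Prime], Type}
    (h : ∀ (l : ℕ) [Fact l.Prime], Nonempty (T l)) (f : ∀ l : GP L l₁, T l.1) :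
    ∃ g : ∀ (l : ℕ) [Fact l.Prime], T l, ∀ l : GP L l₁, g l.1 = f l := by
  classical
  exact ⟨fun l _ => if hl : l.Prime ∧ l₁ < l ∧ NT.Spl L l then f ⟨l, hl⟩ else (h l).some,
    fun l => dif_pos l.2⟩

theorem ne_two {l : ℕ} (h : l ≡ 1 [MOD 32]) : ¬ l ∣ 32 ∨ l = 1 := by
  by_contra h1
  push Not at h1
  have h2 := Nat.le_of_dvd (by norm_num) h1.1
  have h3 := h1.2
  unfold Nat.ModEq at h
  omega

variable [Dim] {e : ℕ} {a b : MZ} {m n : ℕ} {D : PD e a b m n} {K : IntermediateField ℚ ℂ}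
  {r : Rep K} {F : Frs e a b L l₁} {p : ℕ} {σ : ℂ ≃ₐ[K] ℂ} {P : Polynomial (FF D)}

theorem Sys_32 (hS : Sys F r) (l : GP L l₁) : ¬ l.1 ∣ 32 ∧ l.1 ≠ 2 := by
  have h := (ne_two (hS.l32 l)).resolve_right l.2.1.ne_one
  exact ⟨h, fun e => h (by rw [e]; norm_num)⟩

theorem exists_pt (hS : Sys F r) (hp : p.Prime)
    (c : ∀ l : GP L l₁, l.1 ≠ p → Lc D (F l) (r l.1 σ : Matrix ν ν ℤ_[l.1]) p P)
    {sl : GP L l₁ → Fin e × Fin 3} {LL : Set (GP L l₁)} {ι₁ : FF D →+* Qb} {y : Qb}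
    (hL : ∀ l ∈ LL, ∃ hl : l.1 ≠ p, (c l hl).Un ∧ ∃ j : Qb →+* Om l.1,
      j.comp ι₁ = ((c l hl).j ((sl l).1, 0)).comp (iF D) ∧
        j y ^ 2 = (c l hl).w (sl l).1 (sl l).2 ^ 2)
    {g : MZ} {M : ℕ} (hg : Good F r σ sl LL g M) : ∃ x : Pt (FF D) D.E, x.M = M ∧
      x.Ok (iF D) (cF D) ι₁ y p ∧ ∀ l ∈ LL, ∀ hl : l.1 ≠ p, (c l hl).Fit x g := by
  have h0 : ∀ (l : ℕ) [Fact l.Prime],
      Nonempty ((FF D →+* Om l) × Om l × Finset (D.E →+* Om l)) := fun _ _ => inferInstance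
  have h1 : ∀ l : GP L l₁, ∃ t : (FF D →+* Om l.1) × Om l.1 × Finset (D.E →+* Om l.1),
      l ∈ LL → l.1 ∣ M → ∀ hl : l.1 ≠ p, t.1 = ((c l hl).j ((sl l).1, 0)).comp (iF D) ∧
        t.2.2 = (c l hl).SS (sl l).1 ∧ t.2.1 ∈ NT.Qp l.1 ∧
        t.2.1 ^ 2 = (c l hl).w (sl l).1 (sl l).2 ^ 2 ∧ ∀ η : Eta e,
          (η.1 = (sl l).1 ∧ sg (Om l.1) (η.2.2 (sl l).2) * (c l hl).w (sl l).1 (sl l).2 = t.2.1) ∨
            (η.1 ≠ (sl l).1 ∧ η.2.1 = 0) → Le (zM (Om l.1) g * (c l hl).E η) (l.1 : ℝ)⁻¹ := by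
    intro l
    by_cases h : l ∈ LL ∧ l.1 ∣ M
    · obtain ⟨hl, h2, -⟩ := hL l h.1
      obtain ⟨w, h3, h4, h5⟩ := hg.ker l h.1 h.2
      obtain ⟨u, h6, h7, h8⟩ := h2.kil (Sys_32 hS l).2 h3 h4 (h5 _ (c l hl).im)
      exact ⟨⟨((c l hl).j ((sl l).1, 0)).comp (iF D), u, (c l hl).SS (sl l).1⟩,
        fun _ _ _ => ⟨rfl, rfl, h6, h7, h8⟩⟩
    · exact ⟨(h0 l.1).some, fun h2 h3 => absurd ⟨h2, h3⟩ h⟩
  choose t ht using h1
  obtain ⟨T, hT⟩ := exists_extend h0 t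
  simp only [← hT] at ht
  refine ⟨⟨M, fun l _ => (T l).1, fun l _ => (T l).2.1, fun l _ => (T l).2.2⟩, rfl,
    ⟨⟨hg.iso.1.1, fun l _ h => ?_⟩, fun h => ?_, fun l _ h => ?_, fun l _ h ψ => ?_⟩,
    fun l h hl => ?_⟩
  · obtain ⟨l', h1, rfl⟩ := hg.sup l Fact.out h
    obtain ⟨hl, -⟩ := hL l' h1
    have h2 : (T l'.1).2.2 = _ := (ht l' h1 h hl).2.1
    change (T l'.1).2.2.card ≤ _ ∧ ∀ φ ∈ (T l'.1).2.2, _
    rw [h2, rank_F]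
    refine ⟨Lc.card_SS _, fun φ _ z => ?_⟩
    obtain ⟨η, rfl⟩ := (c l' hl).j.surjective φ
    exact (c l' hl).mem η z
  · obtain ⟨l', h1, h2⟩ := hg.sup p hp h
    exact (hL l' h1).1 h2
  · obtain ⟨l', h1, rfl⟩ := hg.sup l Fact.out h
    obtain ⟨hl, -, j, h2, h3⟩ := hL l' h1
    obtain ⟨h4, -, h5, h6, -⟩ := ht l' h1 h hl
    exact ⟨fun z => (congrArg (· z ∈ _) h4).mpr ((c l' hl).mem _ _), h5, j, h2.trans h4.symm,
      h3.trans h6.symm⟩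
  · obtain ⟨l', h1, rfl⟩ := hg.sup l Fact.out h
    obtain ⟨hl, -⟩ := hL l' h1
    obtain ⟨h4, h5, -⟩ := ht l' h1 h hl
    obtain ⟨⟨s, z⟩, rfl⟩ := (c l' hl).j.surjective ψ
    change _ = (T l'.1).1 ∨ _ ∈ (T l'.1).2.2 ∨ _ ∈ (T l'.1).2.2
    rw [h4, h5, ← (c l' hl).rev, Lc.mem_SS, Lc.mem_SS]
    by_cases hs : s = (sl l').1
    · exact Or.inl (hs ▸ (c l' hl).blk_eq s z)
    · fin_cases z
      exacts [Or.inr (Or.inl ⟨hs, rfl⟩), Or.inr (Or.inr ⟨hs, rfl⟩)]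
  · obtain ⟨_, h1, -⟩ := hL l h
    by_cases hM : l.1 ∣ M
    · obtain ⟨h4, h5, -, h6, h7⟩ := ht l h hM hl
      exact h1.fit (Sys_32 hS l).2 hM hg.iso.1.1 h4 h5 h6 h7
    · exact h1.away (Sys_32 hS l).2 hM

theorem gc_of (hW : Weil D r p σ (P.map (iF D))) {l : ℕ} [Fact l.Prime] {Z : Fm e a b ℤ_[l]}
    {A : Matrix ν ν ℤ_[l]} (c : Lc D Z A p P) : GC p P := by
  refine ⟨fun k => ?_, fun ι z h => ?_, cu_of_loc (c.cu ⟨0, D.pel.pos⟩ 0)⟩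
  · have h := hW.int k
    rw [Polynomial.coeff_map] at h
    exact (isIntegral_algHom_iff (iF D).toIntAlgHom (iF D).injective).1 h
  · obtain ⟨ψ, rfl⟩ := exists_ext D ι
    exact hW.weil ψ z (by rwa [← Polynomial.eval_map, Polynomial.map_map])

end MG.CB

namespace MG

open Matrix M4 M4.CM CB Polynomial

variable [Dim] {e : ℕ} {a b : MZ} {m n : ℕ} {τ : Mat} {K : IntermediateField ℚ ℂ} {r : Rep K}
  {L : Type} [Field L] {l₁ N₀ : ℕ}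

theorem cb (D : PD e a b m n) {F : Frs e a b L l₁} [NumberField L] (hS : Sys F r)
    (hc : COMM a b r) : CBst τ D F r N₀ := by
  obtain ⟨C₀, hC⟩ := classes (cF_iF D) (rank_E D)
  obtain ⟨n₀, hn0, hn⟩ := exists_n0 D
  refine ⟨12 * e + (32 * n₀ + N₀ + 1) * C₀, fun p _ v σ P Δ hF hR sl => ?_⟩
  obtain ⟨P₀, rfl⟩ := exists_P₀ D hR.real
  have hp : p.Prime := Fact.out
  have hL : ∀ l : GP L l₁, l.1 ≠ p →
      Nonempty (Lc D (F l) (r l.1 σ : Matrix ν ν ℤ_[l.1]) p P₀) := fun l hl => by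
    obtain ⟨h, hh⟩ := hS.im l σ
    exact exists_Lc hp.ne_zero hh (hF.mult l.1 hl) (hR.char l hl) hR.sp2
  obtain ⟨c, -⟩ : ∃ c, c = fun l hl => (hL l hl).some := ⟨_, rfl⟩
  obtain ⟨l₀, a1, a2, a3, -⟩ := NT.exists_split L (l₁ + p + 1)
  have G : GC p P₀ := gc_of hR.weil (c ⟨l₀, a2.out, by omega, a3⟩ (show l₀ ≠ p by omega))
  obtain ⟨ι₁, s₁, w₁, hcu⟩ := G.cu
  have h1 : ∀ l : GP L l₁, ∃ i : Fin 3, ∀ hl : l.1 ≠ p, ∃ j : Qb →+* Om l.1,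
      j.comp ι₁ = ((c l hl).j ((sl l).1, 0)).comp (iF D) ∧
        j (w₁ i) ^ 2 = (c l hl).w (sl l).1 (sl l).2 ^ 2 := fun l => by
    by_cases hl : l.1 = p
    · exact ⟨0, fun h => absurd hl h⟩
    · obtain ⟨i, t, j, h2, h3⟩ := exists_idx hcu ((c l hl).cu (sl l).1 0) (sl l).2
      exact ⟨i, fun _ => ⟨j, h2, by rw [h3, mul_pow, sg_sq, one_mul]⟩⟩
  choose idx hidx using h1
  refine ⟨Δ.natAbs, idx, Int.natAbs_ne_zero.2 hR.ne,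
    hR.bd.trans (Nat.pow_le_pow_right hp.pos (Nat.le_add_right _ _)), fun i => ?_⟩
  obtain ⟨h, cl, Γ, hh, hcl⟩ := hC p P₀ G ι₁ s₁ w₁ hcu i (32 * n₀ * p ^ N₀)
    (mul_ne_zero (mul_ne_zero (by norm_num) hn0) (pow_ne_zero _ hp.ne_zero))
  generalize hLL : {l : GP L l₁ | idx l = i ∧ ¬ l.1 ∣ Δ.natAbs ∧ l.1 ≠ p} = LL
  have h2 : ∀ l ∈ LL, ∃ hl : l.1 ≠ p, (c l hl).Un ∧ ∃ j : Qb →+* Om l.1,
      j.comp ι₁ = ((c l hl).j ((sl l).1, 0)).comp (iF D) ∧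
        j (w₁ i) ^ 2 = (c l hl).w (sl l).1 (sl l).2 ^ 2 := by
    subst hLL
    rintro l ⟨rfl, h3, hl⟩
    exact ⟨hl, (c l hl).un hl hp h3 (hR.disc l hl _ (c l hl).im), hidx l hl⟩
  have h3 : ∀ g M, ∃ x : Pt (FF D) D.E, Good F r σ sl LL g M → x.M = M ∧
      x.Ok (iF D) (cF D) ι₁ (w₁ i) p ∧ ∀ l ∈ LL, ∀ hl : l.1 ≠ p, (c l hl).Fit x g := fun g M => by
    by_cases hg : Good F r σ sl LL g M
    · exact (exists_pt hS hp c h2 hg).imp fun x hx _ => hx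
    · exact ⟨⟨0, fun _ _ => Classical.arbitrary _, fun _ _ => 0, fun _ _ => ∅⟩,
        fun h => absurd h hg⟩
  choose pt hpt using h3
  refine ⟨h, fun g M => cl (pt g M), fun g M l _ => D.ev r l σ (Γ (pt g M)), hh.trans ?_,
    fun g M g' M' hg hg' he => ?_⟩
  · refine le_trans ?_ (Nat.pow_le_pow_right hp.pos (Nat.le_add_left _ _))
    rw [pow_mul, pow_succ, pow_add]
    exact Nat.pow_le_pow_left (Nat.mul_le_mul_right _ (Nat.mul_le_mul_right _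
      (Nat.lt_pow_self hp.one_lt).le)) _
  obtain ⟨b1, b2, b3⟩ := hpt g M hg
  obtain ⟨c1, c2, c3⟩ := hpt g' M' hg'
  obtain ⟨⟨Γ', d1⟩, γ, y, d, d2, H⟩ := hcl _ _ b2 c2 he
  obtain ⟨R, hR'⟩ := exists_R hp.ne_zero hR.weil
  have d3 := H.mul R hR'
  have d4 := H.int
  have d5 := H.cong
  rw [b1, c1] at d3 d5
  rw [c1] at d4
  have e0 : (p : D.E) ^ N₀ ≠ 0 := pow_ne_zero _ (Nat.cast_ne_zero.2 hp.ne_zero)
  have e1 : (M' : D.E) ≠ 0 := Nat.cast_ne_zero.2 hg'.iso.1.1.ne_zero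
  have e2 : (n₀ : D.E) ≠ 0 := Nat.cast_ne_zero.2 hn0
  obtain ⟨δ, hδ⟩ : ∃ δ, δ = C ((M' : D.E) ^ 4 / (32 * p ^ N₀)) * (γ - 1) := ⟨_, rfl⟩
  have e3 : ∀ k, δ.coeff k ∈ Algebra.adjoin ℤ {D.z} := fun k => by
    refine (congrArg (· ∈ _) ?_).mp (hn _ (d4 k))
    rw [hδ, coeff_C_mul]
    push_cast
    field_simp
  have e4 : 1 + C ((p : D.E) ^ N₀ / (M' ^ 4 : ℕ)) * (C 32 * δ) = γ := by
    rw [hδ, ← mul_assoc, ← mul_assoc, ← map_mul, ← map_mul,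
      show (p : D.E) ^ N₀ / (M' ^ 4 : ℕ) * 32 * ((M' : D.E) ^ 4 / (32 * p ^ N₀)) = 1 by
        push_cast; field_simp, map_one, one_mul, add_sub_cancel]
  have e5 : ∀ (l : ℕ) [Fact l.Prime], ∃ W : Matrix ν ν ℤ_[l], l ≠ p →
      zM ℚ_[l] g' * D.ev r l σ γ = W.map ((↑) : ℤ_[l] → ℚ_[l]) * zM ℚ_[l] g ∧
      Wᵀ * J ι ℤ_[l] * W = J ι ℤ_[l] ∧ ∀ i j, (32 : ℤ_[l]) ∣ (W - 1) i j := fun l _ => by
    by_cases hl : l = p
    · exact ⟨0, fun h => absurd hl h⟩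
    refine (exists_W hg.iso hg'.iso
      (evH_sim (hc := hc) hp.ne_zero (hR.weil.zero l hl) (hF.mult l hl) hR' d3) ?_).imp
        fun W hW _ => hW
    by_cases hM : l ∣ M ∨ l ∣ M'
    · obtain ⟨l', f1, rfl⟩ := hM.elim (hg.sup l Fact.out) (hg'.sup l Fact.out)
      have f2 := H.le_W (b3 l' f1 hl) (c3 l' f1 hl)
      rw [b1] at f2
      exact (f2.sub Le.one).mono (norm_nat_eq_one (n := 32) (Sys_32 hS l').1).ge
    · refine le_away hg.iso hg'.iso (fun h => hM (Or.inl h)) ?_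
      have f1 : ((p : D.E) ^ N₀ / (M' ^ 4 : ℕ)) * 32 = ((p ^ N₀ / M' ^ 4 * 32 : ℚ) : D.E) := by
        push_cast
        rfl
      rw [← e4, ← mul_assoc, ← map_mul, f1, map_add, map_one, map_mul, evH_C, phi_rat,
        Matrix.smul_mul, Matrix.one_mul, ← RingHom.mapMatrix_apply, map_add, map_one,
        add_sub_cancel_left, RingHom.mapMatrix_apply, map_smul_al, map_ratCast]
      refine ((le_ev e3).smul _).mono ?_
      push_cast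
      rw [mul_one, norm_mul, norm_div, norm_pow, norm_pow,
        norm_nat_eq_one fun h => hM (Or.inr h), one_pow, div_one]
      exact mul_le_of_le_one_left (norm_nonneg _) (pow_le_one₀ (norm_nonneg _) (nat_le l p))
  choose W hW using e5
  refine ⟨d5.of_mul_left _, C 32 * δ, M' ^ 4, W, fun k => ?_,
    fun h => c2.np (c1.symm ▸ hp.dvd_of_dvd_pow h), fun l _ hl => ?_, fun l hl => ?_⟩
  · rw [coeff_C_mul]
    exact mul_mem (ofNat_mem _ 32) (Algebra.adjoin_mono (by simp) (e3 k))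
  · have f1 := evH_eq (hc := hc) (hR.weil.zero l hl) d1
    have f2 := evH_eq (hc := hc) (hR.weil.zero l hl) d2
    rw [map_mul] at f1 f2
    rw [map_one] at f1
    rw [e4]
    exact ⟨IsUnit.of_mul_eq_one _ f1, f2, hW l hl⟩
  · rw [e4]
    exact H.T2 (c l hl)

end MG
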