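import Pool.Agent.Lib.MP_33b3f9_ag.M4.CmEmb
import Pool.Agent.Lib.MP_33b3f9_ag.M4.NTIdc
import Pool.Agent.Lib.MP_33b3f9_ag.MG.CB.Cube
import Pool.Agent.Lib.MP_33b3f9_ag.MG.CB.Fld

/-!
The reflex norm from the field of a face, and the discriminant of the cube.
-/

set_option autoImplicit false
set_option linter.unusedSectionVars false

noncomputable section

namespace MG.CB

open NumberField M4 M4.CM Module Polynomial
open Pool.Agent.M4.Mx hiding sg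

variable {F : Type} [Field F] [NumberField F]

/-- A Weil polynomial over `F` whose roots form a cube. -/
structure GC (p : ℕ) (P : Polynomial F) : Prop where
  int : ∀ k, IsIntegral ℤ (P.coeff k)
  weil : ∀ (ι : F →+* ℂ) (z : ℂ), (P.map ι).eval z = 0 → ‖z‖ ^ 2 = p
  cu : ∃ (ι : F →+* Qb) (s : Qb) (w : Fin 3 → Qb), Cu p (P.map ι) s w

variable {p : ℕ} {P : Polynomial F} {Ω : Type} [Field Ω] [IsAlgClosed Ω] [CharZero Ω]

theorem cu_of_loc {ι : F →+* Ω} {s : Ω} {w : Fin 3 → Ω} (h : Cu p (P.map ι) s w) :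
    ∃ (ι : F →+* Qb) (s : Qb) (w : Fin 3 → Qb), Cu p (P.map ι) s w := by
  obtain ⟨j, -⟩ := exists_j (Rat.castHom Qb) (Rat.castHom Ω)
  obtain ⟨ι₁, rfl⟩ := (comp_bij (F := F) j).2 ι
  rw [← Polynomial.map_map] at h
  obtain ⟨s₀, w₀, h0, -⟩ := h.desc
  exact ⟨ι₁, s₀, w₀, h0⟩

theorem cu_push {ι₁ : F →+* Qb} {s : Qb} {w : Fin 3 → Qb} (h : Cu p (P.map ι₁) s w)
    (j : Qb →+* Ω) : Cu p (P.map (j.comp ι₁)) (j s) fun i => j (w i) :=
  Polynomial.map_map ι₁ j P ▸ h.map j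

theorem GC.cu_at (G : GC p P) (ι : F →+* Ω) : ∃ s w, Cu p (P.map ι) s w := by
  obtain ⟨ι₁, s, w, h⟩ := G.cu
  obtain ⟨j, rfl⟩ := exists_comp ι₁ ι
  exact ⟨_, _, cu_push h j⟩

theorem GC.root_int (G : GC p P) {ι : F →+* Ω} {z : Ω} (h : (P.map ι).eval z = 0) :
    IsIntegral ℤ z := by
  obtain ⟨ι₁, s, w, h1⟩ := G.cu
  have hm : P.Monic := monic_of_injective ι₁.injective h1.monic
  obtain ⟨P₀, h2, -, h3⟩ := lifts_and_natDegree_eq_and_monic
    ((lifts_iff_coeff_lifts (f := algebraMap (𝓞 F) F) P).2 fun k => ⟨⟨_, G.int k⟩, rfl⟩) hm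
  let _ := (ι.comp (algebraMap (𝓞 F) F)).toAlgebra
  refine isIntegral_trans (A := 𝓞 F) z ⟨P₀, h3, ?_⟩
  rw [← h2, Polynomial.map_map, eval_map] at h
  exact h

/-- The opposite vertex. -/
theorem vx_rev {Q : Polynomial Ω} {s : Ω} {w : Fin 3 → Ω} (h : Cu p Q s w) (ε : κ) :
    vx s w ε * vx s w (fun i => (ε i).rev) = p := by
  have h1 : ∀ i, (1 + sg Ω (ε i) * w i) * (1 + sg Ω (ε i).rev * w i) = 1 - w i ^ 2 := fun i => by
    generalize ε i = a
    fin_cases a <;> simp [sg] <;> ring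
  rw [vx, vx, mul_mul_mul_comm, ← Finset.prod_mul_distrib, Finset.prod_congr rfl fun i _ => h1 i]
  linear_combination (1 / 64 : Ω) * h.nrm

variable {E : Type} [Field E] [NumberField E] [Algebra F E]

/-- `w₀` generates `E` and is a face of the cube of `P`. -/
structure FD (p : ℕ) (P : Polynomial F) (w₀ : E) : Prop where
  gen : Gen F w₀
  face : ∀ (Ω : Type) [Field Ω] [IsAlgClosed Ω] [CharZero Ω] (φ : E →+* Ω) (s : Ω)
    (w : Fin 3 → Ω), Cu p (P.map (φ.comp (algebraMap F E))) s w → ∃ i a, sg Ω a * w i = φ w₀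

theorem FD.rank_le {w₀ : E} (G : GC p P) (h : FD p P w₀) : finrank F E ≤ 6 := by
  obtain ⟨ι, s, w, h1⟩ := G.cu
  have h2 : ∀ φ : ov E ι, ∃ q : Fin 3 × Fin 2, sg Qb q.2 * w q.1 = φ.1 w₀ := fun φ => by
    obtain ⟨i, a, h3⟩ := h.face Qb φ.1 s w (by rwa [mem_ov.1 φ.2])
    exact ⟨(i, a), h3⟩
  choose c hc using h2
  have h3 := Fintype.card_le_of_injective c fun φ φ' e => Subtype.ext
    (h.gen Qb _ _ ((mem_ov.1 φ.2).trans (mem_ov.1 φ'.2).symm) (by rw [← hc, ← hc, e]))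
  rw [Fintype.card_coe, (ov_spec ι).1] at h3
  simpa using h3

open Classical in
/-- The value of `a` at the face `u`. -/
def Dv (w₀ a : E) (ι : F →+* Ω) (u : Ω) : Ω := ∏ φ ∈ (ov E ι).filter fun φ => φ w₀ = u, φ a

theorem comp_bij' {Ω' : Type} [Field Ω'] [IsAlgClosed Ω'] [CharZero Ω'] (j : Ω →+* Ω') :
    Function.Bijective fun s : E →+* Ω => j.comp s :=
  (Fintype.bijective_iff_injective_and_card _).2 ⟨fun _ _ h => (RingHom.cancel_left j.injective).1 h,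
    by rw [Embeddings.card, Embeddings.card]⟩

theorem Dv_map {Ω' : Type} [Field Ω'] [IsAlgClosed Ω'] [CharZero Ω'] (w₀ a : E) (j : Ω →+* Ω')
    (ι : F →+* Ω) (u : Ω) : j (Dv w₀ a ι u) = Dv w₀ a (j.comp ι) (j u) := by
  classical
  rw [Dv, Dv, map_prod]
  refine Finset.prod_bijective _ (comp_bij' (E := E) j) (fun φ => ?_) fun _ _ => rfl
  simp only [Finset.mem_filter, mem_ov, RingHom.comp_assoc, RingHom.comp_apply,
    j.injective.eq_iff, RingHom.cancel_left j.injective]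

theorem Dv_mul (w₀ a a' : E) (ι : F →+* Ω) (u : Ω) :
    Dv w₀ (a * a') ι u = Dv w₀ a ι u * Dv w₀ a' ι u := by
  simp only [Dv, map_mul, Finset.prod_mul_distrib]

theorem Dv_unit (w₀ : E) (ι : F →+* Ω) (u : Ω) : Dv w₀ 1 ι u = 1 := by
  simp only [Dv, map_one, Finset.prod_const_one]

theorem Dv_eq {w₀ : E} (h : Gen F w₀) (a : E) (φ : E →+* Ω) :
    Dv w₀ a (φ.comp (algebraMap F E)) (φ w₀) = φ a := by
  classical
  refine Finset.prod_eq_single_of_mem φ (Finset.mem_filter.2 ⟨mem_ov.2 rfl, rfl⟩) fun ψ hψ hne => ?_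
  exact absurd (h Ω _ _ (mem_ov.1 (Finset.mem_filter.1 hψ).1) (Finset.mem_filter.1 hψ).2) hne

theorem Dv_one {w₀ : E} (a : E) {ι : F →+* Ω} {u : Ω}
    (h : ∀ φ : E →+* Ω, φ.comp (algebraMap F E) = ι → φ w₀ ≠ u) : Dv w₀ a ι u = 1 := by
  classical
  exact Finset.prod_eq_one fun φ hφ =>
    absurd (Finset.mem_filter.1 hφ).2 (h φ (mem_ov.1 (Finset.mem_filter.1 hφ).1))

theorem Dv_all {w₀ : E} (h : FD p P w₀) (a : E) {ι : F →+* Ω} {s : Ω} {w : Fin 3 → Ω}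
    (hc : Cu p (P.map ι) s w) (ε : κ) :
    (∏ i, Dv w₀ a ι (sg Ω (ε i) * w i)) * ∏ i, Dv w₀ a ι (sg Ω (ε i).rev * w i) =
      ι (Algebra.norm F a) := by
  classical
  have h1 : ∀ i, Dv w₀ a ι (sg Ω (ε i) * w i) * Dv w₀ a ι (sg Ω (ε i).rev * w i) =
      ∏ b, Dv w₀ a ι (sg Ω b * w i) := fun i => by
    generalize ε i = b
    rw [Fin.prod_univ_two]
    fin_cases b
    · rfl
    · exact mul_comm _ _
  rw [← Finset.prod_mul_distrib, Finset.prod_congr rfl fun i _ => h1 i, ← Fintype.prod_prod_type',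
    ← (ov_spec ι).2 a, ← Finset.prod_image (f := fun u => Dv w₀ a ι u) hc.face_inj.injOn]
  refine Finset.prod_fiberwise_of_maps_to (g := fun φ : E →+* Ω => φ w₀) (fun φ hφ => ?_) _
  obtain ⟨i, b, h2⟩ := h.face Ω φ s w (by rwa [mem_ov.1 hφ])
  exact Finset.mem_image.2 ⟨(i, b), Finset.mem_univ _, h2⟩

/-- The reflex norm of `a` is a polynomial over `F`. -/
theorem GC.exists_gamma (G : GC p P) (w₀ a : E) : ∃ γ : Polynomial F, γ.degree < 8 ∧
    ∀ (Ω : Type) [Field Ω] [IsAlgClosed Ω] [CharZero Ω] (ι : F →+* Ω) (s : Ω) (w : Fin 3 → Ω),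
      Cu p (P.map ι) s w → ∀ ε, (γ.map ι).eval (vx s w ε) = ∏ i, Dv w₀ a ι (sg Ω (ε i) * w i) := by
  classical
  obtain ⟨ι₁, s₁, w₁, h⟩ := G.cu
  let q := Lagrange.interpolate Finset.univ (vx s₁ w₁)
    fun ε => ∏ i, Dv w₀ a ι₁ (sg Qb (ε i) * w₁ i)
  have hd : q.degree < (Finset.univ : Finset κ).card := Lagrange.degree_interpolate_lt _ h.inj'.injOn
  have key : ∀ (Ω : Type) [Field Ω] [IsAlgClosed Ω] [CharZero Ω] (j : Qb →+* Ω) (s : Ω)
      (w : Fin 3 → Ω), Cu p (P.map (j.comp ι₁)) s w → ∀ ε,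
        (q.map j).eval (vx s w ε) = ∏ i, Dv w₀ a (j.comp ι₁) (sg Ω (ε i) * w i) := by
    intro Ω _ _ _ j s w hc ε
    have h1 := cu_push h j
    obtain ⟨ε', e⟩ := (h1.root_iff _).1 (hc.root ε)
    rw [hc.rigid h1 e, e, ← vx_map, eval_map_apply,
      Lagrange.eval_interpolate_at_node _ h.inj'.injOn (Finset.mem_univ _), map_prod]
    exact Finset.prod_congr rfl fun i _ => by rw [Dv_map, map_mul, sg_map]
  obtain ⟨γ, hγ⟩ := exists_desc_poly ι₁ (q := q) fun j hj =>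
    Lagrange.eq_interpolate_of_eval_eq _ h.inj'.injOn (by rwa [degree_map]) fun ε _ => by
      have h1 := key Qb j s₁ w₁ (by rwa [hj]) ε
      rwa [hj] at h1
  refine ⟨γ, ?_, fun Ω _ _ _ ι s w hc ε => ?_⟩
  · rw [← hγ, degree_map] at hd
    simpa using hd
  · obtain ⟨j, rfl⟩ := exists_comp ι₁ ι
    rw [← Polynomial.map_map, hγ]
    exact key Ω j s w hc ε

/-- The discriminant of the squares of the vertices. -/
def dsc (s : Ω) (w : Fin 3 → Ω) : Ω :=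
  ∏ ε, ∏ ε' ∈ Finset.univ.erase ε, (vx s w ε ^ 2 - vx s w ε' ^ 2)

theorem Cu.dsc_eq {Q : Polynomial Ω} {s s' : Ω} {w w' : Fin 3 → Ω} (h : Cu p Q s w)
    (h' : Cu p Q s' w') : dsc s w = dsc s' w' := by
  obtain ⟨π, hπ⟩ := h.perm h'
  refine Fintype.prod_equiv π _ _ fun ε => Finset.prod_equiv π (fun ε' => by simp) fun ε' _ => ?_
  rw [hπ, hπ]

theorem GC.exists_dsc (G : GC p P) : ∃ Δ : F, ∀ (Ω : Type) [Field Ω] [IsAlgClosed Ω] [CharZero Ω]
    (ι : F →+* Ω) (s : Ω) (w : Fin 3 → Ω), Cu p (P.map ι) s w → ι Δ = dsc s w := by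
  obtain ⟨ι₁, s₁, w₁, h⟩ := G.cu
  have key : ∀ (Ω : Type) [Field Ω] [IsAlgClosed Ω] [CharZero Ω] (j : Qb →+* Ω) (s : Ω)
      (w : Fin 3 → Ω), Cu p (P.map (j.comp ι₁)) s w → j (dsc s₁ w₁) = dsc s w := by
    intro Ω _ _ _ j s w hc
    rw [hc.dsc_eq (cu_push h j)]
    simp only [dsc, map_prod, map_sub, map_pow, vx_map]
  obtain ⟨Δ, hΔ⟩ := exists_desc ι₁ (y := dsc s₁ w₁) fun j hj => key Qb j s₁ w₁ (by rwa [hj])
  refine ⟨Δ, fun Ω _ _ _ ι s w hc => ?_⟩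
  obtain ⟨j, rfl⟩ := exists_comp ι₁ ι
  rw [RingHom.comp_apply, hΔ]
  exact key Ω j s w hc

theorem GC.vx_le (G : GC p P) {l : ℕ} [Fact l.Prime] {ι : F →+* Om l} {s : Om l}
    {w : Fin 3 → Om l} (h : Cu p (P.map ι) s w) (ε : κ) : ‖vx s w ε‖ ≤ 1 :=
  le_of_integral (G.root_int (h.root ε))

/-- An integer that bounds all differences of squares of roots. -/
theorem GC.exists_N (G : GC p P) : ∃ N : ℕ, N ≠ 0 ∧ N ≤ (2 * p) ^ (56 * finrank ℚ F) ∧
    ∀ (l : ℕ) [Fact l.Prime] (ι : F →+* Om l) (s : Om l) (w : Fin 3 → Om l), Cu p (P.map ι) s w →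
      ∀ ε, ‖(N : Om l)‖ ≤ ∏ ε' ∈ Finset.univ.erase ε, ‖vx s w ε ^ 2 - vx s w ε' ^ 2‖ := by
  obtain ⟨Δ, hΔ⟩ := G.exists_dsc
  have h1 : ∀ (l : ℕ) [Fact l.Prime] (ι : F →+* Om l) (s : Om l) (w : Fin 3 → Om l),
      Cu p (P.map ι) s w → ∀ ε,
        ∏ ε' ∈ Finset.univ.erase ε, ‖vx s w ε ^ 2 - vx s w ε' ^ 2‖ ≤ 1 := fun l _ ι s w h ε =>
    Finset.prod_le_one (fun _ _ => norm_nonneg _) fun ε' _ => le_of_integral
      (((G.root_int (h.root ε)).pow 2).sub ((G.root_int (h.root ε')).pow 2))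
  have h2 : ∀ (l : ℕ) [Fact l.Prime] (ι : F →+* Om l) (s : Om l) (w : Fin 3 → Om l),
      Cu p (P.map ι) s w → ∀ ε,
        ‖ι Δ‖ ≤ ∏ ε' ∈ Finset.univ.erase ε, ‖vx s w ε ^ 2 - vx s w ε' ^ 2‖ := by
    intro l _ ι s w h ε
    rw [hΔ _ ι s w h, dsc, norm_prod, ← Finset.mul_prod_erase _ _ (Finset.mem_univ ε), norm_prod]
    refine mul_le_of_le_one_right (Finset.prod_nonneg fun _ _ => norm_nonneg _)
      (Finset.prod_le_one (fun _ _ => norm_nonneg _) fun ε' _ => ?_)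
    rw [norm_prod]
    exact h1 l ι s w h ε'
  have h3 : ∀ (l : ℕ) [Fact l.Prime] (ι : F →+* Om l), ‖ι Δ‖ ≤ 1 := fun l _ ι => by
    obtain ⟨s, w, h⟩ := G.cu_at ι
    exact (h2 l ι s w h 0).trans (h1 l ι s w h 0)
  have h0 : Δ ≠ 0 := by
    obtain ⟨ι, s, w, h⟩ := G.cu
    rintro rfl
    have h4 := hΔ _ ι s w h
    rw [map_zero, eq_comm, dsc, Finset.prod_eq_zero_iff] at h4
    obtain ⟨ε, -, h4⟩ := h4
    obtain ⟨ε', h5, h4⟩ := Finset.prod_eq_zero_iff.1 h4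
    exact (Finset.ne_of_mem_erase h5).symm (h.inj (sub_eq_zero.1 h4))
  let d : 𝓞 F := ⟨Δ, isIntegral_of_le h3⟩
  have hd : d ≠ 0 := fun h => h0 (congrArg Subtype.val h)
  refine ⟨(Algebra.norm ℤ d).natAbs, by simpa using hd, ?_, fun l _ ι s w h ε => ?_⟩
  · have h4 := NT.abs_norm_le (x := d) (B := (2 * p) ^ 56) fun σ => by
      obtain ⟨s, w, h⟩ := G.cu_at σ
      change ‖σ Δ‖ ≤ _
      rw [hΔ _ σ s w h, dsc, norm_prod]
      refine (Finset.prod_le_prod (g := fun _ => (2 * p : ℝ) ^ 7) (fun _ _ => norm_nonneg _)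
        fun ε _ => ?_).trans (by simp [← pow_mul])
      rw [norm_prod]
      refine (Finset.prod_le_prod (g := fun _ => (2 * p : ℝ)) (fun _ _ => norm_nonneg _)
        fun ε' _ => ?_).trans (by simp [Finset.card_erase_of_mem])
      refine (norm_sub_le _ _).trans ?_
      rw [norm_pow, norm_pow, G.weil σ _ (h.root ε), G.weil σ _ (h.root ε'), two_mul]
    rw [← pow_mul] at h4
    exact_mod_cast h4
  · refine le_trans ?_ (h2 l ι s w h ε)
    have h4 : ‖((Algebra.norm ℤ d).natAbs : Om l)‖ = ‖∏ ι : F →+* Om l, ι Δ‖ := by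
      rw [prod_emb, show Δ = (d : F) from rfl, ← Algebra.coe_norm_int, Rat.cast_intCast,
        Nat.cast_natAbs]
      rcases abs_choice (Algebra.norm ℤ d) with e | e <;> simp [e]
    classical
    rw [h4, ← Finset.mul_prod_erase _ _ (Finset.mem_univ ι), norm_mul]
    exact mul_le_of_le_one_right (norm_nonneg _) (cmnorm_prod _ fun ι' _ => h3 l ι')

/-- The coefficients of a polynomial with small values at the vertices. -/
theorem coeff_le {l : ℕ} [Fact l.Prime] {v : κ → Om l} (hv : ∀ ε, ‖v ε‖ ≤ 1) {δ η : ℝ}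
    (h0 : 0 < δ) (hδ : ∀ ε, δ ≤ ∏ ε' ∈ Finset.univ.erase ε, ‖v ε ^ 2 - v ε' ^ 2‖)
    {q : Polynomial (Om l)} (hq : q.degree < 8) (hη : ∀ ε, ‖q.eval (v ε)‖ ≤ η) (k : ℕ) :
    ‖q.coeff k‖ ≤ η / δ := by
  have h1 : ∀ ε, δ ≤ ∏ ε' ∈ Finset.univ.erase ε, ‖v ε - v ε'‖ := fun ε =>
    (hδ ε).trans (Finset.prod_le_prod (fun _ _ => norm_nonneg _) fun ε' _ => by
      rw [sq_sub_sq, norm_mul]
      exact mul_le_of_le_one_left (norm_nonneg _) (cmnorm_add (hv ε) (hv ε')))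
  have hi : Function.Injective v := fun a b e => by
    by_contra hne
    have h2 := h1 a
    rw [Finset.prod_eq_zero (Finset.mem_erase.2 ⟨Ne.symm hne, Finset.mem_univ b⟩)
      (by rw [e, sub_self, norm_zero])] at h2
    exact absurd h0 (not_lt.2 h2)
  have hη0 : 0 ≤ η := (norm_nonneg _).trans (hη 0)
  rw [Lagrange.eq_interpolate (s := Finset.univ) hi.injOn (f := q) (by simpa using hq),
    Lagrange.interpolate_apply, finsetSum_coeff]
  refine IsUltrametricDist.norm_sum_le_of_forall_le_of_nonneg (by positivity) fun ε _ => ?_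
  simp only [Lagrange.basis, Lagrange.basisDivisor]
  rw [Finset.prod_mul_distrib, ← map_prod, coeff_C_mul, coeff_C_mul, norm_mul, norm_mul, norm_prod,
    div_eq_mul_inv]
  refine mul_le_mul (hη ε) ?_ (by positivity) hη0
  refine (mul_le_of_le_one_right (Finset.prod_nonneg fun _ _ => norm_nonneg _)
    (cmemb_coeff (monic_prod_of_monic _ _ fun _ _ => monic_X_sub_C _) (fun z hz => ?_) k)).trans ?_
  · rw [eval_prod, Finset.prod_eq_zero_iff] at hz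
    obtain ⟨ε', -, hz⟩ := hz
    rw [eval_sub, eval_X, eval_C, sub_eq_zero] at hz
    exact hz ▸ hv ε'
  · simp only [norm_inv, Finset.prod_inv_distrib]
    exact inv_anti₀ h0 (h1 ε)

end MG.CB
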