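import Pool.Agent.Lib.MP_33b3f9_ag.MG.CB.Eta

/-!
The class bound, the part without matrices.
-/

set_option autoImplicit false
set_option linter.unusedSectionVars false

noncomputable section

namespace MG.CB

open NumberField M4 M4.CM Module Polynomial
open Pool.Agent.M4.Mx hiding sg

variable {F E₀ : Type} [Field F] [NumberField F] [Field E₀] [NumberField E₀]

/-- A face and a set of embeddings over each prime divisor of `M`. -/
structure Pt (F E₀ : Type) [Field F] [Field E₀] where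
  /-- the level -/
  M : ℕ
  /-- the block -/
  ι : ∀ (l : ℕ) [Fact l.Prime], F →+* Om l
  /-- the face -/
  u : ∀ (l : ℕ) [Fact l.Prime], Om l
  /-- the signs in the other blocks -/
  S : ∀ (l : ℕ) [Fact l.Prime], Finset (E₀ →+* Om l)

/-- The primes of the CM field. -/
def Pt.B (x : Pt F E₀) : Pl E₀ := ⟨x.M, x.S⟩

open Classical in
/-- The weight of a face. -/
def Pt.wa (x : Pt F E₀) {l : ℕ} [Fact l.Prime] (ι : F →+* Om l) (u : Om l) : ℝ :=
  if l ∣ x.M ∧ ι = x.ι l ∧ u = x.u l then (l : ℝ)⁻¹ else 1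

/-- Admissible families: rational faces conjugate to `y`. -/
structure Pt.Ok (x : Pt F E₀) (i₀ : F →+* E₀) (cj : E₀ →+* E₀) (ι₁ : F →+* Qb) (y : Qb)
    (p : ℕ) : Prop where
  B : x.B.Ok (finrank ℚ F - 1)
  np : ¬ p ∣ x.M
  rat : ∀ (l : ℕ) [Fact l.Prime], l ∣ x.M → (∀ z, x.ι l z ∈ NT.Qp l) ∧ x.u l ∈ NT.Qp l ∧
    ∃ j : Qb →+* Om l, j.comp ι₁ = x.ι l ∧ j y ^ 2 = x.u l ^ 2
  cov : ∀ (l : ℕ) [Fact l.Prime], l ∣ x.M → ∀ ψ : E₀ →+* Om l,
    ψ.comp i₀ = x.ι l ∨ ψ ∈ x.S l ∨ ψ.comp cj ∈ x.S l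

/-- The properties of the quotient `γ` of two potentials. -/
structure Rel (i₀ : F →+* E₀) (cj : E₀ →+* E₀) (p : ℕ) (P : Polynomial F) (q : ℕ)
    (x x' : Pt F E₀) (γ : Polynomial E₀) (b : E₀)
    (d : ∀ (l : ℕ) [Fact l.Prime], (F →+* Om l) → Om l → Om l) : Prop where
  cong : x.M ≡ x'.M [MOD q]
  int : ∀ k, IsIntegral ℤ ((x'.M : E₀) ^ 4 / q * (γ - 1).coeff k)
  val : ∀ (l : ℕ) [Fact l.Prime] (ψ : E₀ →+* Om l) (s : Om l) (w : Fin 3 → Om l),
    Cu p (P.map (ψ.comp i₀)) s w → ∀ ε, (γ.map ψ).eval (vx s w ε) =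
      ψ b * ∏ i, d l (ψ.comp i₀) (sg (Om l) (ε i) * w i)
  sza : ∀ (l : ℕ) [Fact l.Prime] (ι : F →+* Om l) (u : Om l), ‖d l ι u‖ * x'.wa ι u = x.wa ι u
  szb : ∀ (l : ℕ) [Fact l.Prime] (ψ : E₀ →+* Om l), ‖ψ b‖ * x'.B.wt ψ = x.B.wt ψ
  gal : ∀ (l : ℕ) [Fact l.Prime] (θ : Om l →+* Om l) (ι : F →+* Om l) (u : Om l),
    θ (d l ι u) = d l (θ.comp ι) (θ u)
  mul : ∀ R : Polynomial E₀, P.map i₀ ∣ X * R - C (p : E₀) →
    P.map i₀ ∣ C (x'.M : E₀) * ((γ.map cj).comp R * γ) - C (x.M : E₀)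

variable {i₀ : F →+* E₀} {cj : E₀ →+* E₀} {p : ℕ} {P : Polynomial F}

theorem dvd_of_vx (G : GC p P) {A : Polynomial E₀} (h : ∀ (ψ : E₀ →+* Qb) (s : Qb)
    (w : Fin 3 → Qb), Cu p (P.map (ψ.comp i₀)) s w → ∀ ε, (A.map ψ).eval (vx s w ε) = 0) :
    P.map i₀ ∣ A := by
  obtain ⟨ψ⟩ : Nonempty (E₀ →+* Qb) := inferInstance
  obtain ⟨s, w, hc⟩ := G.cu_at (ψ.comp i₀)
  rw [← map_dvd_map' ψ, Polynomial.map_map, hc.eq]
  exact Fintype.prod_dvd_of_coprime (pairwise_coprime_X_sub_C hc.inj') fun ε =>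
    dvd_iff_isRoot.2 (h ψ s w hc ε)

variable {E : Type} [Field E] [NumberField E] [Algebra F E]

/-- `γ` is the reflex norm of `a` times `b`. -/
def Val (i₀ : F →+* E₀) (p : ℕ) (P : Polynomial F) (w₀ a : E) (b : E₀) (γ : Polynomial E₀) : Prop :=
  γ.degree < 8 ∧ ∀ (Ω : Type) [Field Ω] [IsAlgClosed Ω] [CharZero Ω] (ψ : E₀ →+* Ω) (s : Ω)
    (w : Fin 3 → Ω), Cu p (P.map (ψ.comp i₀)) s w → ∀ ε, (γ.map ψ).eval (vx s w ε) =
      ψ b * ∏ i, Dv w₀ a (ψ.comp i₀) (sg Ω (ε i) * w i)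

theorem exists_val (G : GC p P) (i₀ : F →+* E₀) (w₀ a : E) (b : E₀) : ∃ γ, Val i₀ p P w₀ a b γ := by
  obtain ⟨γ, h1, h2⟩ := G.exists_gamma w₀ a
  refine ⟨C b * γ.map i₀, ?_, fun Ω _ _ _ ψ s w hc ε => ?_⟩
  · rw [← smul_eq_C_mul]
    exact (degree_smul_le _ _).trans_lt (degree_map_le.trans_lt h1)
  · rw [Polynomial.map_mul, map_C, Polynomial.map_map, eval_mul, eval_C, h2 Ω _ s w hc]

variable {w₀ a a' : E} {b b' : E₀} {γ γ' γ'' : Polynomial E₀}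

theorem val_one : Val i₀ p P w₀ 1 1 1 :=
  ⟨by rw [degree_one]; norm_num, fun _ _ _ _ _ _ _ _ _ => by simp [Dv_unit]⟩

theorem Val.mul (G : GC p P) (h : Val i₀ p P w₀ a b γ) (h' : Val i₀ p P w₀ a' b' γ')
    (h'' : Val i₀ p P w₀ (a * a') (b * b') γ'') : P.map i₀ ∣ γ * γ' - γ'' :=
  dvd_of_vx G fun ψ s w hc ε => by
    rw [Polynomial.map_sub, Polynomial.map_mul, eval_sub, eval_mul, h.2 _ ψ s w hc,
      h'.2 _ ψ s w hc, h''.2 _ ψ s w hc, map_mul]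
    simp only [Dv_mul, Finset.prod_mul_distrib]
    ring

theorem Val.sim (G : GC p P) (hp : p ≠ 0) (hF : FD p P w₀) (hc : cj.comp i₀ = i₀)
    (h : Val i₀ p P w₀ a b γ) {R : Polynomial E₀} (hR : P.map i₀ ∣ X * R - C (p : E₀)) :
    P.map i₀ ∣ (γ.map cj).comp R * γ - C (i₀ (Algebra.norm F a) * (b * cj b)) :=
  dvd_of_vx G fun ψ s w hw ε => by
    have h1 : (R.map ψ).eval (vx s w ε) = vx s w fun i => (ε i).rev := by
      have h2 := eval_eq_zero_of_dvd_of_eval_eq_zero (Polynomial.map_dvd ψ hR)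
        (by rw [Polynomial.map_map]; exact hw.root ε)
      have h3 := vx_rev hw ε
      have h4 : vx s w ε ≠ 0 := fun h0 => hp (by rw [h0, zero_mul] at h3; exact_mod_cast h3.symm)
      rw [Polynomial.map_sub, Polynomial.map_mul, map_X, map_C, eval_sub, eval_mul, eval_X,
        eval_C, map_natCast] at h2
      exact mul_left_cancel₀ h4 (by linear_combination h2 - h3)
    have e : (ψ.comp cj).comp i₀ = ψ.comp i₀ := by rw [RingHom.comp_assoc, hc]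
    have h2 := h.2 _ (ψ.comp cj) s w (by rwa [e]) fun i => (ε i).rev
    have h3 := Dv_all hF a hw ε
    rw [e] at h2
    rw [Polynomial.map_sub, Polynomial.map_mul, Polynomial.map_comp, Polynomial.map_map, map_C,
      eval_sub, eval_mul, eval_comp, eval_C, h1, h2, h.2 _ ψ s w hw, map_mul, map_mul]
    simp only [RingHom.comp_apply] at h3 ⊢
    linear_combination ψ b * ψ (cj b) * h3

theorem Dv_cong {l : ℕ} [Fact l.Prime] (hF : Gen F w₀) {y : 𝓞 E} {m M : ℕ} (hM : M ≠ 0)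
    (h : a = 1 + m * y / M) (ι : F →+* Om l) (u : Om l) :
    ‖M * Dv w₀ a ι u - M‖ ≤ ‖(m : Om l)‖ := by
  by_cases h1 : ∃ φ : E →+* Om l, φ.comp (algebraMap F E) = ι ∧ φ w₀ = u
  · obtain ⟨φ, rfl, rfl⟩ := h1
    rw [Dv_eq hF]
    exact cong_le hM h φ
  · rw [Dv_one a fun φ h2 h3 => h1 ⟨φ, h2, h3⟩]
    simp

theorem nat_le (l n : ℕ) [Fact l.Prime] : ‖(n : Om l)‖ ≤ 1 :=
  IsUltrametricDist.norm_natCast_le_one _ n

theorem le_of_cong {l m M : ℕ} [Fact l.Prime] {x : Om l} (h : ‖x - M‖ ≤ ‖(m : Om l)‖) :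
    ‖x‖ ≤ 1 := by
  simpa using cmnorm_add (h.trans (nat_le l m)) (nat_le l M)

theorem four_le {l m M : ℕ} [Fact l.Prime] {x : Om l} {y : Fin 3 → Om l}
    (hx : ‖M * x - M‖ ≤ ‖(m : Om l)‖) (hy : ∀ i, ‖M * y i - M‖ ≤ ‖(m : Om l)‖) :
    ‖(M : Om l) ^ 4 * (x * ∏ i, y i - 1)‖ ≤ ‖(m : Om l)‖ := by
  have h : ∀ i, ‖M * (Fin.cons x y : Fin 4 → Om l) i - M‖ ≤ ‖(m : Om l)‖ := Fin.cases hx hy
  refine le_of_eq_of_le (congrArg _ ?_) (prod_sub_le Finset.univ (norm_nonneg _)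
    (fun i _ => le_of_cong (h i)) (fun _ _ => nat_le l M) fun i _ => h i)
  rw [Finset.prod_mul_distrib, Fin.prod_cons, Finset.prod_const, Finset.card_univ, Fintype.card_fin]
  ring

theorem Val.int (G : GC p P) (hF : Gen F w₀) (h : Val i₀ p P w₀ a b γ) {y : 𝓞 E} {y' : 𝓞 E₀}
    {q N k M : ℕ} (hM : M ≠ 0) (hq : q ≠ 0) (hN : N ≠ 0) (ha : a = 1 + (q * N * k : ℕ) * y / M)
    (hb : b = 1 + (q * N * k : ℕ) * y' / M)
    (hd : ∀ (l : ℕ) [Fact l.Prime] (ι : F →+* Om l) (s : Om l) (w : Fin 3 → Om l),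
      Cu p (P.map ι) s w → ∀ ε,
        ‖(N : Om l)‖ ≤ ∏ ε' ∈ Finset.univ.erase ε, ‖vx s w ε ^ 2 - vx s w ε' ^ 2‖) (n : ℕ) :
    IsIntegral ℤ ((M : E₀) ^ 4 / q * (γ - 1).coeff n) := by
  refine isIntegral_of_le fun l _ ψ => ?_
  obtain ⟨s, w, hc⟩ := G.cu_at (ψ.comp i₀)
  have hN0 : 0 < ‖(N : Om l)‖ := norm_pos_iff.2 (Nat.cast_ne_zero.2 hN)
  have hq0 : 0 < ‖(q : Om l)‖ := norm_pos_iff.2 (Nat.cast_ne_zero.2 hq)
  have h1 := coeff_le (G.vx_le hc) hN0 (hd l _ s w hc)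
    (q := C ((M : Om l) ^ 4) * (γ - 1).map ψ) (η := ‖((q * N * k : ℕ) : Om l)‖) (by
      rw [← smul_eq_C_mul]
      refine (degree_smul_le _ _).trans_lt (degree_map_le.trans_lt
        ((degree_sub_le _ _).trans_lt (max_lt h.1 ?_)))
      rw [degree_one]
      norm_num) (fun ε => by
      have h2 := cong_le hM hb ψ
      have h3 := fun i => Dv_cong hF hM ha (ψ.comp i₀) (sg (Om l) (ε i) * w i)
      have h4 := four_le h2 h3
      refine le_of_eq_of_le (congrArg _ ?_) h4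
      rw [eval_mul, eval_C, Polynomial.map_sub, Polynomial.map_one, eval_sub, eval_one,
        h.2 _ ψ s w hc]) n
  rw [coeff_C_mul, coeff_map, Nat.cast_mul, Nat.cast_mul, norm_mul, norm_mul, norm_mul,
    mul_right_comm, mul_div_cancel_right₀ _ hN0.ne'] at h1
  rw [map_mul, map_div₀, map_pow, map_natCast, map_natCast, norm_mul, norm_div, div_mul_eq_mul_div,
    div_le_one hq0]
  exact h1.trans (mul_le_of_le_one_right hq0.le (nat_le l k))

theorem eta_eq [Fact p.Prime] {g g' : E} {c c' : E₀} {M M' m k : ℕ} (hg : g' ≠ 0) (hc : c' ≠ 0)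
    (hM : ¬ p ∣ M) (hM' : ¬ p ∣ M') (hm : p ^ k ∣ m) (hMM : M ≡ M' [MOD m]) {y : 𝓞 E} {y' : 𝓞 E₀}
    (ha : g / g' = 1 + m * y / M') (hb : c / c' = 1 + m * y' / M')
    (h1 : ∀ (l : ℕ) [Fact l.Prime] (ψ : E₀ →+* Om l),
      ‖ψ (eta i₀ cj g c M)‖ ≤ 1 ∧ ‖ψ (eta i₀ cj g' c' M')‖ ≤ 1)
    (h2 : ∀ σ : E₀ →+* ℂ, ‖σ (eta i₀ cj g c M)‖ ≤ (p : ℝ) ^ k / 4 ∧
      ‖σ (eta i₀ cj g' c' M')‖ ≤ (p : ℝ) ^ k / 4) :
    (M' : E₀) * (i₀ (Algebra.norm F (g / g')) * (c / c' * cj (c / c'))) = M := by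
  have : Module.Finite F E := Module.Finite.of_restrictScalars_finite ℚ F E
  have hp : p ≠ 0 := (Fact.out : p.Prime).ne_zero
  have a1 : M ≠ 0 := fun h => hM (h ▸ dvd_zero p)
  have a2 : M' ≠ 0 := fun h => hM' (h ▸ dvd_zero p)
  have a3 : (M : E₀) ≠ 0 := Nat.cast_ne_zero.2 a1
  have a4 : (M' : E₀) ≠ 0 := Nat.cast_ne_zero.2 a2
  have a5 : i₀ (Algebra.norm F g') ≠ 0 := (map_ne_zero i₀).2 (Algebra.norm_ne_zero_iff.2 hg)
  have a6 : cj c' ≠ 0 := (map_ne_zero cj).2 hc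
  set ν := i₀ (Algebra.norm F (g / g')) * (c / c' * cj (c / c')) with hν
  have a7 : eta i₀ cj g c M - eta i₀ cj g' c' M' = eta i₀ cj g' c' M' * (M' * ν - M) / M := by
    have e : Algebra.norm F g = Algebra.norm F (g / g') * Algebra.norm F g' := by
      rw [← map_mul, div_mul_cancel₀ _ hg]
    rw [eta, eta, hν, map_div₀ cj, e, map_mul]
    generalize i₀ (Algebra.norm F (g / g')) = t
    field_simp
  have a8 : eta i₀ cj g' c' M' ≠ 0 := div_ne_zero (mul_ne_zero a5 (mul_ne_zero hc a6)) a4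
  have key : (eta i₀ cj g c M - eta i₀ cj g' c' M') / (p : E₀) ^ k = 0 := by
    refine eq_zero_of_small (fun l _ ψ => ?_) fun σ => ?_
    · rw [map_div₀, map_pow, map_natCast, norm_div]
      refine div_le_one_of_le₀ ?_ (norm_nonneg _)
      by_cases hl : l = p
      swap
      · rw [norm_pow, norm_nat_eq_one fun h =>
          hl ((Nat.prime_dvd_prime_iff_eq Fact.out Fact.out).1 h), one_pow, map_sub, sub_eq_add_neg]
        exact cmnorm_add (h1 l ψ).1 ((norm_neg _).le.trans (h1 l ψ).2)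
      subst hl
      have b1 := norm_nat_eq_one hM'
      have b2 : ∀ x : Om l, ‖M' * x - M'‖ ≤ ‖(m : Om l)‖ → ‖x - 1‖ ≤ ‖(m : Om l)‖ := fun x hx => by
        rwa [← mul_sub_one, norm_mul, b1, one_mul] at hx
      have b3 := norm_prod_sub_one (ov E (ψ.comp i₀)) (norm_nonneg _) (nat_le l m)
        fun φ _ => b2 _ (cong_le a2 ha φ)
      rw [(ov_spec _).2] at b3
      have b4 := norm_prod_sub_one Finset.univ (norm_nonneg _) (nat_le l m)
        (x := ![ψ (i₀ (Algebra.norm F (g / g'))), ψ (c / c'), ψ (cj (c / c'))]) fun i _ => by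
          fin_cases i
          exacts [b3, b2 _ (cong_le a2 hb ψ), b2 _ (cong_le a2 hb (ψ.comp cj))]
      have b5 : ‖(M' : Om l) - M‖ ≤ ‖(m : Om l)‖ := by
        obtain ⟨t, ht⟩ := hMM.dvd
        have := congrArg (Int.cast : ℤ → Om l) ht
        push_cast at this
        rw [this, norm_mul]
        exact mul_le_of_le_one_right (norm_nonneg _) (norm_int_le t)
      have b6 : ‖(m : Om l)‖ ≤ ‖(l : Om l) ^ k‖ := by
        obtain ⟨t, rfl⟩ := hm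
        rw [Nat.cast_mul, norm_mul, Nat.cast_pow]
        exact mul_le_of_le_one_right (norm_nonneg _) (nat_le l t)
      have b7 : ψ (M' * ν - M) = M' * (∏ i, ![ψ (i₀ (Algebra.norm F (g / g'))), ψ (c / c'),
          ψ (cj (c / c'))] i - 1) + (M' - M) := by
        simp only [hν, map_sub, map_mul, map_natCast, Fin.prod_univ_three, Matrix.cons_val]
        ring
      rw [a7, map_div₀, map_mul, map_natCast, norm_div, norm_nat_eq_one hM, div_one, norm_mul, b7]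
      refine (mul_le_of_le_one_left (norm_nonneg _) (h1 l ψ).2).trans
        ((cmnorm_add ?_ b5).trans b6)
      rwa [norm_mul, b1, one_mul]
    · have b1 : (0 : ℝ) < (p : ℝ) ^ k := by positivity
      rw [map_div₀, map_pow, map_natCast, norm_div, norm_pow, Complex.norm_natCast, map_sub,
        div_le_iff₀ b1]
      linarith [norm_sub_le (σ (eta i₀ cj g c M)) (σ (eta i₀ cj g' c' M')), h2 σ]
  rw [div_eq_zero_iff, a7, div_eq_zero_iff, mul_eq_zero] at key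
  rcases key with ((h | h) | h) | h
  · exact absurd h a8
  · exact sub_eq_zero.1 h
  · exact absurd h a3
  · exact absurd h (pow_ne_zero _ (Nat.cast_ne_zero.2 hp))

end MG.CB
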